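import Pool.Agent.TH217.TL.Leg

/-!
Completeness of the Euler-Lagrange flow of `L + f` under a growth condition, and continuity of the
velocity of an orbit.
-/

set_option autoImplicit false

namespace Pool.Agent.TH217.TL

open Pool.Agent.W774.TL Set Filter Topology
open scoped ContDiff

section

variable {n : ℕ} {L : (Fin n → ℝ) → (Fin n → ℝ) → ℝ → ℝ}

lemma Lv_add (h : Sm L) (f : (Fin n → ℝ) → ℝ → ℝ) (i : Fin n) (x v : Fin n → ℝ) (t : ℝ) :
    Lv (fun x v t => L x v t + f x t) i x v t = Lv L i x v t := by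
  rw [Lv_eq h]
  unfold Lv
  exact ((Lv_hd h i x v t).add_const (f x t)).deriv

lemma f_hd {f : (Fin n → ℝ) → ℝ → ℝ} (hf : C2 f) (i : Fin n) (x : Fin n → ℝ) (t : ℝ) :
    HasDerivAt (fun s => f (Function.update x i s) t) (Df f i x t) (x i) := by
  have h1 : Differentiable ℝ (fun q : (Fin n → ℝ) × ℝ => f q.1 q.2) :=
    hf.differentiable (by norm_num)
  have h2 : DifferentiableAt ℝ (fun s : ℝ => ((Function.update x i s, t) : (Fin n → ℝ) × ℝ))
      (x i) :=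
    (hasDerivAt_update x i (x i)).differentiableAt.prodMk (differentiableAt_const t)
  have h3 : DifferentiableAt ℝ (fun s => f (Function.update x i s) t) (x i) :=
    (h1 _).comp (x i) h2
  exact h3.hasDerivAt

lemma Lx_add (h : Sm L) {f : (Fin n → ℝ) → ℝ → ℝ} (hf : C2 f) (i : Fin n) (x v : Fin n → ℝ)
    (t : ℝ) :
    Lx (fun x v t => L x v t + f x t) i x v t = Lx L i x v t + Df f i x t := by
  rw [Lx_eq h]
  unfold Lx
  exact ((Lx_hd h i x v t).fun_add (f_hd hf i x t)).deriv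

lemma el_iff2 (h : Sm L) {f : (Fin n → ℝ) → ℝ → ℝ} (hf : C2 f) (γ : ℝ → (Fin n → ℝ)) :
    IsEL (fun x v t => L x v t + f x t) γ ↔
      (∀ t, DifferentiableAt ℝ γ t) ∧ ∀ (t : ℝ) (i : Fin n),
        HasDerivAt (fun s => Lv L i (γ s) (deriv γ s) s)
          (Lx L i (γ t) (deriv γ t) t + Df f i (γ t) t) t := by
  unfold IsEL
  simp only [Lv_add h f, Lx_add h hf]

/-- the growth condition. -/
def Grow (L : (Fin n → ℝ) → (Fin n → ℝ) → ℝ → ℝ) (C : ℝ) : Prop :=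
  ∀ (x v : Fin n → ℝ) (t : ℝ),
    ‖v‖ ≤ C * (1 + ‖fun i => Lv L i x v t‖) ∧
    ∀ i, |Lx L i x v t| ≤ C * (1 + ‖fun i => Lv L i x v t‖)

/-- the field on the extended phase space -/
noncomputable def FG (L : (Fin n → ℝ) → (Fin n → ℝ) → ℝ → ℝ) (f : (Fin n → ℝ) → ℝ → ℝ)
    (W : (Fin n → ℝ) × (Fin n → ℝ) × ℝ → (Fin n → ℝ))
    (z : (Fin n → ℝ) × (Fin n → ℝ) × ℝ) : (Fin n → ℝ) × (Fin n → ℝ) × ℝ :=
  (W z, fun i => Lx L i z.1 (W z) z.2.2 + Df f i z.1 z.2.2, 1)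

lemma FG_cd (h : Sm L) {f : (Fin n → ℝ) → ℝ → ℝ} (hf : C2 f)
    {W : (Fin n → ℝ) × (Fin n → ℝ) × ℝ → (Fin n → ℝ)} (hW : ContDiff ℝ 1 W) :
    ContDiff ℝ 1 (FG L f W) := by
  refine hW.prodMk (ContDiff.prodMk ?_ contDiff_const)
  rw [contDiff_pi]
  intro i
  have h1 : ContDiff ℝ 1 (fun z : (Fin n → ℝ) × (Fin n → ℝ) × ℝ =>
      ((z.1, W z, z.2.2) : (Fin n → ℝ) × (Fin n → ℝ) × ℝ)) :=
    contDiff_fst.prodMk (hW.prodMk (contDiff_snd.comp contDiff_snd))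
  have h2 : ContDiff ℝ 1 (fun z : (Fin n → ℝ) × (Fin n → ℝ) × ℝ =>
      ((z.1, z.2.2) : (Fin n → ℝ) × ℝ)) :=
    contDiff_fst.prodMk (contDiff_snd.comp contDiff_snd)
  exact ((Lx_cd h i).comp h1).add ((Pool.Agent.W599.TL.Df_cd hf i).comp h2)

lemma FG_bd {f : (Fin n → ℝ) → ℝ → ℝ}
    {W : (Fin n → ℝ) × (Fin n → ℝ) × ℝ → (Fin n → ℝ)}
    (hW : ∀ x p t, (fun i => Lv L i x (W (x, p, t)) t) = p)
    {C : ℝ} (hC0 : 0 ≤ C) (hC : Grow L C) {G : ℝ} (hG0 : 0 ≤ G)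
    (hG : ∀ (i : Fin n) (x : Fin n → ℝ) (t : ℝ), |Df f i x t| ≤ G)
    (z : (Fin n → ℝ) × (Fin n → ℝ) × ℝ) : ‖FG L f W z‖ ≤ (C + G + 1) * (1 + ‖z‖) := by
  obtain ⟨x, p, t⟩ := z
  have hz0 : 0 ≤ ‖(x, p, t)‖ := norm_nonneg _
  have hpz : ‖p‖ ≤ ‖(x, p, t)‖ := (norm_fst_le (p, t)).trans (norm_snd_le (x, (p, t)))
  have hB : 0 ≤ (C + G + 1) * (1 + ‖(x, p, t)‖) := by positivity
  have h1 := hC x (W (x, p, t)) t
  rw [hW] at h1
  have hCz : C * (1 + ‖p‖) ≤ C * (1 + ‖(x, p, t)‖) :=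
    mul_le_mul_of_nonneg_left (by linarith) hC0
  have hGz : 0 ≤ G * ‖(x, p, t)‖ := mul_nonneg hG0 hz0
  unfold FG
  refine max_le ?_ (max_le ?_ ?_)
  · have := h1.1
    show ‖W (x, p, t)‖ ≤ _
    nlinarith
  · refine (pi_norm_le_iff_of_nonneg hB).2 (fun i => ?_)
    have h4 := h1.2 i
    have h6 := hG i x t
    have h7 := abs_add_le (Lx L i x (W (x, p, t)) t) (Df f i x t)
    rw [Real.norm_eq_abs]
    show |Lx L i x (W (x, p, t)) t + Df f i x t| ≤ _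
    nlinarith
  · have : ‖(1 : ℝ)‖ = 1 := norm_one
    show ‖(1 : ℝ)‖ ≤ _
    rw [this]
    have : 0 ≤ C * (1 + ‖(x, p, t)‖) := by positivity
    nlinarith

/-- **Completeness.** -/
theorem complete (h : Sm L) (hp : Pos L) (hs : Sup L) {C : ℝ} (hC0 : 0 ≤ C) (hC : Grow L C)
    {f : (Fin n → ℝ) → ℝ → ℝ} (hf : C2 f) {G : ℝ} (hG0 : 0 ≤ G)
    (hG : ∀ (i : Fin n) (x : Fin n → ℝ) (t : ℝ), |Df f i x t| ≤ G)
    (t0 : ℝ) (x0 v0 : Fin n → ℝ) :
    ∃ γ : ℝ → (Fin n → ℝ), IsEL (fun x v t => L x v t + f x t) γ ∧ γ t0 = x0 ∧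
      deriv γ t0 = v0 := by
  obtain ⟨W, hWc, hW1, hW2⟩ := legendre h hp hs
  obtain ⟨α, ha0, ha⟩ := Pool.Agent.Helper981.global_sol (F := FG L f W) (FG_cd h hf hWc)
    (A := C + G + 1) (by positivity) (FG_bd hW2 hC0 hC hG0 hG)
    (x0, fun i => Lv L i x0 v0 t0, t0)
  have hT : ∀ s, (α s).2.2 = t0 + s := by
    have hd : ∀ s, HasDerivAt (fun s => (α s).2.2) 1 s := fun s => ((ha s).snd).snd
    have hd2 : ∀ s, HasDerivAt (fun s => (α s).2.2 - s) 0 s := by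
      intro s
      have := (hd s).fun_sub (hasDerivAt_id s)
      simpa using this
    have hc := is_const_of_deriv_eq_zero (f := fun s => (α s).2.2 - s)
      (fun s => (hd2 s).differentiableAt) (fun s => (hd2 s).deriv)
    intro s
    have h5 := hc s 0
    simp only [ha0, sub_zero] at h5
    linarith
  have hsh : ∀ t : ℝ, HasDerivAt (fun t => α (t - t0)) (FG L f W (α (t - t0))) t := by
    intro t
    exact (ha (t - t0)).comp_sub_const t t0
  have e : ∀ t, (α (t - t0)).2.2 = t := by intro t; rw [hT]; ring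
  set X : ℝ → (Fin n → ℝ) := fun t => (α (t - t0)).1 with hX
  set Q : ℝ → (Fin n → ℝ) := fun t => (α (t - t0)).2.1 with hQ
  have hal : ∀ t, α (t - t0) = (X t, Q t, t) := by
    intro t
    refine Prod.ext rfl (Prod.ext rfl (e t))
  have hXd : ∀ t, HasDerivAt X (W (X t, Q t, t)) t := by
    intro t
    have h1 : HasDerivAt (fun t => (α (t - t0)).1) (FG L f W (α (t - t0))).1 t := (hsh t).fst
    rw [hal t] at h1
    exact h1
  have hQd : ∀ t, HasDerivAt Q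
      (fun i => Lx L i (X t) (W (X t, Q t, t)) t + Df f i (X t) t) t := by
    intro t
    have h1 : HasDerivAt (fun t => (α (t - t0)).2.1) (FG L f W (α (t - t0))).2.1 t :=
      ((hsh t).snd).fst
    rw [hal t] at h1
    exact h1
  have hdX : ∀ t, deriv X t = W (X t, Q t, t) := fun t => (hXd t).deriv
  have hX0 : X t0 = x0 := by simp [hX, ha0]
  have hQ0 : Q t0 = fun i => Lv L i x0 v0 t0 := by simp [hQ, ha0]
  refine ⟨X, ?_, hX0, ?_⟩
  · rw [el_iff2 h hf]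
    refine ⟨fun t => (hXd t).differentiableAt, ?_⟩
    intro t i
    have h1 : (fun s => Lv L i (X s) (deriv X s) s) = fun s => Q s i := by
      funext s
      rw [hdX s]
      exact congrFun (hW2 (X s) (Q s) s) i
    rw [h1, hdX t]
    exact (hasDerivAt_pi.mp (hQd t)) i
  · rw [hdX, hX0, hQ0, hW1]

/-- the velocity of an orbit is continuous. -/
theorem vel_cont (h : Sm L) (hp : Pos L) (hs : Sup L)
    {f : (Fin n → ℝ) → ℝ → ℝ} (hf : C2 f) {γ : ℝ → (Fin n → ℝ)}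
    (hγ : IsEL (fun x v t => L x v t + f x t) γ) : Continuous (deriv γ) := by
  obtain ⟨W, hWc, hW1, hW2⟩ := legendre h hp hs
  rw [el_iff2 h hf] at hγ
  obtain ⟨hd, he⟩ := hγ
  have h1 : deriv γ = fun s => W (γ s, fun i => Lv L i (γ s) (deriv γ s) s, s) := by
    funext s
    exact (hW1 _ _ _).symm
  have hc1 : Continuous γ := continuous_iff_continuousAt.2 fun t => (hd t).continuousAt
  have hc2 : Continuous (fun s => fun i => Lv L i (γ s) (deriv γ s) s) := by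
    refine continuous_pi fun i => ?_
    exact continuous_iff_continuousAt.2 fun t => (he t i).continuousAt
  rw [h1]
  exact hWc.continuous.comp (hc1.prodMk (hc2.prodMk continuous_id))

end

end Pool.Agent.TH217.TL
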