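import Pool.Agent.TH217.TL.Esc

/-!
The set of Lagrangians all of whose potential perturbations have an open set of escaping orbits is
dense for the compact-open topology.
-/

set_option autoImplicit false

namespace Pool.Agent.TH217.TL

open Pool.Agent.W774.TL Set Filter Topology
open scoped ContDiff

variable {n : ℕ}

lemma lag_Lv {l P : ℝ → ℝ → ℝ → ℝ}
    (hlv : ∀ x v t : ℝ, HasDerivAt (fun s => l x s t) (P x v t) v)
    (i : Fin n) (x v : Fin n → ℝ) (t : ℝ) : Lv (M2.Lag n l) i x v t = P (x i) (v i) t := by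
  have h1 := M2.Lv_hd l P hlv (fun _ _ => 0) i x v t
  simp only [add_zero] at h1
  exact h1

lemma lag_Lx {l P : ℝ → ℝ → ℝ → ℝ}
    (hlx : ∀ x v t : ℝ, HasDerivAt (fun s => l s v t) (fo x (P x v t) t) x)
    (i : Fin n) (x v : Fin n → ℝ) (t : ℝ) :
    Lx (M2.Lag n l) i x v t = fo (x i) (P (x i) (v i) t) t := by
  have hC : C2 (fun (_ : Fin n → ℝ) (_ : ℝ) => (0 : ℝ)) := contDiff_const
  have h1 := M2.Lx_hd l P hlx (fun _ _ => 0) hC i x v t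
  have h2 : Df (fun (_ : Fin n → ℝ) (_ : ℝ) => (0 : ℝ)) i x t = 0 := by
    unfold Df
    simp
  rw [h2] at h1
  simp only [add_zero] at h1
  exact h1

/-- the glued Lagrangian satisfies `Far` and `Grow`. -/
lemma far_of_glue {l P : ℝ → ℝ → ℝ → ℝ}
    (hlv : ∀ x v t : ℝ, HasDerivAt (fun s => l x s t) (P x v t) v)
    (hlx : ∀ x v t : ℝ, HasDerivAt (fun s => l s v t) (fo x (P x v t) t) x)
    (hLag : Sm (M2.Lag n l)) {B : (Fin n → ℝ) × (Fin n → ℝ) × ℝ → ℝ} (hB : ContDiff ℝ 2 B)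
    {R c : ℝ} (hR : ∀ q, R ≤ ‖q.2.1‖ → B q = UU (M2.Lag n l) q + c) :
    Far (fun x v t => B (x, v, t)) P R := by
  have hS : Sm (fun x v t => B (x, v, t)) := hB
  intro x v t hv i
  have hev : B =ᶠ[𝓝 (x, v, t)] fun q => UU (M2.Lag n l) q + c := by
    have h1 : ∀ᶠ q : (Fin n → ℝ) × (Fin n → ℝ) × ℝ in 𝓝 (x, v, t), R < ‖q.2.1‖ := by
      have h2 : ContinuousAt (fun q : (Fin n → ℝ) × (Fin n → ℝ) × ℝ => ‖q.2.1‖) (x, v, t) := by
        fun_prop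
      exact continuousAt_const.eventually_lt h2 hv
    filter_upwards [h1] with q hq
    exact hR q hq.le
  have hfd : fderiv ℝ B (x, v, t) = fderiv ℝ (UU (M2.Lag n l)) (x, v, t) := by
    rw [hev.fderiv_eq]
    exact fderiv_add_const c
  constructor
  · rw [Lv_eq hS, ← lag_Lv hlv i x v t, Lv_eq hLag]
    exact congrArg (fun φ => φ (0, Pi.single i 1, 0)) hfd
  · rw [Lx_eq hS, ← lag_Lx hlx i x v t, Lx_eq hLag]
    exact congrArg (fun φ => φ (Pi.single i 1, 0, 0)) hfd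

lemma grow_of_far {B : (Fin n → ℝ) × (Fin n → ℝ) × ℝ → ℝ} (hB : ContDiff ℝ 2 B)
    (hper : PerE B) {P : ℝ → ℝ → ℝ → ℝ} (hHP : ∀ x v t : ℝ, hp x (P x v t) t = v)
    {R : ℝ} (hfar : Far (fun x v t => B (x, v, t)) P R) :
    ∃ C : ℝ, 0 ≤ C ∧ Grow (fun x v t => B (x, v, t)) C := by
  have hS : Sm (fun x v t => B (x, v, t)) := hB
  have hgrow := Pool.Agent.W583.TL.grow_thm sum_thm
  have h1 : ∀ i : Fin n, ∃ M : ℝ, 0 ≤ M ∧ ∀ (x v : Fin n → ℝ) (t : ℝ) (w : Fin n → ℝ),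
      ‖v‖ ≤ R → ‖w‖ ≤ 1 → |fderiv ℝ B (x, v, t) (Pi.single i 1, 0, 0)| ≤ M := by
    intro i
    exact per_bd (n := n) (g := fun z => fderiv ℝ B z.1 (Pi.single i 1, 0, 0))
      (((hB.continuous_fderiv (by norm_num)).comp continuous_fst).clm_apply continuous_const)
      (fun x v t k l w => by simp only; rw [fderiv_per hper]) R
  choose M hM0 hM using h1
  have hMs : 0 ≤ ∑ i, M i := Finset.sum_nonneg fun i _ => hM0 i
  refine ⟨(∑ i, M i) + |R| + 100, by positivity, ?_⟩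
  intro x v t
  set p : Fin n → ℝ := fun i => Lv (fun x v t => B (x, v, t)) i x v t with hp
  have hp0 : 0 ≤ ‖p‖ := norm_nonneg _
  have hR0 : 0 ≤ |R| := abs_nonneg R
  rcases le_or_gt ‖v‖ R with hv | hv
  · constructor
    · have : ‖v‖ ≤ |R| := hv.trans (le_abs_self R)
      nlinarith [mul_nonneg hMs hp0, mul_nonneg hR0 hp0]
    · intro i
      rw [Lx_eq hS]
      have h2 := hM i x v t 0 hv (by simp)
      have h3 : M i ≤ ∑ i, M i :=
        Finset.single_le_sum (f := M) (fun i _ => hM0 i) (Finset.mem_univ i)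
      have h4 : |fderiv ℝ (UU fun x v t => B (x, v, t)) (x, v, t) (Pi.single i 1, 0, 0)|
          ≤ M i := h2
      nlinarith [mul_nonneg hMs hp0, mul_nonneg hR0 hp0]
  · have hpi : ∀ i, |p i| ≤ ‖p‖ := fun i => norm_le_pi_norm p i
    have hpe : ∀ i, p i = P (x i) (v i) t := fun i => (hfar x v t hv i).1
    constructor
    · have hB0 : 0 ≤ ((∑ i, M i) + |R| + 100) * (1 + ‖p‖) := by positivity
      rw [pi_norm_le_iff_of_nonneg hB0]
      intro i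
      have h2 := (hgrow (x i) (p i) t).2
      have h3 : Pool.Agent.W774.TL.hp (x i) (p i) t = v i := by rw [hpe i, hHP]
      rw [h3] at h2
      rw [Real.norm_eq_abs]
      nlinarith [mul_nonneg hMs hp0, mul_nonneg hR0 hp0, hpi i]
    · intro i
      have h2 := (hgrow (x i) (p i) t).1
      rw [(hfar x v t hv i).2, ← hpe i]
      nlinarith [mul_nonneg hMs hp0, mul_nonneg hR0 hp0, hpi i]

theorem dense_thm (hn : 1 ≤ n) {k : ℕ∞} (hk : 2 ≤ k)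
    {L0 : (Fin n → ℝ) → (Fin n → ℝ) → ℝ → ℝ}
    (h0 : ContDiff ℝ k (fun q : (Fin n → ℝ) × (Fin n → ℝ) × ℝ => L0 q.1 q.2.1 q.2.2))
    (h0p : PerL L0)
    (h0d : ∀ (x v : Fin n → ℝ) (t : ℝ) (w : Fin n → ℝ), w ≠ 0 →
      0 < deriv (deriv (fun s : ℝ => L0 x (v + s • w) t)) 0) (R : ℝ) :
    ∃ L : (Fin n → ℝ) → (Fin n → ℝ) → ℝ → ℝ,
      ContDiff ℝ k (fun q : (Fin n → ℝ) × (Fin n → ℝ) × ℝ => L q.1 q.2.1 q.2.2) ∧ PerL L ∧
      (∀ (x v : Fin n → ℝ) (t : ℝ) (w : Fin n → ℝ), w ≠ 0 →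
        0 < deriv (deriv (fun s : ℝ => L x (v + s • w) t)) 0) ∧
      (∀ K : ℝ, ∃ B : ℝ, ∀ (x v : Fin n → ℝ) (t : ℝ), K * ‖v‖ - B ≤ L x v t) ∧
      (∀ (t0 : ℝ) (x0 v0 : Fin n → ℝ), ∃ γ : ℝ → (Fin n → ℝ),
        IsEL L γ ∧ γ t0 = x0 ∧ deriv γ t0 = v0) ∧
      (∀ (x v : Fin n → ℝ) (t : ℝ), ‖v‖ ≤ R → L x v t = L0 x v t) ∧
      (∀ f : (Fin n → ℝ) → ℝ → ℝ, C2 f → PerF f →
        (∀ (t0 : ℝ) (x0 v0 : Fin n → ℝ), ∃ γ : ℝ → (Fin n → ℝ),
          IsEL (fun x v t => L x v t + f x t) γ ∧ γ t0 = x0 ∧ deriv γ t0 = v0) ∧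
        ∃ G : ℝ, ∀ (i : Fin n) (x : Fin n → ℝ) (t : ℝ), |Df f i x t| ≤ G) ∧
      ∀ G : ℝ, ∃ (t0 : ℝ) (U : Set ((Fin n → ℝ) × (Fin n → ℝ))), IsOpen U ∧ U.Nonempty ∧
        ∀ f : (Fin n → ℝ) → ℝ → ℝ, C2 f → PerF f →
          (∀ (i : Fin n) (x : Fin n → ℝ) (t : ℝ), |Df f i x t| ≤ G) →
          ∀ γ : ℝ → (Fin n → ℝ), IsEL (fun x v t => L x v t + f x t) γ →
            (γ t0, deriv γ t0) ∈ U → ∀ (i : Fin n) (t : ℝ), t0 ≤ t → t - 5 / 2 ≤ deriv γ t i := by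
  have k2 := two_le hk
  obtain ⟨l, P, hl, hP, hHP0, hPH0, hlv, hlx0, hPv, hls, hlp⟩ :=
    Pool.Agent.W236.TL.LEG.leg_thm Pool.Agent.W774.TL.h (M2.h_smooth smooth der)
      (M2.hpp_pos der (Pool.Agent.W891.TL.cvx_thm sum_thm))
      (Pool.Agent.W819.TL.sup_thm sum_thm).1 (Pool.Agent.W819.TL.sup_thm sum_thm).2 M2.h_per
  have hHP : ∀ x v t : ℝ, hp x (P x v t) t = v := by
    intro x v t
    rw [← (M2.hp_deriv der x (P x v t) t).deriv]
    exact hHP0 x v t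
  have hPH : ∀ x p t : ℝ, P x (hp x p t) t = p := by
    intro x p t
    rw [← (M2.hp_deriv der x p t).deriv]
    exact hPH0 x p t
  have hlx : ∀ x v t : ℝ, HasDerivAt (fun s => l s v t) (fo x (P x v t) t) x := by
    intro x v t
    have := hlx0 x v t
    rw [(M2.hx_deriv der x (P x v t) t).deriv, neg_neg] at this
    exact this
  obtain ⟨hY, hYp, hYd, hYs, -⟩ :=
    M2.tonelli_lag (n := n) l P hl hP hlv hlx hHP hPH hPv hls hlp compl
  have hYc : ContDiff ℝ (⊤ : ℕ∞) (UU (M2.Lag n l)) := hY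
  have hYk : ContDiff ℝ k (UU (M2.Lag n l)) := hYc.of_le k_le
  have hLag : Sm (M2.Lag n l) := hYk.of_le k2
  have h0k : ContDiff ℝ k (UU L0) := h0
  have h0S : Sm L0 := h0k.of_le k2
  obtain ⟨B, hBk, hBp, hBd, hBs, hBR, R', c, hBc⟩ := glue_thm hk (U0 := UU L0)
    (Y0 := UU (M2.Lag n l)) h0k (fun x v t k l => h0p x v t k l)
    ((pos_iff h0S).1 h0d) hYk (fun x v t k m => hYp x v t k m)
    ((pos_iff hLag).1 hYd) (fun K => by
      obtain ⟨C, hC⟩ := hYs K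
      exact ⟨C, fun q => hC q.1 q.2.1 q.2.2⟩) R
  have hB2 : ContDiff ℝ 2 B := hBk.of_le k2
  have hS : Sm (fun x v t => B (x, v, t)) := hB2
  have hPos : Pos (fun x v t => B (x, v, t)) := (pos_iff hS).2 hBd
  have hSup : Sup (fun x v t => B (x, v, t)) := fun K => by
    obtain ⟨C, hC⟩ := hBs K
    exact ⟨C, fun x v t => hC (x, v, t)⟩
  have hfar : Far (fun x v t => B (x, v, t)) P R' := far_of_glue hlv hlx hLag hB2 hBc
  obtain ⟨C, hC0, hC⟩ := grow_of_far hB2 hBp hHP hfar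
  have hcompl : ∀ f : (Fin n → ℝ) → ℝ → ℝ, C2 f → PerF f →
      (∀ (t0 : ℝ) (x0 v0 : Fin n → ℝ), ∃ γ : ℝ → (Fin n → ℝ),
        IsEL (fun x v t => B (x, v, t) + f x t) γ ∧ γ t0 = x0 ∧ deriv γ t0 = v0) := by
    intro f hf hfp t0 x0 v0
    obtain ⟨G, hG0, hG⟩ := Pool.Agent.W787.TL.gb_thm n f hf hfp
    exact complete hS hPos hSup hC0 hC hf hG0 hG t0 x0 v0
  refine ⟨fun x v t => B (x, v, t), hBk, fun x v t k m => hBp x v t k m, hPos, hSup, ?_, ?_, ?_,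
    escape2 hn hS hPos hSup hP hHP hPH hfar⟩
  · intro t0 x0 v0
    have hf : C2 (fun (_ : Fin n → ℝ) (_ : ℝ) => (0 : ℝ)) := contDiff_const
    obtain ⟨γ, h1, h2, h3⟩ := hcompl _ hf (fun _ _ _ _ => rfl) t0 x0 v0
    simp only [add_zero] at h1
    exact ⟨γ, h1, h2, h3⟩
  · intro x v t hv
    exact hBR (x, v, t) hv
  · intro f hf hfp
    obtain ⟨G, -, hG⟩ := Pool.Agent.W787.TL.gb_thm n f hf hfp
    exact ⟨hcompl f hf hfp, G, hG⟩

end Pool.Agent.TH217.TL
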