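import Pool.Agent.TH217.TL.Step2
import Pool.Agent.TH217.TL.Dense

/-!
Escaping orbits for all small perturbations in the fine topology (and all potentials).
-/

set_option autoImplicit false

namespace Pool.Agent.TH217.TL

open Pool.Agent.W774.TL Set Filter Topology
open scoped ContDiff

/-! ### periodicity and uniform continuity -/

lemma hp_per (x p t : ℝ) : hp (x + 1) p t = hp x p t ∧ hp x p (t + 1) = hp x p t := by
  constructor
  · have h1 := M2.hp_deriv der (x + 1) p t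
    have h2 : (fun s => h (x + 1) s t) = fun s => h x s t := funext fun s => (M2.h_per x s t).1
    rw [h2] at h1
    exact h1.unique (M2.hp_deriv der x p t)
  · have h1 := M2.hp_deriv der x p (t + 1)
    have h2 : (fun s => h x s (t + 1)) = fun s => h x s t := funext fun s => (M2.h_per x s t).2
    rw [h2] at h1
    exact h1.unique (M2.hp_deriv der x p t)

lemma fo_per (x p t : ℝ) : fo (x + 1) p t = fo x p t ∧ fo x p (t + 1) = fo x p t := by
  constructor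
  · have h1 := (M2.hx_deriv der (x + 1) p t).comp_add_const x 1
    have h2 : (fun s => h (s + 1) p t) = fun s => h s p t := funext fun s => (M2.h_per s p t).1
    rw [h2] at h1
    have h3 := h1.unique (M2.hx_deriv der x p t)
    linarith
  · have h1 := M2.hx_deriv der x p (t + 1)
    have h2 : (fun s => h s p (t + 1)) = fun s => h s p t := funext fun s => (M2.h_per s p t).2
    rw [h2] at h1
    have h3 := h1.unique (M2.hx_deriv der x p t)
    linarith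

lemma P_per {l P : ℝ → ℝ → ℝ → ℝ}
    (hlv : ∀ x v t : ℝ, HasDerivAt (fun s => l x s t) (P x v t) v)
    (hlp : ∀ x v t : ℝ, l (x + 1) v t = l x v t ∧ l x v (t + 1) = l x v t) (x v t : ℝ) :
    P (x + 1) v t = P x v t ∧ P x v (t + 1) = P x v t := by
  constructor
  · have h1 := hlv (x + 1) v t
    have h2 : (fun s => l (x + 1) s t) = fun s => l x s t := funext fun s => (hlp x s t).1
    rw [h2] at h1
    exact h1.unique (hlv x v t)
  · have h1 := hlv x v (t + 1)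
    have h2 : (fun s => l x s (t + 1)) = fun s => l x s t := funext fun s => (hlp x s t).2
    rw [h2] at h1
    exact h1.unique (hlv x v t)

lemma unif (g : ℝ → ℝ → ℝ → ℝ → ℝ)
    (hg : Continuous (fun q : ℝ × ℝ × ℝ × ℝ => g q.1 q.2.1 q.2.2.1 q.2.2.2))
    (hper : ∀ x v t e, g (x + 1) v t e = g x v t e ∧ g x v (t + 1) e = g x v t e) (M : ℝ)
    {η : ℝ} (hη : 0 < η) :
    ∃ δ : ℝ, 0 < δ ∧ ∀ x v t e, |v| ≤ M → |e| ≤ δ → |g x v t e - g x v t 0| ≤ η := by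
  have hK : IsCompact ((Icc (0 : ℝ) 1) ×ˢ ((Icc (-M) M) ×ˢ ((Icc (0 : ℝ) 1) ×ˢ
      (Icc (-1 : ℝ) 1)))) :=
    isCompact_Icc.prod (isCompact_Icc.prod (isCompact_Icc.prod isCompact_Icc))
  have hu := hK.uniformContinuousOn_of_continuous hg.continuousOn
  rw [Metric.uniformContinuousOn_iff] at hu
  obtain ⟨δ, hδ, hd⟩ := hu η hη
  refine ⟨min (δ / 2) 1, by positivity, ?_⟩
  intro x v t e hv he
  have hred : ∀ e, g x v t e = g (Int.fract x) v (Int.fract t) e := by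
    intro e
    have h1 : Function.Periodic (fun y => g y v t e) 1 := fun y => (hper y v t e).1
    have h2 : Function.Periodic (fun s => g (Int.fract x) v s e) 1 :=
      fun s => (hper (Int.fract x) v s e).2
    have h3 := h1.int_mul ⌊x⌋ (Int.fract x)
    have h4 := h2.int_mul ⌊t⌋ (Int.fract t)
    simp only [mul_one, Int.fract_add_floor] at h3 h4
    rw [h3, h4]
  rw [hred e, hred 0]
  have he1 : |e| ≤ 1 := he.trans (min_le_right _ _)
  have he2 : |e| < δ := lt_of_le_of_lt (he.trans (min_le_left _ _)) (by linarith)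
  have hfx : Int.fract x ∈ Icc (0 : ℝ) 1 := ⟨Int.fract_nonneg _, (Int.fract_lt_one _).le⟩
  have hft : Int.fract t ∈ Icc (0 : ℝ) 1 := ⟨Int.fract_nonneg _, (Int.fract_lt_one _).le⟩
  have h5 := hd (Int.fract x, v, Int.fract t, e) ⟨hfx, abs_le.1 hv, hft, abs_le.1 he1⟩
    (Int.fract x, v, Int.fract t, 0) ⟨hfx, abs_le.1 hv, hft, by norm_num⟩ (by
      simp only [Prod.dist_eq, dist_self, Real.dist_eq, sub_zero]
      simp only [max_lt_iff]
      exact ⟨hδ, hδ, hδ, he2⟩)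
  rw [Real.dist_eq] at h5
  exact h5.le

lemma comp4 (F P : ℝ → ℝ → ℝ → ℝ)
    (hF : Continuous (fun q : ℝ × ℝ × ℝ => F q.1 q.2.1 q.2.2))
    (hP : Continuous (fun q : ℝ × ℝ × ℝ => P q.1 q.2.1 q.2.2)) :
    Continuous (fun q : ℝ × ℝ × ℝ × ℝ => F q.1 (P q.1 q.2.1 q.2.2.1 + q.2.2.2) q.2.2.1) := by
  have h1 : Continuous (fun q : ℝ × ℝ × ℝ × ℝ => P q.1 q.2.1 q.2.2.1) := by
    have h2 : Continuous (fun q : ℝ × ℝ × ℝ × ℝ => ((q.1, q.2.1, q.2.2.1) : ℝ × ℝ × ℝ)) := by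
      fun_prop
    exact hP.comp h2
  have h3 : Continuous (fun q : ℝ × ℝ × ℝ × ℝ => q.2.2.2) := by fun_prop
  have h4 : Continuous (fun q : ℝ × ℝ × ℝ × ℝ => q.2.2.1) := by fun_prop
  have h5 : Continuous (fun q : ℝ × ℝ × ℝ × ℝ =>
      ((q.1, P q.1 q.2.1 q.2.2.1 + q.2.2.2, q.2.2.1) : ℝ × ℝ × ℝ)) :=
    continuous_fst.prodMk ((h1.add h3).prodMk h4)
  exact hF.comp h5

lemma unif2 (F P : ℝ → ℝ → ℝ → ℝ)
    (hF : Continuous (fun q : ℝ × ℝ × ℝ => F q.1 q.2.1 q.2.2))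
    (hP : Continuous (fun q : ℝ × ℝ × ℝ => P q.1 q.2.1 q.2.2))
    (hFp : ∀ x p t : ℝ, F (x + 1) p t = F x p t ∧ F x p (t + 1) = F x p t)
    (hPp : ∀ x p t : ℝ, P (x + 1) p t = P x p t ∧ P x p (t + 1) = P x p t) (M : ℝ)
    {η : ℝ} (hη : 0 < η) :
    ∃ δ : ℝ, 0 < δ ∧ ∀ x v t e, |v| ≤ M → |e| ≤ δ →
      |F x (P x v t + e) t - F x (P x v t) t| ≤ η := by
  obtain ⟨δ, hδ, hd⟩ := unif (fun x v t e => F x (P x v t + e) t) (comp4 F P hF hP)
    (fun x v t e => ⟨by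
      show F (x + 1) (P (x + 1) v t + e) t = F x (P x v t + e) t
      rw [(hPp x v t).1, (hFp x _ t).1], by
      show F x (P x v (t + 1) + e) (t + 1) = F x (P x v t + e) t
      rw [(hPp x v t).2, (hFp x _ t).2]⟩) M hη
  refine ⟨δ, hδ, fun x v t e hv he => ?_⟩
  have h1 := hd x v t e hv he
  simpa only [add_zero] using h1

/-- the admissible sizes of the perturbation -/
lemma eps_exists {l P : ℝ → ℝ → ℝ → ℝ}
    (hP : ContDiff ℝ (⊤ : ℕ∞) (fun q : ℝ × ℝ × ℝ => P q.1 q.2.1 q.2.2))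
    (hlv : ∀ x v t : ℝ, HasDerivAt (fun s => l x s t) (P x v t) v)
    (hlp : ∀ x v t : ℝ, l (x + 1) v t = l x v t ∧ l x v (t + 1) = l x v t)
    (hHP : ∀ x v t : ℝ, hp x (P x v t) t = v) :
    ∃ ε : ℕ → ℝ, (∀ m, 0 < ε m ∧ ε m ≤ 1) ∧ ∀ (m : ℕ) (x v t e : ℝ), |v| ≤ m + 1 → |e| ≤ ε m →
      |hp x (P x v t + e) t - v| ≤ 1 / (2 * ((3 : ℝ) ^ (m + 5)) ^ 2) ∧
      |fo x (P x v t + e) t - fo x (P x v t) t| ≤ 1 := by
  have hPper := P_per hlv hlp
  have hpc : Continuous (fun q : ℝ × ℝ × ℝ => hp q.1 q.2.1 q.2.2) :=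
    (Pool.Agent.W599.TL.hp_cd smooth der).continuous
  have hfc : Continuous (fun q : ℝ × ℝ × ℝ => fo q.1 q.2.1 q.2.2) :=
    (Pool.Agent.W599.TL.fo_cd smooth der).continuous
  have h1 : ∀ m : ℕ, ∃ ε : ℝ, 0 < ε ∧ ε ≤ 1 ∧ ∀ (x v t e : ℝ), |v| ≤ m + 1 → |e| ≤ ε →
      |hp x (P x v t + e) t - v| ≤ 1 / (2 * ((3 : ℝ) ^ (m + 5)) ^ 2) ∧
      |fo x (P x v t + e) t - fo x (P x v t) t| ≤ 1 := by
    intro m
    have hη : (0 : ℝ) < 1 / (2 * ((3 : ℝ) ^ (m + 5)) ^ 2) := by positivity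
    obtain ⟨δ1, hδ1, hd1⟩ := unif2 hp P hpc hP.continuous hp_per hPper (m + 1) hη
    obtain ⟨δ2, hδ2, hd2⟩ := unif2 fo P hfc hP.continuous fo_per hPper (m + 1) one_pos
    have hmin : 0 < min 1 (min δ1 δ2) := lt_min one_pos (lt_min hδ1 hδ2)
    refine ⟨min 1 (min δ1 δ2), hmin, min_le_left _ _, ?_⟩
    intro x v t e hv he
    have he1 : |e| ≤ δ1 := he.trans ((min_le_right _ _).trans (min_le_left _ _))
    have he2 : |e| ≤ δ2 := he.trans ((min_le_right _ _).trans (min_le_right _ _))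
    have f1 := hd1 x v t e hv he1
    have f2 := hd2 x v t e hv he2
    rw [hHP] at f1
    exact ⟨f1, f2⟩
  choose ε hε using h1
  exact ⟨ε, fun m => ⟨(hε m).1, (hε m).2.1⟩, fun m => (hε m).2.2⟩

end Pool.Agent.TH217.TL
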