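import Pool.Agent.TH217.TL.Tool

/-!
The gluing theorem: a smooth periodic fibrewise convex `U0` can be modified outside `‖v‖ ≤ R` so
that it agrees, up to a constant, with a given smooth periodic superlinear convex `Y0` for large
`‖v‖`.
-/

set_option autoImplicit false

namespace Pool.Agent.TH217.TL

open Set Filter Topology
open scoped ContDiff

variable {n : ℕ}

/-- periodicity on the product. -/
def PerE (F : (Fin n → ℝ) × (Fin n → ℝ) × ℝ → ℝ) : Prop :=
  ∀ (x v : Fin n → ℝ) (t : ℝ) (k : Fin n → ℤ) (l : ℤ),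
    F (fun i => x i + k i, v, t + l) = F (x, v, t)

lemma fderiv_shift {X : Type*} [NormedAddCommGroup X] [NormedSpace ℝ X]
    {F : (Fin n → ℝ) × (Fin n → ℝ) × ℝ → X} {c : (Fin n → ℝ) × (Fin n → ℝ) × ℝ}
    (h : ∀ q, F (q + c) = F q) (q : (Fin n → ℝ) × (Fin n → ℝ) × ℝ) :
    fderiv ℝ F (q + c) = fderiv ℝ F q := by
  rw [← fderiv_comp_add_right]
  congr 1
  exact funext h

lemma PerE.shift {F : (Fin n → ℝ) × (Fin n → ℝ) × ℝ → ℝ} (h : PerE F) (k : Fin n → ℤ) (l : ℤ)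
    (q : (Fin n → ℝ) × (Fin n → ℝ) × ℝ) :
    F (q + ((fun i => (k i : ℝ), 0, (l : ℝ)) : (Fin n → ℝ) × (Fin n → ℝ) × ℝ)) = F q := by
  obtain ⟨x, v, t⟩ := q
  have := h x v t k l
  simpa [Prod.mk_add_mk, Pi.add_def] using this

lemma H2_per {F : (Fin n → ℝ) × (Fin n → ℝ) × ℝ → ℝ} (h : PerE F) (x v : Fin n → ℝ) (t : ℝ)
    (k : Fin n → ℤ) (l : ℤ) (w : Fin n → ℝ) :
    H2 F (fun i => x i + k i, v, t + l) w = H2 F (x, v, t) w := by
  have h1 := fderiv_shift (fderiv_shift (h.shift k l))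
  have h2 := h1 (x, v, t)
  have h3 : ((x, v, t) + ((fun i => (k i : ℝ), 0, (l : ℝ)) : (Fin n → ℝ) × (Fin n → ℝ) × ℝ))
      = ((fun i => x i + k i, v, t + l) : (Fin n → ℝ) × (Fin n → ℝ) × ℝ) := by
    simp [Prod.mk_add_mk, Pi.add_def]
  rw [h3] at h2
  unfold H2
  rw [h2]

lemma fderiv_per {F : (Fin n → ℝ) × (Fin n → ℝ) × ℝ → ℝ} (h : PerE F) (x v : Fin n → ℝ) (t : ℝ)
    (k : Fin n → ℤ) (l : ℤ) :
    fderiv ℝ F (fun i => x i + k i, v, t + l) = fderiv ℝ F (x, v, t) := by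
  have h2 := fderiv_shift (h.shift k l) (x, v, t)
  have h3 : ((x, v, t) + ((fun i => (k i : ℝ), 0, (l : ℝ)) : (Fin n → ℝ) × (Fin n → ℝ) × ℝ))
      = ((fun i => x i + k i, v, t + l) : (Fin n → ℝ) × (Fin n → ℝ) × ℝ) := by
    simp [Prod.mk_add_mk, Pi.add_def]
  rw [h3] at h2
  exact h2

/-- a continuous periodic function is bounded over bounded fibres. -/
lemma per_bd {g : ((Fin n → ℝ) × (Fin n → ℝ) × ℝ) × (Fin n → ℝ) → ℝ} (hg : Continuous g)
    (hper : ∀ (x v : Fin n → ℝ) (t : ℝ) (k : Fin n → ℤ) (l : ℤ) (w : Fin n → ℝ),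
      g ((fun i => x i + k i, v, t + l), w) = g ((x, v, t), w)) (ρ : ℝ) :
    ∃ M : ℝ, 0 ≤ M ∧ ∀ (x v : Fin n → ℝ) (t : ℝ) (w : Fin n → ℝ), ‖v‖ ≤ ρ → ‖w‖ ≤ 1 →
      |g ((x, v, t), w)| ≤ M := by
  set K : Set (((Fin n → ℝ) × (Fin n → ℝ) × ℝ) × (Fin n → ℝ)) :=
    ((Icc (0 : Fin n → ℝ) 1) ×ˢ ((Metric.closedBall (0 : Fin n → ℝ) ρ) ×ˢ (Icc (0 : ℝ) 1))) ×ˢ
      (Metric.closedBall (0 : Fin n → ℝ) 1) with hK
  have hKc : IsCompact K := by
    rw [hK]
    exact (isCompact_Icc.prod ((isCompact_closedBall _ _).prod isCompact_Icc)).prod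
      (isCompact_closedBall _ _)
  obtain ⟨M, hM⟩ := (hKc.image hg).isBounded.exists_norm_le
  refine ⟨max M 0, le_max_right _ _, ?_⟩
  intro x v t w hv hw
  refine le_trans ?_ (le_max_left _ _)
  have h1 := hper (fun i => Int.fract (x i)) v (Int.fract t) (fun i => ⌊x i⌋) ⌊t⌋ w
  have h2 : (fun i => Int.fract (x i) + ((⌊x i⌋ : ℤ) : ℝ)) = x :=
    funext fun i => Int.fract_add_floor (x i)
  have h3 : Int.fract t + ((⌊t⌋ : ℤ) : ℝ) = t := Int.fract_add_floor t
  rw [h2, h3] at h1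
  rw [h1]
  apply hM
  refine ⟨_, ?_, rfl⟩
  refine ⟨⟨⟨?_, ?_⟩, ?_, ?_⟩, ?_⟩
  · intro i; exact Int.fract_nonneg _
  · intro i; exact (Int.fract_lt_one _).le
  · simpa using hv
  · exact ⟨Int.fract_nonneg _, (Int.fract_lt_one _).le⟩
  · simpa using hw

/-- **Gluing theorem.** -/
theorem glue_thm {k : ℕ∞} (hk : 2 ≤ k) {U0 Y0 : (Fin n → ℝ) × (Fin n → ℝ) × ℝ → ℝ}
    (hU : ContDiff ℝ k U0) (hUp : PerE U0) (hU2 : ∀ q w, w ≠ 0 → 0 < H2 U0 q w)
    (hY : ContDiff ℝ k Y0) (hYp : PerE Y0) (hY2 : ∀ q w, w ≠ 0 → 0 < H2 Y0 q w)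
    (hYs : ∀ K : ℝ, ∃ B : ℝ, ∀ q, K * ‖q.2.1‖ - B ≤ Y0 q) (R : ℝ) :
    ∃ B : (Fin n → ℝ) × (Fin n → ℝ) × ℝ → ℝ, ContDiff ℝ k B ∧ PerE B ∧
      (∀ q w, w ≠ 0 → 0 < H2 B q w) ∧ (∀ K : ℝ, ∃ C : ℝ, ∀ q, K * ‖q.2.1‖ - C ≤ B q) ∧
      (∀ q, ‖q.2.1‖ ≤ R → B q = U0 q) ∧
      ∃ R' c : ℝ, ∀ q, R' ≤ ‖q.2.1‖ → B q = Y0 q + c := by
  set a : ℝ := n * (1 + |R|) + 1 with ha
  have hn0 : (0 : ℝ) ≤ n := Nat.cast_nonneg n
  have ha0 : 0 ≤ a := by positivity
  have k2 := two_le hk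
  have stk : ContDiff ℝ k Real.smoothTransition := st_cd.of_le k_le
  have mmk : ContDiff ℝ k mm := mm_cd.of_le k_le
  have rrk : ContDiff ℝ k (rr (n := n)) := rr_cd.of_le k_le
  -- first gluing
  set G1 : (Fin n → ℝ) × (Fin n → ℝ) × ℝ → ℝ :=
    fun q => (1 - Real.smoothTransition (rr q - (a + 1))) * U0 q with hG1
  have hG1s : ContDiff ℝ k G1 :=
    (contDiff_const.sub (stk.comp (rrk.sub contDiff_const))).mul hU
  have hrrp : ∀ (x v : Fin n → ℝ) (t : ℝ) (x' : Fin n → ℝ) (t' : ℝ),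
      rr ((x', v, t') : (Fin n → ℝ) × (Fin n → ℝ) × ℝ) = rr (x, v, t) := fun _ _ _ _ _ => rfl
  have hG1p : PerE G1 := by
    intro x v t k l
    simp only [hG1]
    rw [hUp, hrrp x v t]
  obtain ⟨M, hM0, hM⟩ := per_bd (H2_cont (hG1s.of_le k2)) (fun x v t k l w => H2_per hG1p x v t k l w)
    (a + 2)
  have hM' : ∀ q w, ‖q.2.1‖ ≤ a + 2 → -(M * ‖w‖ ^ 2) ≤ H2 G1 q w := by
    rintro ⟨x, v, t⟩ w hq
    rcases eq_or_ne w 0 with rfl | hw
    · have : H2 G1 (x, v, t) (0 : Fin n → ℝ) = 0 := by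
        have := H2_homog G1 (x, v, t) 0 (0 : Fin n → ℝ)
        simpa using this
      rw [this]
      simp
    · have hw0 : 0 < ‖w‖ := norm_pos_iff.2 hw
      have h1 := hM x v t (‖w‖⁻¹ • w) hq (by
        rw [norm_smul, norm_inv, norm_norm, inv_mul_cancel₀ hw0.ne'])
      have h2 : H2 G1 (x, v, t) w = ‖w‖ ^ 2 * H2 G1 (x, v, t) (‖w‖⁻¹ • w) := by
        rw [← H2_homog, smul_smul, mul_inv_cancel₀ hw0.ne', one_smul]
      rw [h2]
      have h3 := (abs_le.1 h1).1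
      nlinarith [sq_nonneg ‖w‖]
  set κ : ℝ := (M + 1) * (1 + (a + 2)) ^ 3 with hκ
  have hκ0 : 0 < κ := by positivity
  set A : (Fin n → ℝ) × (Fin n → ℝ) × ℝ → ℝ := fun q => G1 q + κ * mm (rr q - a) with hA
  have hAs : ContDiff ℝ k A :=
    hG1s.add (contDiff_const.mul (mmk.comp (rrk.sub contDiff_const)))
  have hAp : PerE A := by
    intro x v t k l
    simp only [hA]
    rw [hG1p, hrrp x v t]
  have hA2 : ∀ q w, w ≠ 0 → 0 < H2 A q w := by
    intro q w hw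
    have hw0 : 0 < ‖w‖ := norm_pos_iff.2 hw
    rw [hA, H2_glue (rrk.of_le k2) (hG1s.of_le k2) κ a q w]
    have hd := st_deriv_nonneg (rr q - a)
    have hr := rr_H2_pos q hw
    have ht0 := Real.smoothTransition.nonneg (rr q - a)
    rcases lt_or_ge (rr q) (a + 1) with h1 | h1
    · have h2 : G1 =ᶠ[𝓝 q] U0 := by
        have h3 : ∀ᶠ q' in 𝓝 q, rr q' < a + 1 :=
          rr_cd.continuous.continuousAt.eventually_lt continuousAt_const h1
        filter_upwards [h3] with q' hq'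
        simp only [hG1]
        rw [Real.smoothTransition.zero_of_nonpos (by linarith)]
        ring
      rw [H2_congr h2]
      have := hU2 q w hw
      have h4 : 0 ≤ Real.smoothTransition (rr q - a) * H2 rr q w
          + deriv Real.smoothTransition (rr q - a) * H1 rr q w ^ 2 := by positivity
      nlinarith [mul_nonneg hκ0.le h4]
    · rw [Real.smoothTransition.one_of_one_le (show 1 ≤ rr q - a by linarith), one_mul]
      have h4 : 0 ≤ deriv Real.smoothTransition (rr q - a) * H1 rr q w ^ 2 := by positivity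
      rcases le_or_gt (rr q) (a + 2) with h5 | h5
      · have hv : ‖q.2.1‖ ≤ a + 2 := (le_rr q).trans h5
        have h6 := hM' q w hv
        have h7 := rr_H2_ge hv w
        have h8 : κ * (1 / (1 + (a + 2)) ^ 3 * ‖w‖ ^ 2) = (M + 1) * ‖w‖ ^ 2 := by
          rw [hκ]
          have : (1 + (a + 2)) ^ 3 ≠ 0 := by positivity
          field_simp
        have h9 := mul_le_mul_of_nonneg_left h7 hκ0.le
        rw [h8] at h9
        have h10 : 0 < ‖w‖ ^ 2 := by positivity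
        nlinarith [mul_nonneg hκ0.le h4]
      · have h2 : G1 =ᶠ[𝓝 q] fun _ => (0 : ℝ) := by
          have h3 : ∀ᶠ q' in 𝓝 q, a + 2 < rr q' :=
            continuousAt_const.eventually_lt rr_cd.continuous.continuousAt h5
          filter_upwards [h3] with q' hq'
          simp only [hG1]
          rw [Real.smoothTransition.one_of_one_le (by linarith)]
          ring
        have h6 : H2 G1 q w = 0 := by
          rw [H2_congr h2]
          unfold H2
          simp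
        rw [h6]
        nlinarith [mul_nonneg hκ0.le h4, mul_pos hκ0 hr]
  -- second gluing
  obtain ⟨M2, hM20, hM2⟩ := per_bd (n := n) (g := fun z => Y0 z.1 - U0 z.1)
    ((hY.continuous.comp continuous_fst).sub (hU.continuous.comp continuous_fst))
    (fun x v t k l w => by simp only; rw [hYp, hUp]) a
  set Y : (Fin n → ℝ) × (Fin n → ℝ) × ℝ → ℝ := fun q => Y0 q + (-(M2 + 1)) with hYd
  have hYs' : ContDiff ℝ k Y := hY.add contDiff_const
  have hY2' : ∀ q w, w ≠ 0 → 0 < H2 Y q w := by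
    intro q w hw
    rw [hYd, H2_const (hY.of_le k2)]
    exact hY2 q w hw
  have hD : ContDiff ℝ k (fun q => A q - Y q) := hAs.sub hYs'
  refine ⟨fun q => (Y q + 1 * mm ((A q - Y q) - 0)) + (1 - mm 1), ?_, ?_, ?_, ?_, ?_, ?_⟩
  · exact (hYs'.add (contDiff_const.mul (mmk.comp (hD.sub contDiff_const)))).add contDiff_const
  · intro x v t k l
    simp only [hYd]
    rw [hYp, hAp]
  · intro q w hw
    have hBs : ContDiff ℝ k (fun q => Y q + 1 * mm ((A q - Y q) - 0)) :=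
      hYs'.add (contDiff_const.mul (mmk.comp (hD.sub contDiff_const)))
    rw [H2_const (hBs.of_le k2) (1 - mm 1) q w]
    rw [H2_glue (hD.of_le k2) (hYs'.of_le k2) 1 0 q w, H2_add (hAs.of_le k2) (hYs'.of_le k2)]
    have hd := st_deriv_nonneg (A q - Y q - 0)
    have ht0 := Real.smoothTransition.nonneg (A q - Y q - 0)
    have ht1 := Real.smoothTransition.le_one (A q - Y q - 0)
    have h1 := hA2 q w hw
    have h2 := hY2' q w hw
    have h4 : 0 ≤ deriv Real.smoothTransition (A q - Y q - 0)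
      * H1 (fun q => A q - Y q) q w ^ 2 := by positivity
    set τ := Real.smoothTransition (A q - Y q - 0)
    rcases eq_or_lt_of_le ht0 with h5 | h5
    · rw [← h5]
      nlinarith
    · nlinarith [mul_pos h5 h1, mul_nonneg (sub_nonneg.2 ht1) h2.le]
  · intro K
    obtain ⟨C, hC⟩ := hYs K
    refine ⟨C + (M2 + 1) - (1 - mm 1), ?_⟩
    intro q
    have h1 := hC q
    have h2 := mm_nonneg (A q - Y q - 0)
    simp only [hYd] at h2 ⊢
    linarith
  · intro q hq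
    have hrq : rr q ≤ a := by
      refine (rr_le q).trans ?_
      have : ‖q.2.1‖ ≤ |R| := hq.trans (le_abs_self R)
      nlinarith
    have hAq : A q = U0 q := by
      simp only [hA, hG1]
      rw [mm_zero (by linarith), Real.smoothTransition.zero_of_nonpos (by linarith)]
      ring
    obtain ⟨x, v, t⟩ := q
    have h1 := hM2 x v t 0 ((le_rr (x, v, t)).trans hrq) (by simp)
    have h2 := (abs_le.1 h1).2
    have h3 : 1 ≤ A (x, v, t) - Y (x, v, t) - 0 := by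
      rw [hAq]
      simp only [hYd] at h2 ⊢
      linarith
    show (Y (x, v, t) + 1 * mm (A (x, v, t) - Y (x, v, t) - 0)) + (1 - mm 1) = U0 (x, v, t)
    rw [mm_one h3, hAq]
    ring
  · obtain ⟨B1, hB1⟩ := hYs (κ * n + 1)
    refine ⟨max (a + 2) (κ * n + B1 + (M2 + 1)), -(M2 + 1) + (1 - mm 1), ?_⟩
    intro q hq
    have h1 : a + 2 ≤ ‖q.2.1‖ := (le_max_left _ _).trans hq
    have h2 : κ * n + B1 + (M2 + 1) ≤ ‖q.2.1‖ := (le_max_right _ _).trans hq
    have h3 : a + 2 ≤ rr q := h1.trans (le_rr q)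
    have h4 : A q ≤ κ * (n * (1 + ‖q.2.1‖)) := by
      simp only [hA, hG1]
      rw [Real.smoothTransition.one_of_one_le (by linarith)]
      have h5 := mm_le (show 0 ≤ rr q - a by linarith)
      have h6 := rr_le q
      have h7 : mm (rr q - a) ≤ n * (1 + ‖q.2.1‖) := by linarith
      have := mul_le_mul_of_nonneg_left h7 hκ0.le
      linarith
    have h8 := hB1 q
    have h9 : A q - Y q - 0 ≤ 0 := by
      simp only [hYd]
      nlinarith
    show (Y q + 1 * mm (A q - Y q - 0)) + (1 - mm 1) = _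
    rw [mm_zero h9]
    simp only [hYd]
    ring

end Pool.Agent.TH217.TL
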