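import Pool.Agent.TH217.TL.Compl
import Pool.Agent.TH217.TL.Glue
import Pool.Agent.W774.TL.Final

/-!
The escaping orbits of a Lagrangian which agrees, up to a constant, with the accelerator `Lag` for
large velocities.
-/

set_option autoImplicit false

namespace Pool.Agent.TH217.TL

open Pool.Agent.W774.TL Set Filter Topology
open scoped ContDiff

/-! ### the core statement with a free starting level -/

theorem core2 (G : ℝ) (hG : 0 ≤ G) : ∃ k0 : ℕ, ∀ k1 : ℕ, k0 ≤ k1 → ∀ x p g : ℝ → ℝ,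
    (∀ t, HasDerivAt x (hp (x t) (p t) t) t ∧ HasDerivAt p (fo (x t) (p t) t + g t) t ∧
      |g t| ≤ G) →
    ∀ N : ℤ, |x (k1 + 1 / 2) - k1 * (k1 + 1 / 2) - N| ≤ 1 / 1000 →
    |p (k1 + 1 / 2) - 3 ^ k1| ≤ 3 ^ k1 / 1000 →
    ∀ k : ℕ, k1 ≤ k → ∀ t ∈ Icc ((k : ℝ) + 1 / 2) (k + 3 / 2), (k : ℝ) - 1 ≤ hp (x t) (p t) t := by
  obtain ⟨K0, h1⟩ := Pool.Agent.W774.TL.two
  obtain ⟨A0, h2⟩ := Pool.Agent.W774.TL.step G hG
  obtain ⟨m, hm⟩ := pow_unbounded_of_one_lt A0 (by norm_num : (1 : ℝ) < 3)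
  refine ⟨max K0 m, ?_⟩
  intro k1 hk1 x p g hs N hN1 hN2
  have key : ∀ k : ℕ, k1 ≤ k → ∃ N : ℤ, Pool.Agent.W764.TL.Box x p k N := by
    intro k hk
    induction k, hk using Nat.le_induction with
    | base => exact ⟨N, hN1, hN2⟩
    | succ k hk ih =>
      obtain ⟨N', hN'⟩ := ih
      exact ⟨_, (Pool.Agent.W764.TL.step h1 h2 hs ((le_max_left _ _).trans (hk1.trans hk))
        (hm.le.trans (pow_le_pow_right₀ (by norm_num)
          ((le_max_right _ _).trans (hk1.trans hk)))) hN').2⟩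
  intro k hk t ht
  obtain ⟨N', hN'⟩ := key k hk
  exact (Pool.Agent.W764.TL.step h1 h2 hs ((le_max_left _ _).trans (hk1.trans hk))
    (hm.le.trans (pow_le_pow_right₀ (by norm_num)
      ((le_max_right _ _).trans (hk1.trans hk)))) hN').1 t ht

/-! ### gluing of solutions -/

lemma glue_sol {X : Type*} [NormedAddCommGroup X] [NormedSpace ℝ X] (Φ : ℝ → X → X)
    {a b : ℝ → X} {T : ℝ} {I : Set ℝ} (hab : a T = b T)
    (ha : ∀ t ∈ I, t ≤ T → HasDerivAt a (Φ t (a t)) t)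
    (hb : ∀ t ∈ I, T ≤ t → HasDerivAt b (Φ t (b t)) t) :
    ∀ t ∈ I, HasDerivAt (fun t => if t ≤ T then a t else b t)
      (Φ t (if t ≤ T then a t else b t)) t := by
  intro t ht
  rcases lt_trichotomy t T with h | h | h
  · rw [if_pos h.le]
    refine (ha t ht h.le).congr_of_eventuallyEq ?_
    filter_upwards [Iio_mem_nhds h] with s hs
    rw [if_pos (le_of_lt hs)]
  · subst h
    rw [if_pos le_rfl]
    have h1 : HasDerivWithinAt (fun s => if s ≤ t then a s else b s) (Φ t (a t)) (Iic t) t := by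
      refine (ha t ht le_rfl).hasDerivWithinAt.congr ?_ ?_
      · intro s hs
        exact if_pos hs
      · exact if_pos le_rfl
    have h2 : HasDerivWithinAt (fun s => if s ≤ t then a s else b s) (Φ t (a t)) (Ici t) t := by
      have h3 := (hb t ht le_rfl).hasDerivWithinAt (s := Ici t)
      rw [← hab] at h3
      refine h3.congr ?_ ?_
      · intro s hs
        rcases eq_or_lt_of_le (show t ≤ s from hs) with h4 | h4
        · subst h4
          rw [if_pos le_rfl, hab]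
        · exact if_neg (not_le.2 h4)
      · rw [if_pos le_rfl, hab]
    have h5 := h1.union h2
    rw [Iic_union_Ici] at h5
    exact hasDerivWithinAt_univ.1 h5
  · rw [if_neg (not_le.2 h)]
    refine (hb t ht h.le).congr_of_eventuallyEq ?_
    filter_upwards [Ioi_mem_nhds h] with s hs
    rw [if_neg (not_le.2 hs)]

/-! ### escape -/

section

variable {n : ℕ} {L : (Fin n → ℝ) → (Fin n → ℝ) → ℝ → ℝ} {l P : ℝ → ℝ → ℝ → ℝ}

/-- `L` agrees with the accelerator for `‖v‖ > R`, to first order. -/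
def Far (L : (Fin n → ℝ) → (Fin n → ℝ) → ℝ → ℝ) (P : ℝ → ℝ → ℝ → ℝ) (R : ℝ) : Prop :=
  ∀ (x v : Fin n → ℝ) (t : ℝ), R < ‖v‖ → ∀ i, Lv L i x v t = P (x i) (v i) t ∧
    Lx L i x v t = fo (x i) (P (x i) (v i) t) t

/-- the field of the Hamiltonian system of the accelerator with a potential -/
noncomputable def HF (f : (Fin n → ℝ) → ℝ → ℝ) (t : ℝ) (z : (Fin n → ℝ) × (Fin n → ℝ)) :
    (Fin n → ℝ) × (Fin n → ℝ) :=
  (fun i => hp (z.1 i) (z.2 i) t, fun i => fo (z.1 i) (z.2 i) t + Df f i z.1 t)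

lemma far_step (h : Sm L)
    (hHP : ∀ x v t : ℝ, hp x (P x v t) t = v) {R : ℝ} (hfar : Far L P R)
    {f : (Fin n → ℝ) → ℝ → ℝ} (hf : C2 f) (hfp : PerF f) {G : ℝ}
    (hG : ∀ (i : Fin n) (x : Fin n → ℝ) (t : ℝ), |Df f i x t| ≤ G) {k1 : ℕ}
    (hcore : ∀ x p g : ℝ → ℝ,
      (∀ t, HasDerivAt x (hp (x t) (p t) t) t ∧ HasDerivAt p (fo (x t) (p t) t + g t) t ∧
        |g t| ≤ G) →
      ∀ N : ℤ, |x (k1 + 1 / 2) - k1 * (k1 + 1 / 2) - N| ≤ 1 / 1000 →
      |p (k1 + 1 / 2) - 3 ^ k1| ≤ 3 ^ k1 / 1000 →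
      ∀ k : ℕ, k1 ≤ k → ∀ t ∈ Icc ((k : ℝ) + 1 / 2) (k + 3 / 2),
        (k : ℝ) - 1 ≤ hp (x t) (p t) t)
    {γ : ℝ → (Fin n → ℝ)} (hγ : IsEL (fun x v t => L x v t + f x t) γ)
    (hU : ∀ i, |γ ((k1 : ℝ) + 1 / 2) i - k1 * (k1 + 1 / 2)| < 1 / 1000 ∧
      |P (γ ((k1 : ℝ) + 1 / 2) i) (deriv γ ((k1 : ℝ) + 1 / 2) i) ((k1 : ℝ) + 1 / 2) - 3 ^ k1|
        < 3 ^ k1 / 1000)
    {T : ℝ} (hT : (k1 : ℝ) + 1 / 2 ≤ T)
    (hV : ∀ t, (k1 : ℝ) + 1 / 2 ≤ t → t ≤ T → R < ‖deriv γ t‖) (i : Fin n) :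
    T - 5 / 2 ≤ deriv γ T i := by
  rw [el_iff2 h hf] at hγ
  obtain ⟨hd, he⟩ := hγ
  set t0 : ℝ := (k1 : ℝ) + 1 / 2 with ht0
  set Q : ℝ → (Fin n → ℝ) := fun s i => Lv L i (γ s) (deriv γ s) s with hQ
  -- the orbit as a solution of the Hamiltonian system on `[t0, T]`
  have hsol : ∀ t, t0 ≤ t → t ≤ T → HasDerivAt (fun t => (γ t, Q t)) (HF f t (γ t, Q t)) t := by
    intro t h1 h2
    have hV1 := hV t h1 h2
    refine HasDerivAt.prodMk ?_ ?_
    · have h3 : (fun i => hp (γ t i) (Q t i) t) = deriv γ t := by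
        funext j
        simp only [hQ]
        rw [(hfar (γ t) (deriv γ t) t hV1 j).1, hHP]
      show HasDerivAt γ (fun i => hp (γ t i) (Q t i) t) t
      rw [h3]
      exact (hd t).hasDerivAt
    · show HasDerivAt Q (fun i => fo (γ t i) (Q t i) t + Df f i (γ t) t) t
      rw [hasDerivAt_pi]
      intro j
      have h3 := he t j
      have h4 := hfar (γ t) (deriv γ t) t hV1 j
      rw [h4.2] at h3
      have h5 : Q t j = P (γ t j) (deriv γ t j) t := h4.1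
      rw [h5]
      exact h3
  obtain ⟨X1, P1, hX1, hP1, hs1⟩ := Pool.Agent.W774.TL.compl n f hf hfp t0 (γ t0) (Q t0)
  obtain ⟨X2, P2, hX2, hP2, hs2⟩ := Pool.Agent.W774.TL.compl n f hf hfp T (γ T) (Q T)
  have ha : ∀ t, HasDerivAt (fun t => (X1 t, P1 t)) (HF f t (X1 t, P1 t)) t :=
    fun t => (hs1 t).1.prodMk (hs1 t).2
  have hb : ∀ t, HasDerivAt (fun t => (X2 t, P2 t)) (HF f t (X2 t, P2 t)) t :=
    fun t => (hs2 t).1.prodMk (hs2 t).2
  have g1 := glue_sol (HF f) (a := fun t => (X1 t, P1 t)) (b := fun t => (γ t, Q t)) (T := t0)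
    (I := Iic T) (by simp only [hX1, hP1]) (fun t _ _ => ha t) (fun t h1 h2 => hsol t h2 h1)
  set z1 : ℝ → (Fin n → ℝ) × (Fin n → ℝ) :=
    fun t => if t ≤ t0 then (X1 t, P1 t) else (γ t, Q t) with hz1
  have hz1T : z1 T = (γ T, Q T) := by
    simp only [hz1]
    rcases eq_or_lt_of_le hT with h1 | h1
    · rw [← h1, if_pos le_rfl, hX1, hP1]
    · rw [if_neg (not_le.2 h1)]
  have hz10 : z1 t0 = (γ t0, Q t0) := by
    simp only [hz1]
    rw [if_pos le_rfl, hX1, hP1]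
  have g2 := glue_sol (HF f) (a := z1) (b := fun t => (X2 t, P2 t)) (T := T)
    (I := univ) (by rw [hz1T, hX2, hP2]) (fun t _ h1 => g1 t h1) (fun t _ _ => hb t)
  set z : ℝ → (Fin n → ℝ) × (Fin n → ℝ) :=
    fun t => if t ≤ T then z1 t else (X2 t, P2 t) with hz
  have hzT : z T = (γ T, Q T) := by
    simp only [hz]
    rw [if_pos le_rfl, hz1T]
  have hz0 : z t0 = (γ t0, Q t0) := by
    simp only [hz]
    rw [if_pos hT, hz10]
  have g3 : ∀ t, HasDerivAt z (HF f t (z t)) t := fun t => g2 t (mem_univ t)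
  have hc := hcore (fun t => (z t).1 i) (fun t => (z t).2 i) (fun t => Df f i (z t).1 t)
    (fun t => ⟨(hasDerivAt_pi.1 (g3 t).fst) i, (hasDerivAt_pi.1 (g3 t).snd) i, hG i _ t⟩) 0
    (by
      have := (hU i).1.le
      rw [hz0]
      simpa using this)
    (by
      have h3 := (hU i).2.le
      have h4 : Q t0 i = P (γ t0 i) (deriv γ t0 i) t0 :=
        (hfar (γ t0) (deriv γ t0) t0 (hV t0 le_rfl hT) i).1
      rw [hz0]
      show |Q t0 i - 3 ^ k1| ≤ _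
      rw [h4]
      exact h3)
  have h0 : (0 : ℝ) ≤ k1 := Nat.cast_nonneg _
  have h1 : (⌊T - 1 / 2⌋₊ : ℝ) ≤ T - 1 / 2 := Nat.floor_le (by linarith)
  have h2 : T - 1 / 2 < (⌊T - 1 / 2⌋₊ : ℝ) + 1 := Nat.lt_floor_add_one _
  have h3 : k1 ≤ ⌊T - 1 / 2⌋₊ := Nat.le_floor (by linarith)
  have h4 := hc ⌊T - 1 / 2⌋₊ h3 T ⟨by linarith, by linarith⟩
  simp only [hzT] at h4
  have h5 : Q T i = P (γ T i) (deriv γ T i) T :=
    (hfar (γ T) (deriv γ T) T (hV T hT le_rfl) i).1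
  rw [h5, hHP] at h4
  linarith

theorem escape2 (hn : 1 ≤ n) (h : Sm L) (hpos : Pos L) (hsup : Sup L)
    (hP : ContDiff ℝ (⊤ : ℕ∞) (fun q : ℝ × ℝ × ℝ => P q.1 q.2.1 q.2.2))
    (hHP : ∀ x v t : ℝ, hp x (P x v t) t = v) (hPH : ∀ x p t : ℝ, P x (hp x p t) t = p)
    {R : ℝ} (hfar : Far L P R) (G : ℝ) :
    ∃ (t0 : ℝ) (U : Set ((Fin n → ℝ) × (Fin n → ℝ))), IsOpen U ∧ U.Nonempty ∧
      ∀ f : (Fin n → ℝ) → ℝ → ℝ, C2 f → PerF f →
      (∀ (i : Fin n) (x : Fin n → ℝ) (t : ℝ), |Df f i x t| ≤ G) →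
      ∀ γ : ℝ → (Fin n → ℝ), IsEL (fun x v t => L x v t + f x t) γ →
        (γ t0, deriv γ t0) ∈ U → ∀ (i : Fin n) (t : ℝ), t0 ≤ t → t - 5 / 2 ≤ deriv γ t i := by
  obtain ⟨k0, hk0⟩ := core2 |G| (abs_nonneg G)
  set k1 : ℕ := max k0 (⌈|R|⌉₊ + 4) with hk1
  have hk1R : R + 4 ≤ (k1 : ℝ) := by
    have h1 : ((⌈|R|⌉₊ + 4 : ℕ) : ℝ) ≤ (k1 : ℝ) := by exact_mod_cast le_max_right _ _
    have h2 : |R| ≤ (⌈|R|⌉₊ : ℝ) := Nat.le_ceil _
    push_cast at h1
    linarith [le_abs_self R]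
  have hcore := hk0 k1 (le_max_left _ _)
  refine ⟨(k1 : ℝ) + 1 / 2, {q | ∀ i, |q.1 i - k1 * (k1 + 1 / 2)| < 1 / 1000 ∧
    |P (q.1 i) (q.2 i) ((k1 : ℝ) + 1 / 2) - 3 ^ k1| < 3 ^ k1 / 1000}, ?_, ?_, ?_⟩
  · have hset : {q : (Fin n → ℝ) × (Fin n → ℝ) | ∀ i, |q.1 i - k1 * (k1 + 1 / 2)| < 1 / 1000 ∧
        |P (q.1 i) (q.2 i) ((k1 : ℝ) + 1 / 2) - 3 ^ k1| < 3 ^ k1 / 1000} =
        ⋂ i, {q : (Fin n → ℝ) × (Fin n → ℝ) | |q.1 i - k1 * (k1 + 1 / 2)| < 1 / 1000 ∧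
        |P (q.1 i) (q.2 i) ((k1 : ℝ) + 1 / 2) - 3 ^ k1| < 3 ^ k1 / 1000} := by
      ext q; simp
    rw [hset]
    apply isOpen_iInter_of_finite
    intro i
    have hc : Continuous (fun q : (Fin n → ℝ) × (Fin n → ℝ) =>
        P (q.1 i) (q.2 i) ((k1 : ℝ) + 1 / 2)) := by
      have h1 : Continuous (fun q : (Fin n → ℝ) × (Fin n → ℝ) =>
        ((q.1 i, q.2 i, (k1 : ℝ) + 1 / 2) : ℝ × ℝ × ℝ)) := by fun_prop
      exact hP.continuous.comp h1
    have hA : IsOpen {q : (Fin n → ℝ) × (Fin n → ℝ) |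
        |q.1 i - (k1 : ℝ) * (k1 + 1 / 2)| < 1 / 1000} :=
      isOpen_lt (by fun_prop) continuous_const
    have hB : IsOpen {q : (Fin n → ℝ) × (Fin n → ℝ) |
        |P (q.1 i) (q.2 i) ((k1 : ℝ) + 1 / 2) - 3 ^ k1| < 3 ^ k1 / 1000} :=
      isOpen_lt (hc.sub continuous_const).abs continuous_const
    exact hA.inter hB
  · refine ⟨(fun _ => k1 * (k1 + 1 / 2), fun _ => hp (k1 * (k1 + 1 / 2)) (3 ^ k1)
      ((k1 : ℝ) + 1 / 2)), ?_⟩
    intro i
    simp only [hPH, sub_self, abs_zero]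
    constructor
    · norm_num
    · positivity
  · intro f hf hfp hG0 γ hγ hU
    have hG : ∀ (i : Fin n) (x : Fin n → ℝ) (t : ℝ), |Df f i x t| ≤ |G| :=
      fun i x t => (hG0 i x t).trans (le_abs_self G)
    have hVc := vel_cont h hpos hsup hf hγ
    set t0 : ℝ := (k1 : ℝ) + 1 / 2 with ht0
    -- the velocity at time `t0`
    have hV0 : ∀ i, (k1 : ℝ) - 1 ≤ deriv γ t0 i := by
      intro i
      obtain ⟨X, Q, hX, hQ, hs⟩ := Pool.Agent.W774.TL.compl n f hf hfp t0 (γ t0)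
        (fun i => P (γ t0 i) (deriv γ t0 i) t0)
      have hc := hcore (fun t => X t i) (fun t => Q t i) (fun t => Df f i (X t) t)
        (fun t => ⟨(hasDerivAt_pi.1 (hs t).1) i, (hasDerivAt_pi.1 (hs t).2) i, hG i _ t⟩) 0
        (by
          have := (hU i).1.le
          rw [hX]
          simpa using this)
        (by
          have := (hU i).2.le
          rw [hQ]
          exact this)
        k1 le_rfl t0 ⟨le_rfl, by rw [ht0]; linarith⟩
      simp only [hX, hQ, hHP] at hc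
      exact hc
    have hstep : ∀ T, t0 ≤ T → (∀ t, t0 ≤ t → t ≤ T → R < ‖deriv γ t‖) →
        ∀ i, T - 5 / 2 ≤ deriv γ T i := fun T hT hV i =>
      far_step h hHP hfar hf hfp hG hcore hγ hU hT hV i
    have hge : ∀ (v : Fin n → ℝ) (i : Fin n), v i ≤ ‖v‖ := fun v i =>
      (le_abs_self _).trans (norm_le_pi_norm v i)
    set i0 : Fin n := ⟨0, hn⟩ with hi0
    have hgood : ∀ t, t0 ≤ t → R < ‖deriv γ t‖ := by
      by_contra hcon
      push Not at hcon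
      obtain ⟨s, hs1, hs2⟩ := hcon
      set Bad : Set ℝ := {t | t0 ≤ t ∧ ‖deriv γ t‖ ≤ R} with hBad
      have hcl : IsClosed Bad := by
        have e1 : IsClosed {t : ℝ | t0 ≤ t} := isClosed_Ici
        have e2 : IsClosed {t : ℝ | ‖deriv γ t‖ ≤ R} := isClosed_le hVc.norm continuous_const
        exact e1.inter e2
      have hbb : BddBelow Bad := ⟨t0, fun t ht => ht.1⟩
      have hmem : sInf Bad ∈ Bad := hcl.csInf_mem ⟨s, hs1, hs2⟩ hbb
      set T := sInf Bad with hTd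
      have hTlt : t0 < T := by
        rcases eq_or_lt_of_le hmem.1 with h1 | h1
        · exfalso
          have h2 := hmem.2
          rw [← h1] at h2
          linarith [hV0 i0, hge (deriv γ t0) i0]
        · exact h1
      have hlow : ∀ t, t0 ≤ t → t < T → R < ‖deriv γ t‖ := by
        intro t h1 h2
        by_contra h3
        push Not at h3
        have h4 : T ≤ t := csInf_le hbb ⟨h1, h3⟩
        linarith
      have hcl2 : IsClosed {t : ℝ | t - 5 / 2 ≤ deriv γ t i0} :=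
        isClosed_le (by fun_prop) ((continuous_apply i0).comp hVc)
      have hsub : Ico t0 T ⊆ {t : ℝ | t - 5 / 2 ≤ deriv γ t i0} := by
        intro t ht
        exact hstep t ht.1 (fun s h1 h2 => hlow s h1 (lt_of_le_of_lt h2 ht.2)) i0
      have hTm : T ∈ closure (Ico t0 T) := by
        rw [closure_Ico hTlt.ne]
        exact ⟨hTlt.le, le_rfl⟩
      have h5 : T - 5 / 2 ≤ deriv γ T i0 := (hcl2.closure_subset_iff.2 hsub) hTm
      have h6 := hmem.2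
      have h7 := hge (deriv γ T) i0
      have h8 : t0 = (k1 : ℝ) + 1 / 2 := ht0
      linarith
    intro i t ht
    exact hstep t ht (fun s h1 _ => hgood s h1) i

end

end Pool.Agent.TH217.TL
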