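import Pool.Agent.TH217.TL.Eps

/-!
Escaping orbits for all small perturbations in the fine topology (and all potentials).
-/

set_option autoImplicit false

namespace Pool.Agent.TH217.TL

open Pool.Agent.W774.TL Set Filter Topology
open scoped ContDiff

/-! ### gluing of curves -/

lemma glue2 {a b a' b' : ℝ → ℝ} {T : ℝ} (hab : a T = b T) (hab' : a' T = b' T)
    (ha : ∀ t, t ≤ T → HasDerivAt a (a' t) t) (hb : ∀ t, T ≤ t → HasDerivAt b (b' t) t) (t : ℝ) :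
    HasDerivAt (fun t => if t ≤ T then a t else b t) (if t ≤ T then a' t else b' t) t := by
  rcases lt_trichotomy t T with h | h | h
  · rw [if_pos h.le]
    refine (ha t h.le).congr_of_eventuallyEq ?_
    filter_upwards [Iio_mem_nhds h] with s hs
    rw [if_pos (le_of_lt hs)]
  · subst h
    rw [if_pos le_rfl]
    have h1 : HasDerivWithinAt (fun s => if s ≤ t then a s else b s) (a' t) (Iic t) t := by
      refine (ha t le_rfl).hasDerivWithinAt.congr ?_ ?_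
      · intro s hs
        exact if_pos hs
      · exact if_pos le_rfl
    have h2 : HasDerivWithinAt (fun s => if s ≤ t then a s else b s) (a' t) (Ici t) t := by
      have h3 := (hb t le_rfl).hasDerivWithinAt (s := Ici t)
      rw [← hab'] at h3
      refine h3.congr ?_ ?_
      · intro s hs
        rcases eq_or_lt_of_le (show t ≤ s from hs) with h4 | h4
        · subst h4
          rw [if_pos le_rfl, hab]
        · exact if_neg (not_le.2 h4)
      · rw [if_pos le_rfl, hab]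
    have h5 := h1.union h2
    rw [Iic_union_Ici] at h5
    exact hasDerivWithinAt_univ.1 h5
  · rw [if_neg (not_le.2 h)]
    refine (hb t h.le).congr_of_eventuallyEq ?_
    filter_upwards [Ioi_mem_nhds h] with s hs
    rw [if_neg (not_le.2 hs)]

/-! ### escape -/

section

variable {n : ℕ} {L L' : (Fin n → ℝ) → (Fin n → ℝ) → ℝ → ℝ} {l P : ℝ → ℝ → ℝ → ℝ}

/-- `L'` is close to `L`: the derivatives in `v` are `ε`-close, those in `x` differ by at most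
`G`. -/
def Close (L L' : (Fin n → ℝ) → (Fin n → ℝ) → ℝ → ℝ) (ε : ℕ → ℝ) (G : ℝ) : Prop :=
  ∀ (x v : Fin n → ℝ) (t : ℝ) (i : Fin n),
    |Lv L' i x v t - Lv L i x v t| ≤ ε ⌊‖v‖⌋₊ ∧ |Lx L' i x v t - Lx L i x v t| ≤ G

lemma far_step3 {ε : ℕ → ℝ} (hε1 : ∀ m, 0 < ε m ∧ ε m ≤ 1)
    (hε : ∀ (m : ℕ) (x v t e : ℝ), |v| ≤ m + 1 → |e| ≤ ε m →
      |hp x (P x v t + e) t - v| ≤ 1 / (2 * ((3 : ℝ) ^ (m + 5)) ^ 2) ∧
      |fo x (P x v t + e) t - fo x (P x v t) t| ≤ 1)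
    {R : ℝ} (hfar : Far L P R) {G : ℝ} (hcl : Close L L' ε G) {k1 : ℕ} (hk8 : 8 ≤ k1)
    (hk1R : R + 4 ≤ (k1 : ℝ))
    (hcore : ∀ K : ℕ, ∀ x p x' p' : ℝ → ℝ,
      (∀ k : ℕ, k1 ≤ k → k ≤ K → Approx (|G| + 1) x p x' p' k) →
      ∀ N : ℤ, |x (k1 + 1 / 2) - k1 * (k1 + 1 / 2) - N| ≤ 1 / 1000 →
      |p (k1 + 1 / 2) - 3 ^ k1| ≤ 3 ^ k1 / 1000 →
      ∀ k : ℕ, k1 ≤ k → k ≤ K → ∀ t ∈ Icc ((k : ℝ) + 1 / 2) (k + 3 / 2), (k : ℝ) - 1 ≤ x' t)
    {γ : ℝ → (Fin n → ℝ)} (hγ : IsEL L' γ)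
    (hU : ∀ i, |γ ((k1 : ℝ) + 1 / 2) i - k1 * (k1 + 1 / 2)| < 1 / 1000 ∧
      |P (γ ((k1 : ℝ) + 1 / 2) i) (deriv γ ((k1 : ℝ) + 1 / 2) i) ((k1 : ℝ) + 1 / 2) - 3 ^ k1|
        < 3 ^ k1 / 2000)
    {T : ℝ} (hT : (k1 : ℝ) + 1 / 2 ≤ T)
    (hV : ∀ t, (k1 : ℝ) + 1 / 2 ≤ t → t ≤ T → t - 4 < ‖deriv γ t‖) (i : Fin n) :
    T - 5 / 2 ≤ deriv γ T i := by
  obtain ⟨hd, he⟩ := hγ
  set Q : ℝ → ℝ := fun s => Lv L' i (γ s) (deriv γ s) s with hQ
  set Q' : ℝ → ℝ := fun s => Lx L' i (γ s) (deriv γ s) s with hQ'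
  have hk10 : (8 : ℝ) ≤ k1 := by exact_mod_cast hk8
  -- error bounds along the orbit
  have herr : ∀ t, (k1 : ℝ) + 1 / 2 ≤ t → t ≤ T → ∀ k : ℕ, k1 ≤ k → (k : ℝ) + 1 / 2 ≤ t →
      |deriv γ t i - hp (γ t i) (Q t) t| ≤ 1 / (2 * ((3 : ℝ) ^ k) ^ 2) ∧
      |Q' t - fo (γ t i) (Q t) t| ≤ |G| + 1 := by
    intro t h1 h2 k hk hkt
    have hVt := hV t h1 h2
    have hRt : R < ‖deriv γ t‖ := by linarith
    obtain ⟨f1, f2⟩ := hfar (γ t) (deriv γ t) t hRt i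
    obtain ⟨c1, c2⟩ := hcl (γ t) (deriv γ t) t i
    set m : ℕ := ⌊‖deriv γ t‖⌋₊ with hm
    have hvm : |deriv γ t i| ≤ m + 1 :=
      (norm_le_pi_norm (deriv γ t) i).trans (Nat.lt_floor_add_one _).le
    set e : ℝ := Q t - P (γ t i) (deriv γ t i) t with hedef
    have hee : |e| ≤ ε m := by
      rw [f1] at c1
      exact c1
    obtain ⟨g1, g2⟩ := hε m (γ t i) (deriv γ t i) t e hvm hee
    have hPe : P (γ t i) (deriv γ t i) t + e = Q t := by rw [hedef]; ring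
    rw [hPe] at g1 g2
    have hkm : k ≤ m + 5 := by
      have h3 : k - 4 ≤ m := by
        apply Nat.le_floor
        have : ((k - 4 : ℕ) : ℝ) = (k : ℝ) - 4 := by
          rw [Nat.cast_sub (by omega)]
          norm_num
        rw [this]
        linarith
      omega
    constructor
    · rw [abs_sub_comm]
      refine g1.trans ?_
      apply one_div_le_one_div_of_le (by positivity)
      have h4 : (3 : ℝ) ^ k ≤ 3 ^ (m + 5) := pow_le_pow_right₀ (by norm_num) hkm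
      have h5 : ((3 : ℝ) ^ k) ^ 2 ≤ (3 ^ (m + 5)) ^ 2 := pow_le_pow_left₀ (by positivity) h4 2
      linarith
    · have e1 : Q' t - fo (γ t i) (Q t) t = (Q' t - Lx L i (γ t) (deriv γ t) t) -
          (fo (γ t i) (Q t) t - fo (γ t i) (P (γ t i) (deriv γ t i) t) t) := by
        rw [f2]; ring
      rw [e1]
      refine (abs_sub _ _).trans ?_
      exact add_le_add (c2.trans (le_abs_self G)) g2
  -- the extension after `T`
  obtain ⟨X2, P2, hX2, hP2, hs2⟩ := ext_sol (deriv γ T i - hp (γ T i) (Q T) T)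
    (Q' T - fo (γ T i) (Q T) T) T (γ T i) (Q T)
  set α : ℝ := deriv γ T i - hp (γ T i) (Q T) T with hα
  set β : ℝ := Q' T - fo (γ T i) (Q T) T with hβ
  have hx := glue2 (a := fun t => γ t i) (b := X2) (a' := fun t => deriv γ t i)
    (b' := fun t => hp (X2 t) (P2 t) t + α) (T := T) hX2.symm
    (by simp only [hX2, hP2, hα]; ring)
    (fun t _ => (hasDerivAt_pi.1 (hd t).hasDerivAt) i) (fun t _ => (hs2 t).1)
  have hp' := glue2 (a := Q) (b := P2) (a' := Q')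
    (b' := fun t => fo (X2 t) (P2 t) t + β) (T := T) hP2.symm
    (by simp only [hX2, hP2, hβ]; ring)
    (fun t _ => he t i) (fun t _ => (hs2 t).2)
  set K : ℕ := ⌊T - 1 / 2⌋₊ with hK
  have hK1 : (K : ℝ) ≤ T - 1 / 2 := Nat.floor_le (by linarith)
  have hK2 : T - 1 / 2 < (K : ℝ) + 1 := Nat.lt_floor_add_one _
  have hK3 : k1 ≤ K := Nat.le_floor (by linarith)
  have hc := hcore K _ _ _ _ (fun k hk hkK t ht => ⟨hx t, hp' t, by
    have hkr : (k1 : ℝ) ≤ k := by exact_mod_cast hk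
    by_cases htT : t ≤ T
    · simp only [if_pos htT]
      exact herr t (by linarith [ht.1]) htT k hk ht.1
    · simp only [if_neg htT]
      have hTt : T < t := not_le.1 htT
      have hkK' : K = k := by
        have h1 : (K : ℝ) < k + 1 := by linarith [ht.2]
        have h2 : K < k + 1 := by exact_mod_cast h1
        omega
      have h3 := herr T hT le_rfl k hk (by rw [← hkK']; linarith)
      simpa using h3⟩) 0
    (by
      have h1 := (hU i).1.le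
      simp only [if_pos hT]
      simpa using h1)
    (by
      simp only [if_pos hT]
      have hVt := hV _ le_rfl hT
      have hRt : R < ‖deriv γ ((k1 : ℝ) + 1 / 2)‖ := by linarith
      obtain ⟨f1, -⟩ := hfar (γ ((k1 : ℝ) + 1 / 2)) (deriv γ ((k1 : ℝ) + 1 / 2))
        ((k1 : ℝ) + 1 / 2) hRt i
      obtain ⟨c1, -⟩ := hcl (γ ((k1 : ℝ) + 1 / 2)) (deriv γ ((k1 : ℝ) + 1 / 2))
        ((k1 : ℝ) + 1 / 2) i
      rw [f1] at c1
      have c2 := c1.trans (hε1 _).2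
      have h3 := (hU i).2.le
      have h4 : (3 : ℝ) ^ 8 ≤ 3 ^ k1 := pow_le_pow_right₀ (by norm_num) hk8
      have h5 : Q ((k1 : ℝ) + 1 / 2) - 3 ^ k1 = (Q ((k1 : ℝ) + 1 / 2) -
          P (γ ((k1 : ℝ) + 1 / 2) i) (deriv γ ((k1 : ℝ) + 1 / 2) i) ((k1 : ℝ) + 1 / 2)) +
          (P (γ ((k1 : ℝ) + 1 / 2) i) (deriv γ ((k1 : ℝ) + 1 / 2) i) ((k1 : ℝ) + 1 / 2)
            - 3 ^ k1) := by ring
      rw [h5]
      refine (abs_add_le _ _).trans ((add_le_add c2 h3).trans ?_)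
      norm_num at h4
      linarith)
    K hK3 le_rfl T ⟨by linarith, by linarith⟩
  simp only [if_pos le_rfl] at hc
  linarith

theorem escape3 (hn : 1 ≤ n)
    (hP : ContDiff ℝ (⊤ : ℕ∞) (fun q : ℝ × ℝ × ℝ => P q.1 q.2.1 q.2.2))
    (hHP : ∀ x v t : ℝ, hp x (P x v t) t = v) (hPH : ∀ x p t : ℝ, P x (hp x p t) t = p)
    {ε : ℕ → ℝ} (hε1 : ∀ m, 0 < ε m ∧ ε m ≤ 1)
    (hε : ∀ (m : ℕ) (x v t e : ℝ), |v| ≤ m + 1 → |e| ≤ ε m →
      |hp x (P x v t + e) t - v| ≤ 1 / (2 * ((3 : ℝ) ^ (m + 5)) ^ 2) ∧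
      |fo x (P x v t + e) t - fo x (P x v t) t| ≤ 1)
    {R : ℝ} (hfar : Far L P R) (G : ℝ) :
    ∃ (t0 : ℝ) (U : Set ((Fin n → ℝ) × (Fin n → ℝ))), IsOpen U ∧ U.Nonempty ∧
      ∀ L' : (Fin n → ℝ) → (Fin n → ℝ) → ℝ → ℝ, Sm L' → Pos L' → Sup L' → Close L L' ε G →
      ∀ γ : ℝ → (Fin n → ℝ), IsEL L' γ →
        (γ t0, deriv γ t0) ∈ U → ∀ (i : Fin n) (t : ℝ), t0 ≤ t → t - 5 / 2 ≤ deriv γ t i := by
  obtain ⟨k0, hk0⟩ := core3 (|G| + 1) (by positivity)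
  obtain ⟨K0, hK0⟩ := two2 sum_thm Pool.Agent.W509.TL.DOM1.dom1_thm
    Pool.Agent.W234.TL.dom3_thm
  set k1 : ℕ := max k0 (max K0 (max 8 (⌈|R|⌉₊ + 4))) with hk1
  have hk8 : 8 ≤ k1 := (le_max_left _ _).trans ((le_max_right _ _).trans (le_max_right _ _))
  have hkK0 : K0 ≤ k1 := (le_max_left _ _).trans (le_max_right _ _)
  have hk1R : R + 4 ≤ (k1 : ℝ) := by
    have h1 : ((⌈|R|⌉₊ + 4 : ℕ) : ℝ) ≤ (k1 : ℝ) := by
      exact_mod_cast (le_max_right 8 (⌈|R|⌉₊ + 4)).trans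
        ((le_max_right K0 _).trans (le_max_right k0 _))
    have h2 : |R| ≤ (⌈|R|⌉₊ : ℝ) := Nat.le_ceil _
    push_cast at h1
    linarith [le_abs_self R]
  have hcore := hk0 k1 (le_max_left _ _)
  refine ⟨(k1 : ℝ) + 1 / 2, {q | ∀ i, |q.1 i - k1 * (k1 + 1 / 2)| < 1 / 1000 ∧
    |P (q.1 i) (q.2 i) ((k1 : ℝ) + 1 / 2) - 3 ^ k1| < 3 ^ k1 / 2000}, ?_, ?_, ?_⟩
  · have hset : {q : (Fin n → ℝ) × (Fin n → ℝ) | ∀ i, |q.1 i - k1 * (k1 + 1 / 2)| < 1 / 1000 ∧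
        |P (q.1 i) (q.2 i) ((k1 : ℝ) + 1 / 2) - 3 ^ k1| < 3 ^ k1 / 2000} =
        ⋂ i, {q : (Fin n → ℝ) × (Fin n → ℝ) | |q.1 i - k1 * (k1 + 1 / 2)| < 1 / 1000 ∧
        |P (q.1 i) (q.2 i) ((k1 : ℝ) + 1 / 2) - 3 ^ k1| < 3 ^ k1 / 2000} := by
      ext q; simp
    rw [hset]
    apply isOpen_iInter_of_finite
    intro i
    have hc : Continuous (fun q : (Fin n → ℝ) × (Fin n → ℝ) =>
        P (q.1 i) (q.2 i) ((k1 : ℝ) + 1 / 2)) := by
      have h1 : Continuous (fun q : (Fin n → ℝ) × (Fin n → ℝ) =>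
        ((q.1 i, q.2 i, (k1 : ℝ) + 1 / 2) : ℝ × ℝ × ℝ)) := by fun_prop
      exact hP.continuous.comp h1
    have hA : IsOpen {q : (Fin n → ℝ) × (Fin n → ℝ) |
        |q.1 i - (k1 : ℝ) * (k1 + 1 / 2)| < 1 / 1000} :=
      isOpen_lt (by fun_prop) continuous_const
    have hB : IsOpen {q : (Fin n → ℝ) × (Fin n → ℝ) |
        |P (q.1 i) (q.2 i) ((k1 : ℝ) + 1 / 2) - 3 ^ k1| < 3 ^ k1 / 2000} :=
      isOpen_lt (hc.sub continuous_const).abs continuous_const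
    exact hA.inter hB
  · refine ⟨(fun _ => k1 * (k1 + 1 / 2), fun _ => hp (k1 * (k1 + 1 / 2)) (3 ^ k1)
      ((k1 : ℝ) + 1 / 2)), ?_⟩
    intro i
    simp only [hPH, sub_self, abs_zero]
    constructor
    · norm_num
    · positivity
  · intro L' hS hpos hsup hcl γ hγ hU
    have hVc : Continuous (deriv γ) := by
      have hf : C2 (fun (_ : Fin n → ℝ) (_ : ℝ) => (0 : ℝ)) := contDiff_const
      refine vel_cont hS hpos hsup hf ?_
      simpa only [add_zero] using hγ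
    set t0 : ℝ := (k1 : ℝ) + 1 / 2 with ht0
    have hge : ∀ (v : Fin n → ℝ) (i : Fin n), v i ≤ ‖v‖ := fun v i =>
      (le_abs_self _).trans (norm_le_pi_norm v i)
    have hV0 : ∀ i, (k1 : ℝ) - 1 ≤ deriv γ t0 i := by
      intro i
      obtain ⟨u1, u2⟩ := hU i
      have hA1 : (0 : ℝ) < 3 ^ k1 := by positivity
      have h1 := (hK0 k1 hkK0 0 (-1 / 2) (γ t0 i - k1 * t0)
        (P (γ t0 i) (deriv γ t0 i) t0) (Or.inl ⟨by norm_num, by norm_num, by
          refine le_trans u1.le ?_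
          norm_num, by
          have e1 : (3 : ℝ) ^ k1 * (3 / 2 + -1 / 2) = 3 ^ k1 := by ring
          rw [e1]
          refine u2.le.trans ?_
          linarith⟩)).1
      have e2 : γ t0 i - k1 * t0 + k1 * (-1 / 2 + ((k1 : ℝ) + 1)) + ((0 : ℤ) : ℝ) = γ t0 i := by
        rw [ht0]; push_cast; ring
      have e3 : (-1 / 2 + ((k1 : ℝ) + 1)) = t0 := by rw [ht0]; ring
      rw [e2, e3, hHP] at h1
      have hs0 := Pool.Agent.W764.TL.sg_nonneg (yy (3 ^ k1) (-1 / 2) (γ t0 i - k1 * t0)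
        (P (γ t0 i) (deriv γ t0 i) t0))
      have h3 : 1 / (2 * ((3 : ℝ) ^ k1) ^ 2) ≤ 1 := by
        rw [div_le_one (by positivity)]
        have : (1 : ℝ) ≤ ((3 : ℝ) ^ k1) ^ 2 := one_le_pow₀ (one_le_pow₀ (by norm_num))
        linarith
      have h4 := (abs_le.1 h1).1
      linarith
    have hstep : ∀ T, t0 ≤ T → (∀ t, t0 ≤ t → t ≤ T → t - 4 < ‖deriv γ t‖) →
        ∀ i, T - 5 / 2 ≤ deriv γ T i := fun T hT hV i =>
      far_step3 hε1 hε hfar hcl hk8 hk1R hcore hγ hU hT hV i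
    set i0 : Fin n := ⟨0, hn⟩ with hi0
    have hgood : ∀ t, t0 ≤ t → t - 4 < ‖deriv γ t‖ := by
      by_contra hcon
      push Not at hcon
      obtain ⟨s, hs1, hs2⟩ := hcon
      set Bad : Set ℝ := {t | t0 ≤ t ∧ ‖deriv γ t‖ ≤ t - 4} with hBad
      have hclo : IsClosed Bad := by
        have e1 : IsClosed {t : ℝ | t0 ≤ t} := isClosed_Ici
        have e2 : IsClosed {t : ℝ | ‖deriv γ t‖ ≤ t - 4} :=
          isClosed_le hVc.norm (by fun_prop)
        exact e1.inter e2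
      have hbb : BddBelow Bad := ⟨t0, fun t ht => ht.1⟩
      have hmem : sInf Bad ∈ Bad := hclo.csInf_mem ⟨s, hs1, hs2⟩ hbb
      set T := sInf Bad with hTd
      have hTlt : t0 < T := by
        rcases eq_or_lt_of_le hmem.1 with h1 | h1
        · exfalso
          have h2 := hmem.2
          rw [← h1] at h2
          linarith [hV0 i0, hge (deriv γ t0) i0]
        · exact h1
      have hlow : ∀ t, t0 ≤ t → t < T → t - 4 < ‖deriv γ t‖ := by
        intro t h1 h2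
        by_contra h3
        push Not at h3
        have h4 : T ≤ t := csInf_le hbb ⟨h1, h3⟩
        linarith
      have hcl2 : IsClosed {t : ℝ | t - 5 / 2 ≤ deriv γ t i0} :=
        isClosed_le (by fun_prop) ((continuous_apply i0).comp hVc)
      have hsub : Ico t0 T ⊆ {t : ℝ | t - 5 / 2 ≤ deriv γ t i0} := by
        intro t ht
        exact hstep t ht.1 (fun s h1 h2 => hlow s h1 (lt_of_le_of_lt h2 ht.2)) i0
      have hTm : T ∈ closure (Ico t0 T) := by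
        rw [closure_Ico hTlt.ne]
        exact ⟨hTlt.le, le_rfl⟩
      have h5 : T - 5 / 2 ≤ deriv γ T i0 := (hcl2.closure_subset_iff.2 hsub) hTm
      have h6 := hmem.2
      have h7 := hge (deriv γ T) i0
      linarith
    intro i t ht
    exact hstep t ht (fun s h1 _ => hgood s h1) i

end

end Pool.Agent.TH217.TL
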