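import Pool.Agent.TH217.TL.Fine

/-!
Every fibre-convex Lagrangian coincides for bounded velocities with one which has a neighbourhood,
for the fine topology, of Lagrangians all of whose potential perturbations have escaping orbits.
-/

set_option autoImplicit false

namespace Pool.Agent.TH217.TL

open Pool.Agent.W774.TL Set Filter Topology
open scoped ContDiff

variable {n : ℕ} {L L' : (Fin n → ℝ) → (Fin n → ℝ) → ℝ → ℝ}

lemma sup_close (h : Sm L) (h' : Sm L') (hp : PerL L) (hp' : PerL L') (hsup : Sup L)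
    {ε : ℕ → ℝ} (hε1 : ∀ m, ε m ≤ 1) {G : ℝ} (hcl : Close L L' ε G) : Sup L' := by
  intro K
  obtain ⟨B, hB⟩ := hsup (K + n)
  obtain ⟨M, hM0, hM⟩ := per_bd (n := n) (g := fun z => UU L' z.1 - UU L z.1)
    ((h'.diff.continuous.comp continuous_fst).sub (h.diff.continuous.comp continuous_fst))
    (fun x v t k l w => by
      show L' (fun i => x i + k i) v (t + l) - L (fun i => x i + k i) v (t + l)
        = L' x v t - L x v t
      rw [hp', hp]) 0
  refine ⟨B + M, fun x v t => ?_⟩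
  have h1 : ‖(L' x (0 + (1 : ℝ) • v) t - L x (0 + (1 : ℝ) • v) t)
      - (L' x (0 + (0 : ℝ) • v) t - L x (0 + (0 : ℝ) • v) t)‖ ≤ n * ‖v‖ := by
    refine norm_image_sub_le_of_norm_deriv_le_segment_01'
      (f := fun s : ℝ => L' x (0 + s • v) t - L x (0 + s • v) t)
      (fun s _ => ((line1 h' x 0 v t s).fun_sub (line1 h x 0 v t s)).hasDerivWithinAt) ?_
    intro s _
    rw [fibre_sum, fibre_sum, ← Finset.sum_sub_distrib, Real.norm_eq_abs]
    refine (Finset.abs_sum_le_sum_abs _ _).trans ?_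
    have h2 : ∀ i ∈ Finset.univ, |v i * fderiv ℝ (UU L') (x, 0 + s • v, t) (0, Pi.single i 1, 0)
        - v i * fderiv ℝ (UU L) (x, 0 + s • v, t) (0, Pi.single i 1, 0)| ≤ ‖v‖ := by
      intro i _
      have h3 := ((hcl x (0 + s • v) t i).1).trans (hε1 _)
      rw [Lv_eq h, Lv_eq h'] at h3
      rw [← mul_sub, abs_mul]
      have h4 : |v i| ≤ ‖v‖ := norm_le_pi_norm v i
      calc |v i| * |fderiv ℝ (UU L') (x, 0 + s • v, t) (0, Pi.single i 1, 0)
            - fderiv ℝ (UU L) (x, 0 + s • v, t) (0, Pi.single i 1, 0)|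
          ≤ ‖v‖ * 1 := mul_le_mul h4 h3 (abs_nonneg _) (norm_nonneg _)
        _ = ‖v‖ := mul_one _
    refine (Finset.sum_le_sum h2).trans ?_
    simp
  have h5 : |UU L' (x, 0, t) - UU L (x, 0, t)| ≤ M := hM x 0 t 0 (by simp) (by simp)
  have h6 : UU L' (x, 0, t) - UU L (x, 0, t) = L' x 0 t - L x 0 t := rfl
  rw [h6] at h5
  simp only [one_smul, zero_smul, zero_add, add_zero] at h1
  rw [Real.norm_eq_abs] at h1
  have h7 := hB x v t
  have h8 := (abs_le.1 h1).1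
  have h9 := (abs_le.1 h5).1
  nlinarith

lemma grow_close {C : ℝ} (hC0 : 0 ≤ C) (hC : Grow L C)
    {ε : ℕ → ℝ} (hε1 : ∀ m, ε m ≤ 1) {G : ℝ} (hcl : Close L L' ε G) :
    Grow L' (2 * C + |G|) := by
  intro x v t
  obtain ⟨h1, h2⟩ := hC x v t
  have h3 : ‖fun i => Lv L i x v t‖ ≤ ‖fun i => Lv L' i x v t‖ + 1 := by
    refine (pi_norm_le_iff_of_nonneg (by positivity)).2 fun i => ?_
    have h4 := (hcl x v t i).1.trans (hε1 _)
    have h5 : |Lv L' i x v t| ≤ ‖fun i => Lv L' i x v t‖ :=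
      norm_le_pi_norm (fun i => Lv L' i x v t) i
    rw [Real.norm_eq_abs]
    have h6 : |Lv L i x v t| ≤ |Lv L' i x v t| + |Lv L' i x v t - Lv L i x v t| := by
      have h7 := abs_sub (Lv L' i x v t) (Lv L' i x v t - Lv L i x v t)
      rwa [sub_sub_cancel] at h7
    linarith
  have hq : 0 ≤ ‖fun i => Lv L' i x v t‖ := norm_nonneg _
  have hg : 0 ≤ |G| := abs_nonneg G
  have h10 : C * ‖fun i => Lv L i x v t‖ ≤ C * (‖fun i => Lv L' i x v t‖ + 1) :=
    mul_le_mul_of_nonneg_left h3 hC0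
  have h11 : 0 ≤ C * ‖fun i => Lv L' i x v t‖ := mul_nonneg hC0 hq
  have h12 : 0 ≤ |G| * ‖fun i => Lv L' i x v t‖ := mul_nonneg hg hq
  constructor
  · nlinarith
  · intro i
    have h8 := h2 i
    have h9 := (hcl x v t i).2
    have h13 : |Lx L' i x v t| ≤ |Lx L i x v t| + |Lx L' i x v t - Lx L i x v t| := by
      have h7 := abs_add_le (Lx L i x v t) (Lx L' i x v t - Lx L i x v t)
      rwa [add_sub_cancel] at h7
    have h14 : G ≤ |G| := le_abs_self G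
    nlinarith

lemma close_add (h' : Sm L') {ε : ℕ → ℝ} {G : ℝ} (hcl : Close L L' ε G)
    {f : (Fin n → ℝ) → ℝ → ℝ} (hf : C2 f) {G' : ℝ}
    (hG : ∀ (i : Fin n) (x : Fin n → ℝ) (t : ℝ), |Df f i x t| ≤ G') :
    Close L (fun x v t => L' x v t + f x t) ε (G + G') := by
  intro x v t i
  rw [Lv_add h', Lx_add h' hf]
  obtain ⟨h1, h2⟩ := hcl x v t i
  refine ⟨h1, ?_⟩
  have h3 : Lx L' i x v t + Df f i x t - Lx L i x v t
      = (Lx L' i x v t - Lx L i x v t) + Df f i x t := by ring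
  rw [h3]
  exact (abs_add_le _ _).trans (add_le_add h2 (hG i x t))

lemma sm_add (h' : Sm L') {f : (Fin n → ℝ) → ℝ → ℝ} (hf : C2 f) :
    Sm (fun x v t => L' x v t + f x t) := by
  have h1 : ContDiff ℝ 2 (fun q : (Fin n → ℝ) × (Fin n → ℝ) × ℝ => f q.1 q.2.2) := by
    have h2 : ContDiff ℝ 2 (fun q : (Fin n → ℝ) × (Fin n → ℝ) × ℝ =>
        ((q.1, q.2.2) : (Fin n → ℝ) × ℝ)) :=
      contDiff_fst.prodMk (contDiff_snd.comp contDiff_snd)
    exact ContDiff.comp hf h2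
  exact ContDiff.add h' h1

lemma pos_add (hp : Pos L') (f : (Fin n → ℝ) → ℝ → ℝ) :
    Pos (fun x v t => L' x v t + f x t) := by
  intro x v t w hw
  have h1 : deriv (fun s : ℝ => L' x (v + s • w) t + f x t)
      = deriv (fun s : ℝ => L' x (v + s • w) t) := funext fun s => deriv_add_const _
  show 0 < deriv (deriv (fun s : ℝ => L' x (v + s • w) t + f x t)) 0
  rw [h1]
  exact hp x v t w hw

lemma per_add (hp : PerL L') {f : (Fin n → ℝ) → ℝ → ℝ} (hf : PerF f) :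
    PerL (fun x v t => L' x v t + f x t) := by
  intro x v t k l
  show L' (fun i => x i + k i) v (t + l) + f (fun i => x i + k i) (t + l) = L' x v t + f x t
  rw [hp, hf]

theorem dense3 (hn : 1 ≤ n) {k : ℕ∞} (hk : 2 ≤ k)
    {L0 : (Fin n → ℝ) → (Fin n → ℝ) → ℝ → ℝ}
    (h0 : ContDiff ℝ k (fun q : (Fin n → ℝ) × (Fin n → ℝ) × ℝ => L0 q.1 q.2.1 q.2.2))
    (h0p : PerL L0)
    (h0d : ∀ (x v : Fin n → ℝ) (t : ℝ) (w : Fin n → ℝ), w ≠ 0 →
      0 < deriv (deriv (fun s : ℝ => L0 x (v + s • w) t)) 0) (R : ℝ) :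
    ∃ L : (Fin n → ℝ) → (Fin n → ℝ) → ℝ → ℝ,
      ContDiff ℝ k (fun q : (Fin n → ℝ) × (Fin n → ℝ) × ℝ => L q.1 q.2.1 q.2.2) ∧ PerL L ∧
      (∀ (x v : Fin n → ℝ) (t : ℝ) (w : Fin n → ℝ), w ≠ 0 →
        0 < deriv (deriv (fun s : ℝ => L x (v + s • w) t)) 0) ∧
      (∀ K : ℝ, ∃ B : ℝ, ∀ (x v : Fin n → ℝ) (t : ℝ), K * ‖v‖ - B ≤ L x v t) ∧
      (∀ (t0 : ℝ) (x0 v0 : Fin n → ℝ), ∃ γ : ℝ → (Fin n → ℝ),
        IsEL L γ ∧ γ t0 = x0 ∧ deriv γ t0 = v0) ∧
      (∀ (x v : Fin n → ℝ) (t : ℝ), ‖v‖ ≤ R → L x v t = L0 x v t) ∧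
      ∃ ε : ℕ → ℝ, (∀ m, 0 < ε m) ∧
        ∀ G : ℝ, ∃ (t0 : ℝ) (U : Set ((Fin n → ℝ) × (Fin n → ℝ))), IsOpen U ∧ U.Nonempty ∧
          ∀ L' : (Fin n → ℝ) → (Fin n → ℝ) → ℝ → ℝ, Sm L' → PerL L' → Pos L' →
            Close L L' ε G →
            ∀ f : (Fin n → ℝ) → ℝ → ℝ, C2 f → PerF f →
            (∀ (i : Fin n) (x : Fin n → ℝ) (t : ℝ), |Df f i x t| ≤ G) →
            Sup (fun x v t => L' x v t + f x t) ∧
            (∀ (t0 : ℝ) (x0 v0 : Fin n → ℝ), ∃ γ : ℝ → (Fin n → ℝ),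
              IsEL (fun x v t => L' x v t + f x t) γ ∧ γ t0 = x0 ∧ deriv γ t0 = v0) ∧
            ∀ γ : ℝ → (Fin n → ℝ), IsEL (fun x v t => L' x v t + f x t) γ →
              (γ t0, deriv γ t0) ∈ U →
              ∀ (i : Fin n) (t : ℝ), t0 ≤ t → t - 5 / 2 ≤ deriv γ t i := by
  have k2 := two_le hk
  obtain ⟨l, P, hl, hP, hHP0, hPH0, hlv, hlx0, hPv, hls, hlp⟩ :=
    Pool.Agent.W236.TL.LEG.leg_thm Pool.Agent.W774.TL.h (M2.h_smooth smooth der)
      (M2.hpp_pos der (Pool.Agent.W891.TL.cvx_thm sum_thm))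
      (Pool.Agent.W819.TL.sup_thm sum_thm).1 (Pool.Agent.W819.TL.sup_thm sum_thm).2 M2.h_per
  have hHP : ∀ x v t : ℝ, hp x (P x v t) t = v := by
    intro x v t
    rw [← (M2.hp_deriv der x (P x v t) t).deriv]
    exact hHP0 x v t
  have hPH : ∀ x p t : ℝ, P x (hp x p t) t = p := by
    intro x p t
    rw [← (M2.hp_deriv der x p t).deriv]
    exact hPH0 x p t
  have hlx : ∀ x v t : ℝ, HasDerivAt (fun s => l s v t) (fo x (P x v t) t) x := by
    intro x v t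
    have := hlx0 x v t
    rw [(M2.hx_deriv der x (P x v t) t).deriv, neg_neg] at this
    exact this
  obtain ⟨hY, hYp, hYd, hYs, -⟩ :=
    M2.tonelli_lag (n := n) l P hl hP hlv hlx hHP hPH hPv hls hlp compl
  have hYc : ContDiff ℝ (⊤ : ℕ∞) (UU (M2.Lag n l)) := hY
  have hYk : ContDiff ℝ k (UU (M2.Lag n l)) := hYc.of_le k_le
  have hLag : Sm (M2.Lag n l) := hYk.of_le k2
  have h0k : ContDiff ℝ k (UU L0) := h0
  have h0S : Sm L0 := h0k.of_le k2
  obtain ⟨B, hBk, hBp, hBd, hBs, hBR, R', c, hBc⟩ := glue_thm hk (U0 := UU L0)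
    (Y0 := UU (M2.Lag n l)) h0k (fun x v t k l => h0p x v t k l)
    ((pos_iff h0S).1 h0d) hYk (fun x v t k m => hYp x v t k m)
    ((pos_iff hLag).1 hYd) (fun K => by
      obtain ⟨C, hC⟩ := hYs K
      exact ⟨C, fun q => hC q.1 q.2.1 q.2.2⟩) R
  have hB2 : ContDiff ℝ 2 B := hBk.of_le k2
  have hS : Sm (fun x v t => B (x, v, t)) := hB2
  have hBper : PerL (fun x v t => B (x, v, t)) := fun x v t k m => hBp x v t k m
  have hPos : Pos (fun x v t => B (x, v, t)) := (pos_iff hS).2 hBd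
  have hSup : Sup (fun x v t => B (x, v, t)) := fun K => by
    obtain ⟨C, hC⟩ := hBs K
    exact ⟨C, fun x v t => hC (x, v, t)⟩
  have hfar : Far (fun x v t => B (x, v, t)) P R' := far_of_glue hlv hlx hLag hB2 hBc
  obtain ⟨C, hC0, hC⟩ := grow_of_far hB2 hBp hHP hfar
  obtain ⟨ε, hε1, hε⟩ := eps_exists hP hlv hlp hHP
  refine ⟨fun x v t => B (x, v, t), hBk, hBper, hPos, hSup, ?_, ?_, ε,
    fun m => (hε1 m).1, ?_⟩
  · intro t0 x0 v0
    have hf : C2 (fun (_ : Fin n → ℝ) (_ : ℝ) => (0 : ℝ)) := contDiff_const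
    obtain ⟨G, hG0, hG⟩ := Pool.Agent.W787.TL.gb_thm n _ hf (fun _ _ _ _ => rfl)
    obtain ⟨γ, h1, h2, h3⟩ := complete hS hPos hSup hC0 hC hf hG0 hG t0 x0 v0
    simp only [add_zero] at h1
    exact ⟨γ, h1, h2, h3⟩
  · intro x v t hv
    exact hBR (x, v, t) hv
  · intro G
    obtain ⟨t0, U, hU1, hU2, hU3⟩ := escape3 hn hP hHP hPH hε1 hε hfar (G + G)
    refine ⟨t0, U, hU1, hU2, ?_⟩
    intro L' hS' hper' hpos' hcl f hf hfp hG
    have hsup' : Sup L' := sup_close hS hS' hBper hper' hSup (fun m => (hε1 m).2) hcl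
    have hcl2 := close_add hS' hcl hf hG
    have hSf := sm_add hS' hf
    have hpf := per_add hper' hfp
    have hsf : Sup (fun x v t => L' x v t + f x t) :=
      sup_close hS hSf hBper hpf hSup (fun m => (hε1 m).2) hcl2
    refine ⟨hsf, ?_, ?_⟩
    · intro t1 x0 v0
      have hgrow := grow_close hC0 hC (fun m => (hε1 m).2) hcl
      have hG0 : 0 ≤ G := (abs_nonneg _).trans (hG ⟨0, hn⟩ 0 0)
      exact complete hS' hpos' hsup' (by positivity) hgrow hf hG0 hG t1 x0 v0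
    · exact hU3 _ hSf (pos_add hpos' f) hsf hcl2

end Pool.Agent.TH217.TL
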