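import Pool.Agent.W774.TL.Stm
import Pool.Agent.Helper981.Flow
import Pool.Agent.W599.TL.Compl

/-!
The Legendre transform of a `C^2` superlinear Lagrangian with positive definite fibre Hessian on
`ℝ^n × ℝ^n × ℝ`, and completeness of its Euler-Lagrange flow under a growth condition.
-/

set_option autoImplicit false

namespace Pool.Agent.TH217.TL

open Pool.Agent.W774.TL Set Filter Topology
open scoped ContDiff

/-- the Lagrangian as a function on the product. -/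
def UU {n : ℕ} (L : (Fin n → ℝ) → (Fin n → ℝ) → ℝ → ℝ) (q : (Fin n → ℝ) × (Fin n → ℝ) × ℝ) : ℝ :=
  L q.1 q.2.1 q.2.2

def Sm {n : ℕ} (L : (Fin n → ℝ) → (Fin n → ℝ) → ℝ → ℝ) : Prop :=
  ContDiff ℝ 2 (UU L)

def Pos {n : ℕ} (L : (Fin n → ℝ) → (Fin n → ℝ) → ℝ → ℝ) : Prop :=
  ∀ (x v : Fin n → ℝ) (t : ℝ) (w : Fin n → ℝ), w ≠ 0 →
    0 < deriv (deriv (fun s : ℝ => L x (v + s • w) t)) 0

def Sup {n : ℕ} (L : (Fin n → ℝ) → (Fin n → ℝ) → ℝ → ℝ) : Prop :=
  ∀ K : ℝ, ∃ B : ℝ, ∀ (x v : Fin n → ℝ) (t : ℝ), K * ‖v‖ - B ≤ L x v t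

/-- the second derivative along the fibre. -/
noncomputable def hess {n : ℕ} (L : (Fin n → ℝ) → (Fin n → ℝ) → ℝ → ℝ)
    (q : (Fin n → ℝ) × (Fin n → ℝ) × ℝ) (w : Fin n → ℝ) : ℝ :=
  fderiv ℝ (fderiv ℝ (UU L)) q (0, w, 0) (0, w, 0)

section

variable {n : ℕ} {L : (Fin n → ℝ) → (Fin n → ℝ) → ℝ → ℝ}

lemma Sm.diff (h : Sm L) : Differentiable ℝ (UU L) := ContDiff.differentiable h (by norm_num)

lemma Sm.two (h : Sm L) : ContDiff ℝ 2 (UU L) := h

lemma Sm.fd (h : Sm L) : ContDiff ℝ 1 (fderiv ℝ (UU L)) :=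
  ContDiff.fderiv_right (m := 1) h.two (by norm_num)

lemma Sm.fdd (h : Sm L) : Differentiable ℝ (fderiv ℝ (UU L)) := h.fd.differentiable (by norm_num)

lemma line_hd (v w : Fin n → ℝ) (x : Fin n → ℝ) (t s : ℝ) :
    HasDerivAt (fun s : ℝ => ((x, v + s • w, t) : (Fin n → ℝ) × (Fin n → ℝ) × ℝ)) (0, w, 0) s := by
  have h1 : HasDerivAt (fun s : ℝ => v + s • w) w s := by
    simpa using ((hasDerivAt_id s).smul_const w).const_add v
  exact (hasDerivAt_const s x).prodMk (h1.prodMk (hasDerivAt_const s t))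

lemma line1 (h : Sm L) (x v w : Fin n → ℝ) (t s : ℝ) :
    HasDerivAt (fun s : ℝ => L x (v + s • w) t)
      (fderiv ℝ (UU L) (x, v + s • w, t) (0, w, 0)) s := by
  have h1 : HasFDerivAt (UU L) (fderiv ℝ (UU L) (x, v + s • w, t)) (x, v + s • w, t) :=
    (h.diff (x, v + s • w, t)).hasFDerivAt
  have h2 := h1.comp_hasDerivAt s (line_hd v w x t s)
  exact h2

lemma fd_apply (h : Sm L) (c : (Fin n → ℝ) × (Fin n → ℝ) × ℝ)
    (q : (Fin n → ℝ) × (Fin n → ℝ) × ℝ) :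
    HasFDerivAt (fun q => fderiv ℝ (UU L) q c)
      ((ContinuousLinearMap.apply ℝ ℝ c).comp (fderiv ℝ (fderiv ℝ (UU L)) q)) q :=
  (ContinuousLinearMap.apply ℝ ℝ c).hasFDerivAt.comp q (h.fdd q).hasFDerivAt

lemma line2 (h : Sm L) (x v w : Fin n → ℝ) (t s : ℝ) :
    HasDerivAt (fun s : ℝ => fderiv ℝ (UU L) (x, v + s • w, t) (0, w, 0))
      (hess L (x, v + s • w, t) w) s := by
  have h1 := fd_apply h (0, w, 0) (x, v + s • w, t)
  have h2 := h1.comp_hasDerivAt s (line_hd v w x t s)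
  exact h2

lemma dd_eq (h : Sm L) (x v w : Fin n → ℝ) (t s : ℝ) :
    deriv (deriv (fun s : ℝ => L x (v + s • w) t)) s = hess L (x, v + s • w, t) w := by
  have h1 : deriv (fun s : ℝ => L x (v + s • w) t)
      = fun s => fderiv ℝ (UU L) (x, v + s • w, t) (0, w, 0) :=
    funext fun s => (line1 h x v w t s).deriv
  rw [h1]
  exact (line2 h x v w t s).deriv

lemma dd_eq0 (h : Sm L) (x v w : Fin n → ℝ) (t : ℝ) :
    deriv (deriv (fun s : ℝ => L x (v + s • w) t)) 0 = hess L (x, v, t) w := by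
  have := dd_eq h x v w t 0
  simpa using this

lemma pos_iff (h : Sm L) : Pos L ↔ ∀ q w, w ≠ 0 → 0 < hess L q w := by
  constructor
  · rintro hp ⟨x, v, t⟩ w hw
    rw [← dd_eq0 h]
    exact hp x v t w hw
  · intro hp x v t w hw
    rw [dd_eq0 h]
    exact hp _ w hw

lemma upd_v (x v : Fin n → ℝ) (t : ℝ) (i : Fin n) :
    HasDerivAt (fun s : ℝ => ((x, Function.update v i s, t) : (Fin n → ℝ) × (Fin n → ℝ) × ℝ))
      (0, Pi.single i 1, 0) (v i) :=
  (hasDerivAt_const _ x).prodMk ((hasDerivAt_update v i (v i)).prodMk (hasDerivAt_const _ t))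

lemma upd_x (x v : Fin n → ℝ) (t : ℝ) (i : Fin n) :
    HasDerivAt (fun s : ℝ => ((Function.update x i s, v, t) : (Fin n → ℝ) × (Fin n → ℝ) × ℝ))
      (Pi.single i 1, 0, 0) (x i) :=
  (hasDerivAt_update x i (x i)).prodMk ((hasDerivAt_const _ v).prodMk (hasDerivAt_const _ t))

lemma Lv_hd (h : Sm L) (i : Fin n) (x v : Fin n → ℝ) (t : ℝ) :
    HasDerivAt (fun s => L x (Function.update v i s) t)
      (fderiv ℝ (UU L) (x, v, t) (0, Pi.single i 1, 0)) (v i) := by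
  have h1 : HasFDerivAt (UU L) (fderiv ℝ (UU L) (x, v, t)) (x, Function.update v i (v i), t) := by
    rw [Function.update_eq_self]; exact (h.diff _).hasFDerivAt
  exact h1.comp_hasDerivAt (v i) (upd_v x v t i)

lemma Lx_hd (h : Sm L) (i : Fin n) (x v : Fin n → ℝ) (t : ℝ) :
    HasDerivAt (fun s => L (Function.update x i s) v t)
      (fderiv ℝ (UU L) (x, v, t) (Pi.single i 1, 0, 0)) (x i) := by
  have h1 : HasFDerivAt (UU L) (fderiv ℝ (UU L) (x, v, t)) (Function.update x i (x i), v, t) := by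
    rw [Function.update_eq_self]; exact (h.diff _).hasFDerivAt
  exact h1.comp_hasDerivAt (x i) (upd_x x v t i)

lemma Lv_eq (h : Sm L) (i : Fin n) (x v : Fin n → ℝ) (t : ℝ) :
    Lv L i x v t = fderiv ℝ (UU L) (x, v, t) (0, Pi.single i 1, 0) := (Lv_hd h i x v t).deriv

lemma Lx_eq (h : Sm L) (i : Fin n) (x v : Fin n → ℝ) (t : ℝ) :
    Lx L i x v t = fderiv ℝ (UU L) (x, v, t) (Pi.single i 1, 0, 0) := (Lx_hd h i x v t).deriv

lemma Lv_cd (h : Sm L) (i : Fin n) :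
    ContDiff ℝ 1 (fun q : (Fin n → ℝ) × (Fin n → ℝ) × ℝ => Lv L i q.1 q.2.1 q.2.2) := by
  have he : (fun q : (Fin n → ℝ) × (Fin n → ℝ) × ℝ => Lv L i q.1 q.2.1 q.2.2)
      = fun q => fderiv ℝ (UU L) q (0, Pi.single i 1, 0) := funext fun q => Lv_eq h i _ _ _
  rw [he]
  exact h.fd.clm_apply contDiff_const

lemma Lx_cd (h : Sm L) (i : Fin n) :
    ContDiff ℝ 1 (fun q : (Fin n → ℝ) × (Fin n → ℝ) × ℝ => Lx L i q.1 q.2.1 q.2.2) := by
  have he : (fun q : (Fin n → ℝ) × (Fin n → ℝ) × ℝ => Lx L i q.1 q.2.1 q.2.2)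
      = fun q => fderiv ℝ (UU L) q (Pi.single i 1, 0, 0) := funext fun q => Lx_eq h i _ _ _
  rw [he]
  exact h.fd.clm_apply contDiff_const

lemma sum_single (w : Fin n → ℝ) : (∑ i, w i • (Pi.single i (1 : ℝ) : Fin n → ℝ)) = w := by
  funext j
  simp [Finset.sum_apply, Pi.single_apply]

lemma fibre_sum (φ : ((Fin n → ℝ) × (Fin n → ℝ) × ℝ) →L[ℝ] ℝ) (w : Fin n → ℝ) :
    φ (0, w, 0) = ∑ i, w i * φ (0, Pi.single i 1, 0) := by
  have h1 : ((0, w, 0) : (Fin n → ℝ) × (Fin n → ℝ) × ℝ)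
      = ∑ i, w i • ((0, Pi.single i 1, 0) : (Fin n → ℝ) × (Fin n → ℝ) × ℝ) := by
    refine Prod.ext ?_ (Prod.ext ?_ ?_)
    · simp [Prod.fst_sum]
    · simp only [Prod.snd_sum, Prod.fst_sum, Prod.smul_mk]
      exact (sum_single w).symm
    · simp [Prod.snd_sum]
  rw [h1, map_sum]
  simp only [map_smul, smul_eq_mul]

/-- the fibre derivative, as a map of the whole space. -/
noncomputable def Psi (L : (Fin n → ℝ) → (Fin n → ℝ) → ℝ → ℝ)
    (q : (Fin n → ℝ) × (Fin n → ℝ) × ℝ) : (Fin n → ℝ) × (Fin n → ℝ) × ℝ :=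
  (q.1, fun i => Lv L i q.1 q.2.1 q.2.2, q.2.2)

lemma Psi_cd (h : Sm L) : ContDiff ℝ 1 (Psi L) := by
  refine contDiff_fst.prodMk (ContDiff.prodMk ?_ (contDiff_snd.comp contDiff_snd))
  rw [contDiff_pi]
  exact fun i => Lv_cd h i

lemma Psi_inj (h : Sm L) (hp : Pos L) : Function.Injective (Psi L) := by
  rintro ⟨x, v, t⟩ ⟨x', v', t'⟩ he
  simp only [Psi, Prod.mk.injEq] at he
  obtain ⟨rfl, h2, rfl⟩ := he
  by_contra hne
  have hvv : v' - v ≠ 0 := by
    intro h0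
    apply hne
    rw [sub_eq_zero.1 h0]
  set w := v' - v with hw
  have hmono : StrictMono (deriv (fun s : ℝ => L x (v + s • w) t)) := by
    apply strictMono_of_deriv_pos
    intro s
    rw [dd_eq h]
    exact (pos_iff h).1 hp _ w hvv
  have h01 := hmono (show (0 : ℝ) < 1 by norm_num)
  rw [(line1 h x v w t 0).deriv, (line1 h x v w t 1).deriv, fibre_sum, fibre_sum] at h01
  have e0 : v + (0 : ℝ) • w = v := by simp
  have e1 : v + (1 : ℝ) • w = v' := by simp [hw]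
  rw [e0, e1] at h01
  simp only [← Lv_eq h] at h01
  have h3 : ∀ i, Lv L i x v t = Lv L i x v' t := fun i => congrFun h2 i
  simp only [h3, lt_irrefl] at h01

lemma Psi_surj (h : Sm L) (hs : Sup L) : Function.Surjective (Psi L) := by
  rintro ⟨x, p, t⟩
  obtain ⟨B, hB⟩ := hs ((∑ i, |p i|) + 1)
  have hcL : Continuous (fun v : Fin n → ℝ => L x v t) := by
    have h1 : Continuous (fun v : Fin n → ℝ => ((x, v, t) : (Fin n → ℝ) × (Fin n → ℝ) × ℝ)) := by
      fun_prop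
    exact h.diff.continuous.comp h1
  have hcJ : Continuous (fun v : Fin n → ℝ => L x v t - ∑ i, p i * v i) := by
    refine hcL.sub ?_
    fun_prop
  have hlim : Tendsto (fun v : Fin n → ℝ => L x v t - ∑ i, p i * v i) (cocompact _) atTop := by
    have h1 : Tendsto (fun v : Fin n → ℝ => ‖v‖ - B) (cocompact _) atTop :=
      tendsto_atTop_add_const_right _ _ (tendsto_norm_cocompact_atTop)
    refine tendsto_atTop_mono (fun v => ?_) h1
    have h2 := hB x v t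
    have h3 : ∑ i, p i * v i ≤ (∑ i, |p i|) * ‖v‖ := by
      rw [Finset.sum_mul]
      refine Finset.sum_le_sum fun i _ => ?_
      calc p i * v i ≤ |p i * v i| := le_abs_self _
        _ = |p i| * |v i| := abs_mul _ _
        _ ≤ |p i| * ‖v‖ := mul_le_mul_of_nonneg_left (norm_le_pi_norm v i) (abs_nonneg _)
    nlinarith
  obtain ⟨v, hv⟩ := hcJ.exists_forall_le hlim
  refine ⟨(x, v, t), ?_⟩
  simp only [Psi, Prod.mk.injEq, true_and, and_true]
  funext i
  have h4 : HasDerivAt (fun s => L x (Function.update v i s) t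
      - ∑ j, p j * Function.update v i s j) (Lv L i x v t - p i) (v i) := by
    refine HasDerivAt.fun_sub (by rw [Lv_eq h]; exact Lv_hd h i x v t) ?_
    have h5 : HasDerivAt (fun s => ∑ j, p j * Function.update v i s j)
        (∑ j, p j * (Pi.single i (1 : ℝ) : Fin n → ℝ) j) (v i) := by
      apply HasDerivAt.fun_sum
      intro j _
      exact ((hasDerivAt_pi.1 (hasDerivAt_update v i (v i))) j).const_mul (p j)
    have h6 : (∑ j, p j * (Pi.single i (1 : ℝ) : Fin n → ℝ) j) = p i := by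
      simp [Pi.single_apply]
    rwa [h6] at h5
  have h7 : IsLocalMin (fun s => L x (Function.update v i s) t
      - ∑ j, p j * Function.update v i s j) (v i) := by
    refine Filter.Eventually.of_forall fun s => ?_
    have := hv (Function.update v i s)
    simpa only [Function.update_eq_self] using this
  have := h7.hasDerivAt_eq_zero h4
  linarith

/-- the derivative of the fibre derivative map -/
noncomputable def PsiD (L : (Fin n → ℝ) → (Fin n → ℝ) → ℝ → ℝ)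
    (q : (Fin n → ℝ) × (Fin n → ℝ) × ℝ) :
    ((Fin n → ℝ) × (Fin n → ℝ) × ℝ) →L[ℝ] ((Fin n → ℝ) × (Fin n → ℝ) × ℝ) :=
  (ContinuousLinearMap.fst ℝ _ _).prod ((ContinuousLinearMap.pi fun i =>
    (ContinuousLinearMap.apply ℝ ℝ ((0, Pi.single i 1, 0) : (Fin n → ℝ) × (Fin n → ℝ) × ℝ)).comp
      (fderiv ℝ (fderiv ℝ (UU L)) q)).prod
    ((ContinuousLinearMap.snd ℝ _ _).comp (ContinuousLinearMap.snd ℝ _ _)))

lemma Psi_hfd (h : Sm L) (q : (Fin n → ℝ) × (Fin n → ℝ) × ℝ) :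
    HasFDerivAt (Psi L) (PsiD L q) q := by
  refine hasFDerivAt_fst.prodMk (HasFDerivAt.prodMk ?_ ?_)
  · rw [hasFDerivAt_pi]
    intro i
    have he : (fun q : (Fin n → ℝ) × (Fin n → ℝ) × ℝ => Lv L i q.1 q.2.1 q.2.2)
        = fun q => fderiv ℝ (UU L) q (0, Pi.single i 1, 0) := funext fun q => Lv_eq h i _ _ _
    rw [he]
    exact fd_apply h _ q
  · exact (hasFDerivAt_snd).comp q hasFDerivAt_snd

lemma PsiD_inj (h : Sm L) (hp : Pos L) (q : (Fin n → ℝ) × (Fin n → ℝ) × ℝ) :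
    Function.Injective (PsiD L q) := by
  rw [injective_iff_map_eq_zero]
  rintro ⟨a, w, c⟩ h0
  have h1 : a = 0 := congrArg Prod.fst h0
  have h3 : c = 0 := congrArg (fun z => z.2.2) h0
  have h2 : ∀ i, fderiv ℝ (fderiv ℝ (UU L)) q (a, w, c) (0, Pi.single i 1, 0) = 0 :=
    fun i => congrFun (congrArg (fun z => z.2.1) h0) i
  subst h1 h3
  have h4 : hess L q w = 0 := by
    unfold hess
    rw [fibre_sum]
    simp [h2]
  have h5 : w = 0 := by
    by_contra hw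
    exact ((pos_iff h).1 hp q w hw).ne' h4
  subst h5
  rfl

/-- the derivative as an equivalence -/
noncomputable def PsiE (h : Sm L) (hp : Pos L) (q : (Fin n → ℝ) × (Fin n → ℝ) × ℝ) :
    ((Fin n → ℝ) × (Fin n → ℝ) × ℝ) ≃L[ℝ] ((Fin n → ℝ) × (Fin n → ℝ) × ℝ) :=
  (LinearEquiv.ofInjectiveEndo (PsiD L q).toLinearMap (PsiD_inj h hp q)).toContinuousLinearEquiv

lemma PsiE_coe (h : Sm L) (hp : Pos L) (q : (Fin n → ℝ) × (Fin n → ℝ) × ℝ) :
    ((PsiE h hp q : ((Fin n → ℝ) × (Fin n → ℝ) × ℝ) ≃L[ℝ] ((Fin n → ℝ) × (Fin n → ℝ) × ℝ)) :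
      ((Fin n → ℝ) × (Fin n → ℝ) × ℝ) →L[ℝ] ((Fin n → ℝ) × (Fin n → ℝ) × ℝ)) = PsiD L q := by
  refine ContinuousLinearMap.ext fun z => ?_
  rfl

/-- the fibre derivative map as a homeomorphism -/
noncomputable def PsiH (h : Sm L) (hp : Pos L) (hs : Sup L) :
    ((Fin n → ℝ) × (Fin n → ℝ) × ℝ) ≃ₜ ((Fin n → ℝ) × (Fin n → ℝ) × ℝ) :=
  (Equiv.ofBijective (Psi L) ⟨Psi_inj h hp, Psi_surj h hs⟩).toHomeomorphOfContinuousOpen
    (Psi_cd h).continuous (by
      refine isOpenMap_of_hasStrictFDerivAt_equiv (f' := PsiE h hp) ?_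
      intro q
      have h1 : HasFDerivAt (Psi L) ((PsiE h hp q : _ ≃L[ℝ] _) : _ →L[ℝ] _) q := by
        rw [PsiE_coe]; exact Psi_hfd h q
      exact (Psi_cd h).contDiffAt.hasStrictFDerivAt' h1 (by norm_num))

lemma PsiH_symm_cd (h : Sm L) (hp : Pos L) (hs : Sup L) :
    ContDiff ℝ 1 ((PsiH h hp hs).symm : _ → (Fin n → ℝ) × (Fin n → ℝ) × ℝ) := by
  refine (PsiH h hp hs).contDiff_symm (f₀' := PsiE h hp) ?_ ?_
  · intro q
    have h1 : HasFDerivAt (Psi L) ((PsiE h hp q : _ ≃L[ℝ] _) : _ →L[ℝ] _) q := by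
      rw [PsiE_coe]; exact Psi_hfd h q
    exact h1
  · exact Psi_cd h

/-- **Legendre duality.** -/
theorem legendre (h : Sm L) (hp : Pos L) (hs : Sup L) :
    ∃ W : (Fin n → ℝ) × (Fin n → ℝ) × ℝ → (Fin n → ℝ), ContDiff ℝ 1 W ∧
      (∀ x v t, W (x, fun i => Lv L i x v t, t) = v) ∧
      (∀ x p t, (fun i => Lv L i x (W (x, p, t)) t) = p) := by
  have hfst : ∀ z, ((PsiH h hp hs).symm z).1 = z.1 := by
    intro z
    have h1 : Psi L ((PsiH h hp hs).symm z) = z := (PsiH h hp hs).apply_symm_apply z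
    have h2 : (Psi L ((PsiH h hp hs).symm z)).1 = z.1 := by rw [h1]
    exact h2
  have hsnd : ∀ z, ((PsiH h hp hs).symm z).2.2 = z.2.2 := by
    intro z
    have h1 : Psi L ((PsiH h hp hs).symm z) = z := (PsiH h hp hs).apply_symm_apply z
    have h2 : (Psi L ((PsiH h hp hs).symm z)).2.2 = z.2.2 := by rw [h1]
    exact h2
  refine ⟨fun z => ((PsiH h hp hs).symm z).2.1, ?_, ?_, ?_⟩
  · exact contDiff_fst.comp (contDiff_snd.comp (PsiH_symm_cd h hp hs))
  · intro x v t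
    have h1 : (PsiH h hp hs).symm (Psi L (x, v, t)) = (x, v, t) :=
      (PsiH h hp hs).symm_apply_apply (x, v, t)
    exact congrArg (fun z => z.2.1) h1
  · intro x p t
    have h1 : Psi L ((PsiH h hp hs).symm (x, p, t)) = (x, p, t) :=
      (PsiH h hp hs).apply_symm_apply (x, p, t)
    have h2 := congrArg (fun z => z.2.1) h1
    simp only [Psi] at h2
    rw [hfst, hsnd] at h2
    exact h2

end

end Pool.Agent.TH217.TL
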