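import Pool.Agent.TH217.TL.Fine2

/-!
Escaping orbits for potentials which need not be periodic: this covers the products of the torus
with any manifold.
-/

set_option autoImplicit false

namespace Pool.Agent.TH217.TL

open Pool.Agent.W774.TL Set Filter Topology
open scoped ContDiff

section

variable {n : ℕ} {L : (Fin n → ℝ) → (Fin n → ℝ) → ℝ → ℝ} {P : ℝ → ℝ → ℝ → ℝ}

theorem escape4 (hn : 1 ≤ n)
    (hP : ContDiff ℝ (⊤ : ℕ∞) (fun q : ℝ × ℝ × ℝ => P q.1 q.2.1 q.2.2))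
    (hHP : ∀ x v t : ℝ, hp x (P x v t) t = v) (hPH : ∀ x p t : ℝ, P x (hp x p t) t = p)
    {ε : ℕ → ℝ} (hε1 : ∀ m, 0 < ε m ∧ ε m ≤ 1)
    (hε : ∀ (m : ℕ) (x v t e : ℝ), |v| ≤ m + 1 → |e| ≤ ε m →
      |hp x (P x v t + e) t - v| ≤ 1 / (2 * ((3 : ℝ) ^ (m + 5)) ^ 2) ∧
      |fo x (P x v t + e) t - fo x (P x v t) t| ≤ 1)
    {R : ℝ} (hfar : Far L P R) (G : ℝ) :
    ∃ (t0 : ℝ) (U : Set ((Fin n → ℝ) × (Fin n → ℝ))), IsOpen U ∧ U.Nonempty ∧
      ∀ L' : (Fin n → ℝ) → (Fin n → ℝ) → ℝ → ℝ, Sm L' → Pos L' → Sup L' →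
      ∀ f : (Fin n → ℝ) → ℝ → ℝ, C2 f → Close L (fun x v t => L' x v t + f x t) ε G →
      ∀ γ : ℝ → (Fin n → ℝ), IsEL (fun x v t => L' x v t + f x t) γ →
        (γ t0, deriv γ t0) ∈ U → ∀ (i : Fin n) (t : ℝ), t0 ≤ t → t - 5 / 2 ≤ deriv γ t i := by
  obtain ⟨k0, hk0⟩ := core3 (|G| + 1) (by positivity)
  obtain ⟨K0, hK0⟩ := two2 sum_thm Pool.Agent.W509.TL.DOM1.dom1_thm
    Pool.Agent.W234.TL.dom3_thm
  set k1 : ℕ := max k0 (max K0 (max 8 (⌈|R|⌉₊ + 4))) with hk1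
  have hk8 : 8 ≤ k1 := (le_max_left _ _).trans ((le_max_right _ _).trans (le_max_right _ _))
  have hkK0 : K0 ≤ k1 := (le_max_left _ _).trans (le_max_right _ _)
  have hk1R : R + 4 ≤ (k1 : ℝ) := by
    have h1 : ((⌈|R|⌉₊ + 4 : ℕ) : ℝ) ≤ (k1 : ℝ) := by
      exact_mod_cast (le_max_right 8 (⌈|R|⌉₊ + 4)).trans
        ((le_max_right K0 _).trans (le_max_right k0 _))
    have h2 : |R| ≤ (⌈|R|⌉₊ : ℝ) := Nat.le_ceil _
    push_cast at h1
    linarith [le_abs_self R]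
  have hcore := hk0 k1 (le_max_left _ _)
  refine ⟨(k1 : ℝ) + 1 / 2, {q | ∀ i, |q.1 i - k1 * (k1 + 1 / 2)| < 1 / 1000 ∧
    |P (q.1 i) (q.2 i) ((k1 : ℝ) + 1 / 2) - 3 ^ k1| < 3 ^ k1 / 2000}, ?_, ?_, ?_⟩
  · have hset : {q : (Fin n → ℝ) × (Fin n → ℝ) | ∀ i, |q.1 i - k1 * (k1 + 1 / 2)| < 1 / 1000 ∧
        |P (q.1 i) (q.2 i) ((k1 : ℝ) + 1 / 2) - 3 ^ k1| < 3 ^ k1 / 2000} =
        ⋂ i, {q : (Fin n → ℝ) × (Fin n → ℝ) | |q.1 i - k1 * (k1 + 1 / 2)| < 1 / 1000 ∧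
        |P (q.1 i) (q.2 i) ((k1 : ℝ) + 1 / 2) - 3 ^ k1| < 3 ^ k1 / 2000} := by
      ext q; simp
    rw [hset]
    apply isOpen_iInter_of_finite
    intro i
    have hc : Continuous (fun q : (Fin n → ℝ) × (Fin n → ℝ) =>
        P (q.1 i) (q.2 i) ((k1 : ℝ) + 1 / 2)) := by
      have h1 : Continuous (fun q : (Fin n → ℝ) × (Fin n → ℝ) =>
        ((q.1 i, q.2 i, (k1 : ℝ) + 1 / 2) : ℝ × ℝ × ℝ)) := by fun_prop
      exact hP.continuous.comp h1
    have hA : IsOpen {q : (Fin n → ℝ) × (Fin n → ℝ) |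
        |q.1 i - (k1 : ℝ) * (k1 + 1 / 2)| < 1 / 1000} :=
      isOpen_lt (by fun_prop) continuous_const
    have hB : IsOpen {q : (Fin n → ℝ) × (Fin n → ℝ) |
        |P (q.1 i) (q.2 i) ((k1 : ℝ) + 1 / 2) - 3 ^ k1| < 3 ^ k1 / 2000} :=
      isOpen_lt (hc.sub continuous_const).abs continuous_const
    exact hA.inter hB
  · refine ⟨(fun _ => k1 * (k1 + 1 / 2), fun _ => hp (k1 * (k1 + 1 / 2)) (3 ^ k1)
      ((k1 : ℝ) + 1 / 2)), ?_⟩
    intro i
    simp only [hPH, sub_self, abs_zero]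
    constructor
    · norm_num
    · positivity
  · intro L' hS hpos hsup f hf hcl γ hγ hU
    have hVc : Continuous (deriv γ) := vel_cont hS hpos hsup hf hγ
    set t0 : ℝ := (k1 : ℝ) + 1 / 2 with ht0
    have hge : ∀ (v : Fin n → ℝ) (i : Fin n), v i ≤ ‖v‖ := fun v i =>
      (le_abs_self _).trans (norm_le_pi_norm v i)
    have hV0 : ∀ i, (k1 : ℝ) - 1 ≤ deriv γ t0 i := by
      intro i
      obtain ⟨u1, u2⟩ := hU i
      have hA1 : (0 : ℝ) < 3 ^ k1 := by positivity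
      have h1 := (hK0 k1 hkK0 0 (-1 / 2) (γ t0 i - k1 * t0)
        (P (γ t0 i) (deriv γ t0 i) t0) (Or.inl ⟨by norm_num, by norm_num, by
          refine le_trans u1.le ?_
          norm_num, by
          have e1 : (3 : ℝ) ^ k1 * (3 / 2 + -1 / 2) = 3 ^ k1 := by ring
          rw [e1]
          refine u2.le.trans ?_
          linarith⟩)).1
      have e2 : γ t0 i - k1 * t0 + k1 * (-1 / 2 + ((k1 : ℝ) + 1)) + ((0 : ℤ) : ℝ) = γ t0 i := by
        rw [ht0]; push_cast; ring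
      have e3 : (-1 / 2 + ((k1 : ℝ) + 1)) = t0 := by rw [ht0]; ring
      rw [e2, e3, hHP] at h1
      have hs0 := Pool.Agent.W764.TL.sg_nonneg (yy (3 ^ k1) (-1 / 2) (γ t0 i - k1 * t0)
        (P (γ t0 i) (deriv γ t0 i) t0))
      have h3 : 1 / (2 * ((3 : ℝ) ^ k1) ^ 2) ≤ 1 := by
        rw [div_le_one (by positivity)]
        have : (1 : ℝ) ≤ ((3 : ℝ) ^ k1) ^ 2 := one_le_pow₀ (one_le_pow₀ (by norm_num))
        linarith
      have h4 := (abs_le.1 h1).1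
      linarith
    have hstep : ∀ T, t0 ≤ T → (∀ t, t0 ≤ t → t ≤ T → t - 4 < ‖deriv γ t‖) →
        ∀ i, T - 5 / 2 ≤ deriv γ T i := fun T hT hV i =>
      far_step3 hε1 hε hfar hcl hk8 hk1R hcore hγ hU hT hV i
    set i0 : Fin n := ⟨0, hn⟩ with hi0
    have hgood : ∀ t, t0 ≤ t → t - 4 < ‖deriv γ t‖ := by
      by_contra hcon
      push Not at hcon
      obtain ⟨s, hs1, hs2⟩ := hcon
      set Bad : Set ℝ := {t | t0 ≤ t ∧ ‖deriv γ t‖ ≤ t - 4} with hBad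
      have hclo : IsClosed Bad := by
        have e1 : IsClosed {t : ℝ | t0 ≤ t} := isClosed_Ici
        have e2 : IsClosed {t : ℝ | ‖deriv γ t‖ ≤ t - 4} :=
          isClosed_le hVc.norm (by fun_prop)
        exact e1.inter e2
      have hbb : BddBelow Bad := ⟨t0, fun t ht => ht.1⟩
      have hmem : sInf Bad ∈ Bad := hclo.csInf_mem ⟨s, hs1, hs2⟩ hbb
      set T := sInf Bad with hTd
      have hTlt : t0 < T := by
        rcases eq_or_lt_of_le hmem.1 with h1 | h1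
        · exfalso
          have h2 := hmem.2
          rw [← h1] at h2
          linarith [hV0 i0, hge (deriv γ t0) i0]
        · exact h1
      have hlow : ∀ t, t0 ≤ t → t < T → t - 4 < ‖deriv γ t‖ := by
        intro t h1 h2
        by_contra h3
        push Not at h3
        have h4 : T ≤ t := csInf_le hbb ⟨h1, h3⟩
        linarith
      have hcl2 : IsClosed {t : ℝ | t - 5 / 2 ≤ deriv γ t i0} :=
        isClosed_le (by fun_prop) ((continuous_apply i0).comp hVc)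
      have hsub : Ico t0 T ⊆ {t : ℝ | t - 5 / 2 ≤ deriv γ t i0} := by
        intro t ht
        exact hstep t ht.1 (fun s h1 h2 => hlow s h1 (lt_of_le_of_lt h2 ht.2)) i0
      have hTm : T ∈ closure (Ico t0 T) := by
        rw [closure_Ico hTlt.ne]
        exact ⟨hTlt.le, le_rfl⟩
      have h5 : T - 5 / 2 ≤ deriv γ T i0 := (hcl2.closure_subset_iff.2 hsub) hTm
      have h6 := hmem.2
      have h7 := hge (deriv γ T) i0
      linarith
    intro i t ht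
    exact hstep t ht (fun s h1 _ => hgood s h1) i


end

section

variable {n : ℕ}

theorem dense4 (hn : 1 ≤ n) {k : ℕ∞} (hk : 2 ≤ k)
    {L0 : (Fin n → ℝ) → (Fin n → ℝ) → ℝ → ℝ}
    (h0 : ContDiff ℝ k (fun q : (Fin n → ℝ) × (Fin n → ℝ) × ℝ => L0 q.1 q.2.1 q.2.2))
    (h0p : PerL L0)
    (h0d : ∀ (x v : Fin n → ℝ) (t : ℝ) (w : Fin n → ℝ), w ≠ 0 →
      0 < deriv (deriv (fun s : ℝ => L0 x (v + s • w) t)) 0) (R : ℝ) :
    ∃ L : (Fin n → ℝ) → (Fin n → ℝ) → ℝ → ℝ,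
      ContDiff ℝ k (fun q : (Fin n → ℝ) × (Fin n → ℝ) × ℝ => L q.1 q.2.1 q.2.2) ∧ PerL L ∧
      (∀ (x v : Fin n → ℝ) (t : ℝ) (w : Fin n → ℝ), w ≠ 0 →
        0 < deriv (deriv (fun s : ℝ => L x (v + s • w) t)) 0) ∧
      (∀ K : ℝ, ∃ B : ℝ, ∀ (x v : Fin n → ℝ) (t : ℝ), K * ‖v‖ - B ≤ L x v t) ∧
      (∀ (t0 : ℝ) (x0 v0 : Fin n → ℝ), ∃ γ : ℝ → (Fin n → ℝ),
        IsEL L γ ∧ γ t0 = x0 ∧ deriv γ t0 = v0) ∧
      (∀ (x v : Fin n → ℝ) (t : ℝ), ‖v‖ ≤ R → L x v t = L0 x v t) ∧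
      ∃ ε : ℕ → ℝ, (∀ m, 0 < ε m) ∧
        ∀ G : ℝ, ∃ (t0 : ℝ) (U : Set ((Fin n → ℝ) × (Fin n → ℝ))), IsOpen U ∧ U.Nonempty ∧
          ∀ L' : (Fin n → ℝ) → (Fin n → ℝ) → ℝ → ℝ, Sm L' → PerL L' → Pos L' →
            Close L L' ε G →
            (∀ f : (Fin n → ℝ) → ℝ → ℝ, C2 f → PerF f →
              Sup (fun x v t => L' x v t + f x t) ∧
              (∀ (t0 : ℝ) (x0 v0 : Fin n → ℝ), ∃ γ : ℝ → (Fin n → ℝ),
                IsEL (fun x v t => L' x v t + f x t) γ ∧ γ t0 = x0 ∧ deriv γ t0 = v0)) ∧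
            ∀ f : (Fin n → ℝ) → ℝ → ℝ, C2 f →
              (∀ (i : Fin n) (x : Fin n → ℝ) (t : ℝ), |Df f i x t| ≤ G) →
              ∀ γ : ℝ → (Fin n → ℝ), IsEL (fun x v t => L' x v t + f x t) γ →
                (γ t0, deriv γ t0) ∈ U →
                ∀ (i : Fin n) (t : ℝ), t0 ≤ t → t - 5 / 2 ≤ deriv γ t i := by
  have k2 := two_le hk
  obtain ⟨l, P, hl, hP, hHP0, hPH0, hlv, hlx0, hPv, hls, hlp⟩ :=
    Pool.Agent.W236.TL.LEG.leg_thm Pool.Agent.W774.TL.h (M2.h_smooth smooth der)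
      (M2.hpp_pos der (Pool.Agent.W891.TL.cvx_thm sum_thm))
      (Pool.Agent.W819.TL.sup_thm sum_thm).1 (Pool.Agent.W819.TL.sup_thm sum_thm).2 M2.h_per
  have hHP : ∀ x v t : ℝ, hp x (P x v t) t = v := by
    intro x v t
    rw [← (M2.hp_deriv der x (P x v t) t).deriv]
    exact hHP0 x v t
  have hPH : ∀ x p t : ℝ, P x (hp x p t) t = p := by
    intro x p t
    rw [← (M2.hp_deriv der x p t).deriv]
    exact hPH0 x p t
  have hlx : ∀ x v t : ℝ, HasDerivAt (fun s => l s v t) (fo x (P x v t) t) x := by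
    intro x v t
    have := hlx0 x v t
    rw [(M2.hx_deriv der x (P x v t) t).deriv, neg_neg] at this
    exact this
  obtain ⟨hY, hYp, hYd, hYs, -⟩ :=
    M2.tonelli_lag (n := n) l P hl hP hlv hlx hHP hPH hPv hls hlp compl
  have hYc : ContDiff ℝ (⊤ : ℕ∞) (UU (M2.Lag n l)) := hY
  have hYk : ContDiff ℝ k (UU (M2.Lag n l)) := hYc.of_le k_le
  have hLag : Sm (M2.Lag n l) := hYk.of_le k2
  have h0k : ContDiff ℝ k (UU L0) := h0
  have h0S : Sm L0 := h0k.of_le k2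
  obtain ⟨B, hBk, hBp, hBd, hBs, hBR, R', c, hBc⟩ := glue_thm hk (U0 := UU L0)
    (Y0 := UU (M2.Lag n l)) h0k (fun x v t k l => h0p x v t k l)
    ((pos_iff h0S).1 h0d) hYk (fun x v t k m => hYp x v t k m)
    ((pos_iff hLag).1 hYd) (fun K => by
      obtain ⟨C, hC⟩ := hYs K
      exact ⟨C, fun q => hC q.1 q.2.1 q.2.2⟩) R
  have hB2 : ContDiff ℝ 2 B := hBk.of_le k2
  have hS : Sm (fun x v t => B (x, v, t)) := hB2
  have hBper : PerL (fun x v t => B (x, v, t)) := fun x v t k m => hBp x v t k m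
  have hPos : Pos (fun x v t => B (x, v, t)) := (pos_iff hS).2 hBd
  have hSup : Sup (fun x v t => B (x, v, t)) := fun K => by
    obtain ⟨C, hC⟩ := hBs K
    exact ⟨C, fun x v t => hC (x, v, t)⟩
  have hfar : Far (fun x v t => B (x, v, t)) P R' := far_of_glue hlv hlx hLag hB2 hBc
  obtain ⟨C, hC0, hC⟩ := grow_of_far hB2 hBp hHP hfar
  obtain ⟨ε, hε1, hε⟩ := eps_exists hP hlv hlp hHP
  refine ⟨fun x v t => B (x, v, t), hBk, hBper, hPos, hSup, ?_, ?_, ε,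
    fun m => (hε1 m).1, ?_⟩
  · intro t0 x0 v0
    have hf : C2 (fun (_ : Fin n → ℝ) (_ : ℝ) => (0 : ℝ)) := contDiff_const
    obtain ⟨G, hG0, hG⟩ := Pool.Agent.W787.TL.gb_thm n _ hf (fun _ _ _ _ => rfl)
    obtain ⟨γ, h1, h2, h3⟩ := complete hS hPos hSup hC0 hC hf hG0 hG t0 x0 v0
    simp only [add_zero] at h1
    exact ⟨γ, h1, h2, h3⟩
  · intro x v t hv
    exact hBR (x, v, t) hv
  · intro G
    obtain ⟨t0, U, hU1, hU2, hU3⟩ := escape4 hn hP hHP hPH hε1 hε hfar (G + G)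
    refine ⟨t0, U, hU1, hU2, ?_⟩
    intro L' hS' hper' hpos' hcl
    have hsup' : Sup L' := sup_close hS hS' hBper hper' hSup (fun m => (hε1 m).2) hcl
    refine ⟨?_, ?_⟩
    · intro f hf hfp
      obtain ⟨G', hG0, hG⟩ := Pool.Agent.W787.TL.gb_thm n f hf hfp
      have hcl2 := close_add hS' hcl hf hG
      have hSf := sm_add hS' hf
      have hpf := per_add hper' hfp
      refine ⟨sup_close hS hSf hBper hpf hSup (fun m => (hε1 m).2) hcl2, ?_⟩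
      intro t1 x0 v0
      have hgrow := grow_close hC0 hC (fun m => (hε1 m).2) hcl
      exact complete hS' hpos' hsup' (by positivity) hgrow hf hG0 hG t1 x0 v0
    · intro f hf hG
      exact hU3 L' hS' hpos' hsup' f hf (close_add hS' hcl hf hG)

end

end Pool.Agent.TH217.TL
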