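import Pool.Agent.TH217.TL.Two2
import Pool.Agent.W774.TL.Final

/-!
The one-step lemma and the acceleration statement for approximate solutions, on a finite time
interval.
-/

set_option autoImplicit false

namespace Pool.Agent.TH217.TL

open Set Filter Topology
open Pool.Agent.W774.TL

/-- approximate solution at level `k` -/
def Approx (G : ℝ) (x p x' p' : ℝ → ℝ) (k : ℕ) : Prop :=
  ∀ t ∈ Icc ((k : ℝ) + 1 / 2) (k + 3 / 2), HasDerivAt x (x' t) t ∧ HasDerivAt p (p' t) t ∧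
    |x' t - hp (x t) (p t) t| ≤ 1 / (2 * ((3 : ℝ) ^ k) ^ 2) ∧ |p' t - fo (x t) (p t) t| ≤ G

theorem step2 {K0 : ℕ} (h1 : ∀ (k : ℕ), K0 ≤ k → ∀ (N : ℤ) (τ a p : ℝ),
    (R1 (3 ^ k) τ a p ∨ R3 (3 ^ k) τ a p) →
    |hp (a + k * (τ + (k + 1)) + N) p (τ + (k + 1)) - k - sg (yy (3 ^ k) τ a p)|
        ≤ 1 / (2 * ((3 : ℝ) ^ k) ^ 2) ∧
    |fo (a + k * (τ + (k + 1)) + N) p (τ + (k + 1))
        - 3 ^ k * ((1 - sg (yy (3 ^ k) τ a p)) * Co a + 3 * sg (yy (3 ^ k) τ a p) * Co (a - τ))| ≤ 1)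
    {G A0 : ℝ} (h2 : ∀ A : ℝ, A0 ≤ A → ∀ a p a' p' : ℝ → ℝ,
      Sys A G a p a' p' (-1 / 2) (1 / 2) →
      |a (-1 / 2)| ≤ 1 / 1000 → |p (-1 / 2) - A| ≤ A / 1000 →
      (∀ τ ∈ Icc (-1 / 2 : ℝ) (1 / 2), R1 A τ (a τ) (p τ) ∨ R3 A τ (a τ) (p τ)) ∧
      |a (1 / 2) - 1 / 2| ≤ 1 / 1000 ∧ |p (1 / 2) - 3 * A| ≤ 3 * A / 1000)
    {x p x' p' : ℝ → ℝ} {k : ℕ} (hs : Approx G x p x' p' k)
    (hk : K0 ≤ k) (hA : A0 ≤ (3 : ℝ) ^ k) {N : ℤ} (hB : Pool.Agent.W764.TL.Box x p k N) :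
    (∀ t ∈ Icc ((k : ℝ) + 1 / 2) (k + 3 / 2), (k : ℝ) - 1 ≤ x' t) ∧
      Pool.Agent.W764.TL.Box x p (k + 1) (N - (k + 1)) := by
  set a : ℝ → ℝ := fun τ => x (τ + (k + 1)) - k * (τ + (k + 1)) - N with ha
  set pp : ℝ → ℝ := fun τ => p (τ + (k + 1)) with hpp
  have hxa : ∀ τ : ℝ, a τ + k * (τ + (k + 1)) + N = x (τ + (k + 1)) := by
    intro τ
    simp only [ha]
    ring
  have hin : ∀ τ ∈ Icc (-1 / 2 : ℝ) (1 / 2), τ + ((k : ℝ) + 1) ∈
      Icc ((k : ℝ) + 1 / 2) (k + 3 / 2) := by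
    intro τ hτ
    constructor
    · linarith [hτ.1]
    · linarith [hτ.2]
  have hbound : ∀ τ ∈ Icc (-1 / 2 : ℝ) (1 / 2),
      (R1 (3 ^ k) τ (a τ) (pp τ) ∨ R3 (3 ^ k) τ (a τ) (pp τ)) →
      |x' (τ + (k + 1)) - k - sg (yy (3 ^ k) τ (a τ) (pp τ))| ≤ 1 / ((3 : ℝ) ^ k) ^ 2 := by
    intro τ hτ hR
    obtain ⟨-, -, d3, -⟩ := hs _ (hin τ hτ)
    obtain ⟨f1, -⟩ := h1 k hk N τ (a τ) (pp τ) hR
    rw [hxa τ] at f1
    have e1 : x' (τ + (k + 1)) - k - sg (yy (3 ^ k) τ (a τ) (pp τ)) =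
        (x' (τ + (k + 1)) - hp (x (τ + (k + 1))) (p (τ + (k + 1))) (τ + (k + 1))) +
        (hp (x (τ + (k + 1))) (pp τ) (τ + (k + 1)) - k - sg (yy (3 ^ k) τ (a τ) (pp τ))) := by
      simp only [hpp]
      ring
    rw [e1]
    refine (abs_add_le _ _).trans ((add_le_add d3 f1).trans (le_of_eq ?_))
    have : ((3 : ℝ) ^ k) ^ 2 ≠ 0 := by positivity
    field_simp
    norm_num
  have hSys : Sys (3 ^ k) G a pp (fun τ => x' (τ + (k + 1)) - k)
      (fun τ => p' (τ + (k + 1))) (-1 / 2) (1 / 2) := by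
    intro τ hτ
    obtain ⟨d1, d2, -, d4⟩ := hs _ (hin τ hτ)
    refine ⟨?_, ?_, ?_⟩
    · have e1 : HasDerivAt (fun s : ℝ => x (s + (k + 1))) _ τ := d1.comp_add_const τ ((k : ℝ) + 1)
      have e2 : HasDerivAt (fun s : ℝ => (k : ℝ) * (s + (k + 1))) ((k : ℝ) * 1) τ :=
        ((hasDerivAt_id τ).add_const _).const_mul _
      have e3 := (e1.sub e2).sub_const (N : ℝ)
      rw [mul_one] at e3
      exact e3
    · exact d2.comp_add_const τ ((k : ℝ) + 1)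
    · intro hR
      refine ⟨hbound τ hτ hR, ?_⟩
      obtain ⟨-, f2⟩ := h1 k hk N τ (a τ) (pp τ) hR
      rw [hxa τ] at f2
      have f3 : p' (τ + (k + 1)) -
          3 ^ k * ((1 - sg (yy (3 ^ k) τ (a τ) (pp τ))) * Co (a τ) +
            3 * sg (yy (3 ^ k) τ (a τ) (pp τ)) * Co (a τ - τ)) =
          (fo (x (τ + (k + 1))) (pp τ) (τ + (k + 1)) -
          3 ^ k * ((1 - sg (yy (3 ^ k) τ (a τ) (pp τ))) * Co (a τ) +
            3 * sg (yy (3 ^ k) τ (a τ) (pp τ)) * Co (a τ - τ))) +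
          (p' (τ + (k + 1)) - fo (x (τ + (k + 1))) (p (τ + (k + 1))) (τ + (k + 1))) := by
        simp only [hpp]
        ring
      rw [f3]
      exact (abs_add_le _ _).trans (add_le_add f2 d4)
  have hm : (-1 / 2 : ℝ) + (k + 1) = k + 1 / 2 := by ring
  have hi1 : |a (-1 / 2)| ≤ 1 / 1000 := by
    have : a (-1 / 2) = x ((k : ℝ) + 1 / 2) - k * (k + 1 / 2) - N := by
      simp only [ha]
      rw [hm]
    rw [this]
    exact hB.1
  have hi2 : |pp (-1 / 2) - 3 ^ k| ≤ 3 ^ k / 1000 := by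
    have : pp (-1 / 2) = p ((k : ℝ) + 1 / 2) := by
      simp only [hpp]
      rw [hm]
    rw [this]
    exact hB.2
  obtain ⟨c1, c2, c3⟩ := h2 (3 ^ k) hA a pp _ _ hSys hi1 hi2
  refine ⟨?_, ?_, ?_⟩
  · intro t ht
    obtain ⟨ht1, ht2⟩ := ht
    have hτ : t - (k + 1) ∈ Icc (-1 / 2 : ℝ) (1 / 2) := by
      constructor <;> linarith
    have f1 := hbound _ hτ (c1 _ hτ)
    simp only [sub_add_cancel] at f1
    have hs0 := Pool.Agent.W764.TL.sg_nonneg (yy (3 ^ k) (t - (k + 1)) (a (t - (k + 1)))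
      (pp (t - (k + 1))))
    have h3 : 1 / ((3 : ℝ) ^ k) ^ 2 ≤ 1 := by
      rw [div_le_one (by positivity)]
      exact one_le_pow₀ (one_le_pow₀ (by norm_num))
    have h4 := (abs_le.1 f1).1
    linarith
  · have hx : (((k + 1 : ℕ) : ℝ)) + 1 / 2 = 1 / 2 + ((k : ℝ) + 1) := by
      push_cast
      ring
    have : x (((k + 1 : ℕ) : ℝ) + 1 / 2) - ((k + 1 : ℕ) : ℝ) * (((k + 1 : ℕ) : ℝ) + 1 / 2) -
        ((N - (k + 1) : ℤ) : ℝ) = a (1 / 2) - 1 / 2 := by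
      rw [hx]
      simp only [ha]
      push_cast
      ring
    rw [this]
    exact c2
  · have hx : (((k + 1 : ℕ) : ℝ)) + 1 / 2 = 1 / 2 + ((k : ℝ) + 1) := by
      push_cast
      ring
    have h5 : p (((k + 1 : ℕ) : ℝ) + 1 / 2) = pp (1 / 2) := by
      rw [hx]
    rw [h5, pow_succ, mul_comm ((3 : ℝ) ^ k) 3]
    exact c3

/-- approximate solutions accelerate as long as they are approximate solutions. -/
theorem core3 (G : ℝ) (hG : 0 ≤ G) : ∃ k0 : ℕ, ∀ k1 : ℕ, k0 ≤ k1 → ∀ K : ℕ,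
    ∀ x p x' p' : ℝ → ℝ, (∀ k : ℕ, k1 ≤ k → k ≤ K → Approx G x p x' p' k) →
    ∀ N : ℤ, |x (k1 + 1 / 2) - k1 * (k1 + 1 / 2) - N| ≤ 1 / 1000 →
    |p (k1 + 1 / 2) - 3 ^ k1| ≤ 3 ^ k1 / 1000 →
    ∀ k : ℕ, k1 ≤ k → k ≤ K → ∀ t ∈ Icc ((k : ℝ) + 1 / 2) (k + 3 / 2), (k : ℝ) - 1 ≤ x' t := by
  obtain ⟨K0, h1⟩ := two2 sum_thm Pool.Agent.W509.TL.DOM1.dom1_thm Pool.Agent.W234.TL.dom3_thm
  obtain ⟨A0, h2⟩ := Pool.Agent.W774.TL.step G hG
  obtain ⟨m, hm⟩ := pow_unbounded_of_one_lt A0 (by norm_num : (1 : ℝ) < 3)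
  refine ⟨max K0 m, ?_⟩
  intro k1 hk1 K x p x' p' hs N hN1 hN2
  have key : ∀ k : ℕ, k1 ≤ k → k ≤ K → ∃ N : ℤ, Pool.Agent.W764.TL.Box x p k N := by
    intro k hk
    induction k, hk using Nat.le_induction with
    | base => exact fun _ => ⟨N, hN1, hN2⟩
    | succ k hk ih =>
      intro hkK
      obtain ⟨N', hN'⟩ := ih (by omega)
      exact ⟨_, (step2 h1 h2 (hs k hk (by omega)) ((le_max_left _ _).trans (hk1.trans hk))
        (hm.le.trans (pow_le_pow_right₀ (by norm_num)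
          ((le_max_right _ _).trans (hk1.trans hk)))) hN').2⟩
  intro k hk hkK t ht
  obtain ⟨N', hN'⟩ := key k hk hkK
  exact (step2 h1 h2 (hs k hk hkK) ((le_max_left _ _).trans (hk1.trans hk))
    (hm.le.trans (pow_le_pow_right₀ (by norm_num)
      ((le_max_right _ _).trans (hk1.trans hk)))) hN').1 t ht

/-! ### exact solutions of the system with constant errors -/

/-- the field -/
noncomputable def FC (α β : ℝ) (z : ℝ × ℝ × ℝ) : ℝ × ℝ × ℝ :=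
  (hp z.1 z.2.1 z.2.2 + α, fo z.1 z.2.1 z.2.2 + β, 1)

lemma FC_cd (α β : ℝ) : ContDiff ℝ 1 (FC α β) :=
  ((Pool.Agent.W599.TL.hp_cd smooth der).add contDiff_const).prodMk
    (((Pool.Agent.W599.TL.fo_cd smooth der).add contDiff_const).prodMk contDiff_const)

lemma FC_bd (α β : ℝ) (z : ℝ × ℝ × ℝ) : ‖FC α β z‖ ≤ (100 + |α| + |β|) * (1 + ‖z‖) := by
  have h3 := Pool.Agent.W583.TL.grow_thm sum_thm z.1 z.2.1 z.2.2
  have hz0 : 0 ≤ ‖z‖ := norm_nonneg z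
  have hpz : |z.2.1| ≤ ‖z‖ := (norm_fst_le z.2).trans (norm_snd_le z)
  have hα := abs_nonneg α
  have hβ := abs_nonneg β
  have h1 : 0 ≤ |α| * ‖z‖ := by positivity
  have h2 : 0 ≤ |β| * ‖z‖ := by positivity
  unfold FC
  refine max_le ?_ (max_le ?_ ?_)
  · have := abs_add_le (hp z.1 z.2.1 z.2.2) α
    show |hp z.1 z.2.1 z.2.2 + α| ≤ _
    nlinarith [h3.2]
  · have := abs_add_le (fo z.1 z.2.1 z.2.2) β
    show |fo z.1 z.2.1 z.2.2 + β| ≤ _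
    nlinarith [h3.1]
  · show ‖(1 : ℝ)‖ ≤ _
    rw [norm_one]
    nlinarith

theorem ext_sol (α β T x0 p0 : ℝ) : ∃ x p : ℝ → ℝ, x T = x0 ∧ p T = p0 ∧
    ∀ t, HasDerivAt x (hp (x t) (p t) t + α) t ∧ HasDerivAt p (fo (x t) (p t) t + β) t := by
  obtain ⟨γ, ha0, ha⟩ := Pool.Agent.Helper981.global_sol (F := FC α β) (FC_cd α β)
    (A := 100 + |α| + |β|) (by positivity) (FC_bd α β) (x0, p0, T)
  have hT : ∀ s, (γ s).2.2 = T + s := by
    have hd : ∀ s, HasDerivAt (fun s => (γ s).2.2) 1 s := fun s => ((ha s).snd).snd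
    have hd2 : ∀ s, HasDerivAt (fun s => (γ s).2.2 - s) 0 s := by
      intro s
      have := (hd s).fun_sub (hasDerivAt_id s)
      simpa using this
    have hc := is_const_of_deriv_eq_zero (f := fun s => (γ s).2.2 - s)
      (fun s => (hd2 s).differentiableAt) (fun s => (hd2 s).deriv)
    intro s
    have h5 := hc s 0
    simp only [ha0, sub_zero] at h5
    linarith
  have hsh : ∀ t : ℝ, HasDerivAt (fun t => γ (t - T)) (FC α β (γ (t - T))) t := by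
    intro t
    exact (ha (t - T)).comp_sub_const t T
  refine ⟨fun t => (γ (t - T)).1, fun t => (γ (t - T)).2.1, ?_, ?_, ?_⟩
  · simp [ha0]
  · simp [ha0]
  · intro t
    have e : (γ (t - T)).2.2 = t := by rw [hT]; ring
    have hx : HasDerivAt (fun t => (γ (t - T)).1) (FC α β (γ (t - T))).1 t := (hsh t).fst
    have hy : HasDerivAt (fun t => (γ (t - T)).2.1) (FC α β (γ (t - T))).2.1 t :=
      ((hsh t).snd).fst
    constructor
    · have : (FC α β (γ (t - T))).1 = hp (γ (t - T)).1 (γ (t - T)).2.1 t + α := by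
        unfold FC
        simp only [e]
      rw [this] at hx
      exact hx
    · have : (FC α β (γ (t - T))).2.1 = fo (γ (t - T)).1 (γ (t - T)).2.1 t + β := by
        unfold FC
        simp only [e]
      rw [this] at hy
      exact hy

end Pool.Agent.TH217.TL
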