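import Pool.Agent.TH217.TL.Leg

/-!
Calculus for the gluing: the smooth ramp `mm`, second derivatives along the fibre, and the convex
exhaustion `rr`.
-/

set_option autoImplicit false

namespace Pool.Agent.TH217.TL

open Set Filter Topology
open scoped ContDiff

/-! ### the ramp -/

/-- the smooth ramp: `0` for `s ≤ 0`, slope `1` for `s ≥ 1`. -/
noncomputable def mm (s : ℝ) : ℝ := ∫ u in (0 : ℝ)..s, Real.smoothTransition u

lemma mm_hd (s : ℝ) : HasDerivAt mm (Real.smoothTransition s) s :=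
  intervalIntegral.integral_hasDerivAt_right
    (Real.smoothTransition.continuous.intervalIntegrable _ _)
    (Real.smoothTransition.continuous.stronglyMeasurableAtFilter _ _)
    Real.smoothTransition.continuousAt

lemma st_cd : ContDiff ℝ (⊤ : ℕ∞) Real.smoothTransition := Real.smoothTransition.contDiff

lemma mm_cd : ContDiff ℝ (⊤ : ℕ∞) mm := by
  rw [show ((⊤ : ℕ∞) : WithTop ℕ∞) = ∞ from rfl, contDiff_infty_iff_deriv]
  refine ⟨fun s => (mm_hd s).differentiableAt, ?_⟩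
  rw [show deriv mm = Real.smoothTransition from funext fun s => (mm_hd s).deriv]
  exact st_cd

lemma mm_zero {s : ℝ} (hs : s ≤ 0) : mm s = 0 := by
  unfold mm
  rw [intervalIntegral.integral_congr (g := fun _ => (0 : ℝ))]
  · simp
  · intro u hu
    rw [uIcc_of_ge hs] at hu
    exact Real.smoothTransition.zero_of_nonpos hu.2

lemma mm_nonneg (s : ℝ) : 0 ≤ mm s := by
  rcases le_total s 0 with hs | hs
  · rw [mm_zero hs]
  · exact intervalIntegral.integral_nonneg hs fun u _ => Real.smoothTransition.nonneg u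

lemma mm_one {s : ℝ} (hs : 1 ≤ s) : mm s = s - (1 - mm 1) := by
  have h1 : mm s = mm 1 + ∫ u in (1 : ℝ)..s, Real.smoothTransition u := by
    unfold mm
    rw [intervalIntegral.integral_add_adjacent_intervals
      (Real.smoothTransition.continuous.intervalIntegrable _ _)
      (Real.smoothTransition.continuous.intervalIntegrable _ _)]
  have h2 : (∫ u in (1 : ℝ)..s, Real.smoothTransition u) = s - 1 := by
    rw [intervalIntegral.integral_congr (g := fun _ => (1 : ℝ))]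
    · simp
    · intro u hu
      rw [uIcc_of_le hs] at hu
      exact Real.smoothTransition.one_of_one_le hu.1
  rw [h1, h2]
  ring

lemma mm_le {s : ℝ} (hs : 0 ≤ s) : mm s ≤ s := by
  have h1 : mm s ≤ ∫ _ in (0 : ℝ)..s, (1 : ℝ) :=
    intervalIntegral.integral_mono_on hs
      (Real.smoothTransition.continuous.intervalIntegrable _ _)
      (continuous_const.intervalIntegrable _ _) fun u _ => Real.smoothTransition.le_one u
  simpa using h1

lemma st_deriv_nonneg (s : ℝ) : 0 ≤ deriv Real.smoothTransition s :=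
  Real.smoothTransition.monotone.deriv_nonneg

lemma st_hd (s : ℝ) : HasDerivAt Real.smoothTransition (deriv Real.smoothTransition s) s :=
  ((st_cd.differentiable (by simp)) s).hasDerivAt

lemma st_deriv_one {s : ℝ} (hs : 1 < s) : deriv Real.smoothTransition s = 0 := by
  have h1 : Real.smoothTransition =ᶠ[𝓝 s] fun _ => (1 : ℝ) := by
    filter_upwards [Ioi_mem_nhds hs] with u hu
    exact Real.smoothTransition.one_of_one_le (le_of_lt hu)
  rw [h1.deriv_eq]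
  simp

/-! ### second derivatives along the fibre -/

section

variable {n : ℕ}

/-- second derivative along the fibre of a function on the product. -/
noncomputable def H2 (F : (Fin n → ℝ) × (Fin n → ℝ) × ℝ → ℝ)
    (q : (Fin n → ℝ) × (Fin n → ℝ) × ℝ) (w : Fin n → ℝ) : ℝ :=
  fderiv ℝ (fderiv ℝ F) q (0, w, 0) (0, w, 0)

/-- first derivative along the fibre. -/
noncomputable def H1 (F : (Fin n → ℝ) × (Fin n → ℝ) × ℝ → ℝ)
    (q : (Fin n → ℝ) × (Fin n → ℝ) × ℝ) (w : Fin n → ℝ) : ℝ :=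
  fderiv ℝ F q (0, w, 0)

variable {F F' : (Fin n → ℝ) × (Fin n → ℝ) × ℝ → ℝ}

lemma sm_diff (h : ContDiff ℝ 2 F) : Differentiable ℝ F := h.differentiable (by norm_num)

lemma k_le {k : ℕ∞} : (k : WithTop ℕ∞) ≤ ((⊤ : ℕ∞) : WithTop ℕ∞) := WithTop.coe_le_coe.2 le_top

lemma two_le {k : ℕ∞} (hk : 2 ≤ k) : (2 : WithTop ℕ∞) ≤ (k : WithTop ℕ∞) :=
  (WithTop.coe_le_coe.2 hk : ((2 : ℕ∞) : WithTop ℕ∞) ≤ _)

lemma mm_cd2 : ContDiff ℝ 2 mm := mm_cd.of_le (k_le (k := 2))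

lemma sm_fd (h : ContDiff ℝ 2 F) : ContDiff ℝ 1 (fderiv ℝ F) :=
  ContDiff.fderiv_right (m := 1) h (by norm_num)

lemma qline_hd (q e : (Fin n → ℝ) × (Fin n → ℝ) × ℝ) (s : ℝ) :
    HasDerivAt (fun s : ℝ => q + s • e) e s := by
  simpa using ((hasDerivAt_id s).smul_const e).const_add q

lemma H1_hd (h : ContDiff ℝ 2 F) (q : (Fin n → ℝ) × (Fin n → ℝ) × ℝ) (w : Fin n → ℝ)
    (s : ℝ) : HasDerivAt (fun s : ℝ => F (q + s • ((0, w, 0) : (Fin n → ℝ) × (Fin n → ℝ) × ℝ)))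
      (H1 F (q + s • ((0, w, 0) : (Fin n → ℝ) × (Fin n → ℝ) × ℝ)) w) s := by
  have h1 := (sm_diff h (q + s • ((0, w, 0) : (Fin n → ℝ) × (Fin n → ℝ) × ℝ))).hasFDerivAt
  have h2 := h1.comp_hasDerivAt s (qline_hd q _ s)
  exact h2

lemma H2_hd (h : ContDiff ℝ 2 F) (q : (Fin n → ℝ) × (Fin n → ℝ) × ℝ) (w : Fin n → ℝ)
    (s : ℝ) :
    HasDerivAt (fun s : ℝ => H1 F (q + s • ((0, w, 0) : (Fin n → ℝ) × (Fin n → ℝ) × ℝ)) w)
      (H2 F (q + s • ((0, w, 0) : (Fin n → ℝ) × (Fin n → ℝ) × ℝ)) w) s := by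
  have h0 : HasFDerivAt (fun q => fderiv ℝ F q ((0, w, 0) : (Fin n → ℝ) × (Fin n → ℝ) × ℝ))
      ((ContinuousLinearMap.apply ℝ ℝ ((0, w, 0) : (Fin n → ℝ) × (Fin n → ℝ) × ℝ)).comp
        (fderiv ℝ (fderiv ℝ F) (q + s • ((0, w, 0) : (Fin n → ℝ) × (Fin n → ℝ) × ℝ))))
      (q + s • ((0, w, 0) : (Fin n → ℝ) × (Fin n → ℝ) × ℝ)) :=
    (ContinuousLinearMap.apply ℝ ℝ ((0, w, 0) : (Fin n → ℝ) × (Fin n → ℝ) × ℝ)).hasFDerivAt.comp _
      (((sm_fd h).differentiable (by norm_num)) _).hasFDerivAt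
  have h2 := h0.comp_hasDerivAt s (qline_hd q _ s)
  exact h2

lemma H2_line (h : ContDiff ℝ 2 F) (q : (Fin n → ℝ) × (Fin n → ℝ) × ℝ) (w : Fin n → ℝ)
    (g : ℝ → ℝ) (c : ℝ)
    (h1 : ∀ s, HasDerivAt
      (fun s : ℝ => F (q + s • ((0, w, 0) : (Fin n → ℝ) × (Fin n → ℝ) × ℝ))) (g s) s)
    (h2 : HasDerivAt g c 0) : H2 F q w = c := by
  have e1 : g = fun s : ℝ => H1 F (q + s • ((0, w, 0) : (Fin n → ℝ) × (Fin n → ℝ) × ℝ)) w :=
    funext fun s => (h1 s).unique (H1_hd h q w s)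
  rw [e1] at h2
  have h3 := H2_hd h q w 0
  rw [zero_smul, add_zero] at h3
  exact h3.unique h2

/-- the gluing formula. -/
lemma H2_glue {A Y : (Fin n → ℝ) × (Fin n → ℝ) × ℝ → ℝ} (hA : ContDiff ℝ 2 A)
    (hY : ContDiff ℝ 2 Y) (κ c : ℝ) (q : (Fin n → ℝ) × (Fin n → ℝ) × ℝ)
    (w : Fin n → ℝ) :
    H2 (fun q => Y q + κ * mm (A q - c)) q w
      = H2 Y q w + κ * (Real.smoothTransition (A q - c) * H2 A q w
        + deriv Real.smoothTransition (A q - c) * H1 A q w ^ 2) := by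
  have hB : ContDiff ℝ 2 (fun q => Y q + κ * mm (A q - c)) :=
    hY.add (contDiff_const.mul (mm_cd2.comp (hA.sub contDiff_const)))
  refine H2_line hB q w (fun s => H1 Y (q + s • ((0, w, 0) : (Fin n → ℝ) × (Fin n → ℝ) × ℝ)) w
    + κ * (Real.smoothTransition (A (q + s • ((0, w, 0) : (Fin n → ℝ) × (Fin n → ℝ) × ℝ)) - c)
      * H1 A (q + s • ((0, w, 0) : (Fin n → ℝ) × (Fin n → ℝ) × ℝ)) w)) _ ?_ ?_
  · intro s
    have h1 := H1_hd hY q w s
    have h2 := (H1_hd hA q w s).sub_const c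
    have h3 := (mm_hd _).comp s h2
    exact h1.fun_add (h3.const_mul κ)
  · have h1 := H2_hd hY q w 0
    have h2 := (H1_hd hA q w 0).sub_const c
    have h4 := (st_hd _).comp (0 : ℝ) h2
    have h5 := H2_hd hA q w 0
    have h6 := h1.fun_add ((h4.fun_mul h5).const_mul κ)
    simp only [zero_smul, add_zero] at h6
    have e : H2 Y q w + κ * (Real.smoothTransition (A q - c) * H2 A q w
        + deriv Real.smoothTransition (A q - c) * H1 A q w ^ 2)
        = H2 Y q w + κ * (deriv Real.smoothTransition (A q - c) * H1 A q w * H1 A q w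
          + (Real.smoothTransition ∘ fun x : ℝ => A (q + x • ((0, w, 0) :
            (Fin n → ℝ) × (Fin n → ℝ) × ℝ)) - c) 0 * H2 A q w) := by
      simp only [Function.comp_apply, zero_smul, add_zero]
      ring
    rw [e]
    exact h6

lemma H2_add {A Y : (Fin n → ℝ) × (Fin n → ℝ) × ℝ → ℝ} (hA : ContDiff ℝ 2 A)
    (hY : ContDiff ℝ 2 Y) (q : (Fin n → ℝ) × (Fin n → ℝ) × ℝ) (w : Fin n → ℝ) :
    H2 (fun q => A q - Y q) q w = H2 A q w - H2 Y q w := by
  refine H2_line (hA.sub hY) q w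
    (fun s => H1 A (q + s • ((0, w, 0) : (Fin n → ℝ) × (Fin n → ℝ) × ℝ)) w
      - H1 Y (q + s • ((0, w, 0) : (Fin n → ℝ) × (Fin n → ℝ) × ℝ)) w) _ ?_ ?_
  · intro s
    exact (H1_hd hA q w s).fun_sub (H1_hd hY q w s)
  · have h6 := (H2_hd hA q w 0).fun_sub (H2_hd hY q w 0)
    simp only [zero_smul, add_zero] at h6
    exact h6

lemma H2_const {Y : (Fin n → ℝ) × (Fin n → ℝ) × ℝ → ℝ}
    (hY : ContDiff ℝ 2 Y) (c : ℝ) (q : (Fin n → ℝ) × (Fin n → ℝ) × ℝ) (w : Fin n → ℝ) :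
    H2 (fun q => Y q + c) q w = H2 Y q w := by
  refine H2_line (hY.add contDiff_const) q w
    (fun s => H1 Y (q + s • ((0, w, 0) : (Fin n → ℝ) × (Fin n → ℝ) × ℝ)) w) _ ?_ ?_
  · intro s
    exact (H1_hd hY q w s).add_const c
  · have h6 := (H2_hd hY q w 0)
    simp only [zero_smul, add_zero] at h6
    exact h6

lemma H2_congr {A Y : (Fin n → ℝ) × (Fin n → ℝ) × ℝ → ℝ} {q : (Fin n → ℝ) × (Fin n → ℝ) × ℝ}
    (h : A =ᶠ[𝓝 q] Y) (w : Fin n → ℝ) : H2 A q w = H2 Y q w := by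
  unfold H2
  rw [h.fderiv.fderiv_eq]

lemma H2_homog (F : (Fin n → ℝ) × (Fin n → ℝ) × ℝ → ℝ) (q : (Fin n → ℝ) × (Fin n → ℝ) × ℝ)
    (c : ℝ) (w : Fin n → ℝ) : H2 F q (c • w) = c ^ 2 * H2 F q w := by
  unfold H2
  have : ((0, c • w, 0) : (Fin n → ℝ) × (Fin n → ℝ) × ℝ)
      = c • ((0, w, 0) : (Fin n → ℝ) × (Fin n → ℝ) × ℝ) := by
    simp [Prod.smul_mk]
  rw [this, map_smul, map_smul]
  simp only [ContinuousLinearMap.smul_apply, smul_eq_mul]
  ring

lemma H2_cont (h : ContDiff ℝ 2 F) :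
    Continuous (fun z : ((Fin n → ℝ) × (Fin n → ℝ) × ℝ) × (Fin n → ℝ) => H2 F z.1 z.2) := by
  unfold H2
  have h1 : Continuous (fun q => fderiv ℝ (fderiv ℝ F) q) :=
    (sm_fd h).continuous_fderiv (by norm_num)
  have h2 : Continuous (fun z : ((Fin n → ℝ) × (Fin n → ℝ) × ℝ) × (Fin n → ℝ) =>
      ((0, z.2, 0) : (Fin n → ℝ) × (Fin n → ℝ) × ℝ)) := by fun_prop
  exact ((h1.comp continuous_fst).clm_apply h2).clm_apply h2

/-! ### the exhaustion -/

/-- `√(1+s²)` -/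
noncomputable def rho (s : ℝ) : ℝ := Real.sqrt (1 + s ^ 2)

lemma rho_pos (s : ℝ) : 0 < rho s := Real.sqrt_pos.2 (by positivity)

lemma rho_sq (s : ℝ) : rho s ^ 2 = 1 + s ^ 2 := Real.sq_sqrt (by positivity)

lemma rho_cd : ContDiff ℝ (⊤ : ℕ∞) rho := by
  unfold rho
  exact (contDiff_const.add (contDiff_id.pow 2)).sqrt (fun s => by
    have : 0 < 1 + s ^ 2 := by positivity
    exact this.ne')

lemma rho_hd (s : ℝ) : HasDerivAt rho (s / rho s) s := by
  have h1 : HasDerivAt (fun s : ℝ => 1 + s ^ 2) (2 * s) s := by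
    simpa using ((hasDerivAt_id s).pow 2).const_add 1
  have h2 := h1.sqrt (by positivity)
  have h3 : 2 * s / (2 * Real.sqrt (1 + s ^ 2)) = s / rho s := by
    unfold rho
    rw [mul_div_mul_left _ _ (by norm_num)]
  rw [h3] at h2
  exact h2

lemma rho_hd2 (s : ℝ) : HasDerivAt (fun s => s / rho s) (1 / rho s ^ 3) s := by
  have h1 := (hasDerivAt_id s).fun_div (rho_hd s) (rho_pos s).ne'
  have h2 := rho_sq s
  have h0 := (rho_pos s).ne'
  have e : 1 / rho s ^ 3 = (1 * rho s - id s * (s / rho s)) / rho s ^ 2 := by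
    have e2 : 1 * rho s - id s * (s / rho s) = 1 / rho s := by
      rw [id, one_mul, eq_div_iff h0, sub_mul, mul_assoc, div_mul_cancel₀ _ h0]
      nlinarith
    rw [e2]
    field_simp
  rw [e]
  exact h1

lemma le_rho (s : ℝ) : |s| ≤ rho s := by
  unfold rho
  apply Real.abs_le_sqrt
  linarith

lemma rho_le (s : ℝ) : rho s ≤ 1 + |s| := by
  unfold rho
  rw [Real.sqrt_le_left (by positivity)]
  nlinarith [abs_nonneg s, sq_abs s]

/-- the exhaustion. -/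
noncomputable def rr (q : (Fin n → ℝ) × (Fin n → ℝ) × ℝ) : ℝ := ∑ i, rho (q.2.1 i)

lemma rr_cd : ContDiff ℝ (⊤ : ℕ∞) (rr (n := n)) := by
  unfold rr
  apply ContDiff.sum
  intro i _
  exact rho_cd.comp (by fun_prop)

lemma le_rr (q : (Fin n → ℝ) × (Fin n → ℝ) × ℝ) : ‖q.2.1‖ ≤ rr q := by
  have h0 : 0 ≤ rr q := Finset.sum_nonneg fun i _ => (rho_pos _).le
  rw [pi_norm_le_iff_of_nonneg h0]
  intro i
  refine (le_rho _).trans ?_
  exact Finset.single_le_sum (f := fun i => rho (q.2.1 i)) (fun i _ => (rho_pos _).le)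
    (Finset.mem_univ i)

lemma rr_le (q : (Fin n → ℝ) × (Fin n → ℝ) × ℝ) : rr q ≤ n * (1 + ‖q.2.1‖) := by
  unfold rr
  have h1 : ∀ i ∈ (Finset.univ : Finset (Fin n)), rho (q.2.1 i) ≤ 1 + ‖q.2.1‖ := by
    intro i _
    have h2 : |q.2.1 i| ≤ ‖q.2.1‖ := norm_le_pi_norm q.2.1 i
    linarith [rho_le (q.2.1 i)]
  have h3 := Finset.sum_le_sum h1
  rw [Finset.sum_const, Finset.card_univ, Fintype.card_fin, nsmul_eq_mul] at h3
  exact h3

lemma rr_H2 (q : (Fin n → ℝ) × (Fin n → ℝ) × ℝ) (w : Fin n → ℝ) :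
    H2 rr q w = ∑ i, 1 / rho (q.2.1 i) ^ 3 * w i * w i := by
  refine H2_line (rr_cd.of_le (k_le (k := 2))) q w
    (fun s => ∑ i, (q.2.1 i + s * w i) / rho (q.2.1 i + s * w i) * w i) _ ?_ ?_
  · intro s
    unfold rr
    apply HasDerivAt.fun_sum
    intro i _
    have h1 : HasDerivAt (fun s : ℝ => q.2.1 i + s * w i) (w i) s := by
      simpa using ((hasDerivAt_id s).mul_const (w i)).const_add (q.2.1 i)
    have h2 := (rho_hd (q.2.1 i + s * w i)).comp s h1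
    exact h2
  · apply HasDerivAt.fun_sum
    intro i _
    apply HasDerivAt.mul_const
    have h1 : HasDerivAt (fun s : ℝ => q.2.1 i + s * w i) (w i) 0 := by
      simpa using ((hasDerivAt_id (0 : ℝ)).mul_const (w i)).const_add (q.2.1 i)
    have h2 := (rho_hd2 (q.2.1 i + 0 * w i)).comp (0 : ℝ) h1
    simp only [zero_mul, add_zero] at h2
    exact h2

lemma rr_H2_ge {q : (Fin n → ℝ) × (Fin n → ℝ) × ℝ} {ρ : ℝ} (hq : ‖q.2.1‖ ≤ ρ) (w : Fin n → ℝ) :
    1 / (1 + ρ) ^ 3 * ‖w‖ ^ 2 ≤ H2 rr q w := by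
  have hρ : 0 ≤ ρ := (norm_nonneg _).trans hq
  rw [rr_H2]
  have h1 : ∀ i ∈ (Finset.univ : Finset (Fin n)),
      1 / (1 + ρ) ^ 3 * w i ^ 2 ≤ 1 / rho (q.2.1 i) ^ 3 * w i * w i := by
    intro i _
    have h2 : |q.2.1 i| ≤ ‖q.2.1‖ := norm_le_pi_norm q.2.1 i
    have h3 : rho (q.2.1 i) ≤ 1 + ρ := (rho_le _).trans (by linarith)
    have h4 : rho (q.2.1 i) ^ 3 ≤ (1 + ρ) ^ 3 := pow_le_pow_left₀ (rho_pos _).le h3 3
    have h5 : 1 / (1 + ρ) ^ 3 ≤ 1 / rho (q.2.1 i) ^ 3 :=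
      one_div_le_one_div_of_le (pow_pos (rho_pos _) 3) h4
    nlinarith [mul_self_nonneg (w i), mul_le_mul_of_nonneg_right h5 (mul_self_nonneg (w i))]
  refine le_trans ?_ (Finset.sum_le_sum h1)
  rw [← Finset.mul_sum]
  refine mul_le_mul_of_nonneg_left ?_ (by positivity)
  have h6 : 0 ≤ ∑ i, w i ^ 2 := Finset.sum_nonneg fun i _ => sq_nonneg _
  have h7 : ‖w‖ ≤ Real.sqrt (∑ i, w i ^ 2) := by
    rw [pi_norm_le_iff_of_nonneg (Real.sqrt_nonneg _)]
    intro i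
    rw [Real.norm_eq_abs]
    apply Real.abs_le_sqrt
    exact Finset.single_le_sum (f := fun i => w i ^ 2) (fun i _ => sq_nonneg _)
      (Finset.mem_univ i)
  calc ‖w‖ ^ 2 ≤ Real.sqrt (∑ i, w i ^ 2) ^ 2 := pow_le_pow_left₀ (norm_nonneg _) h7 2
    _ = ∑ i, w i ^ 2 := Real.sq_sqrt h6

lemma rr_H2_pos (q : (Fin n → ℝ) × (Fin n → ℝ) × ℝ) {w : Fin n → ℝ} (hw : w ≠ 0) :
    0 < H2 rr q w := by
  rw [rr_H2]
  obtain ⟨i, hi⟩ : ∃ i, w i ≠ 0 := by
    by_contra hc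
    push Not at hc
    exact hw (funext hc)
  apply Finset.sum_pos'
  · intro j _
    rw [mul_assoc]
    have := rho_pos (q.2.1 j)
    exact mul_nonneg (by positivity) (mul_self_nonneg _)
  · refine ⟨i, Finset.mem_univ _, ?_⟩
    rw [mul_assoc]
    have := rho_pos (q.2.1 i)
    exact mul_pos (by positivity) (mul_self_pos.mpr hi)

end

end Pool.Agent.TH217.TL
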