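import Pool.Agent.W594.TL.Two

/-!
The two-state approximation with half of the error (copy of the proof of `two_thm`).
-/

set_option autoImplicit false

namespace Pool.Agent.TH217.TL

open Pool.Agent.W774.TL Pool.Agent.W594.TL Set Filter Topology

/-- `P_TWO` with half of the error in the velocity. -/
theorem two2 (h1 : P_SUM) (h2 : P_DOM1) (h3 : P_DOM3) :
    ∃ K0 : ℕ, ∀ (k : ℕ), K0 ≤ k → ∀ (N : ℤ) (τ a p : ℝ),
  (R1 (3 ^ k) τ a p ∨ R3 (3 ^ k) τ a p) →
    |hp (a + k * (τ + (k + 1)) + N) p (τ + (k + 1)) - k - sg (yy (3 ^ k) τ a p)|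
        ≤ 1 / (2 * ((3 : ℝ) ^ k) ^ 2) ∧
    |fo (a + k * (τ + (k + 1)) + N) p (τ + (k + 1))
        - 3 ^ k * ((1 - sg (yy (3 ^ k) τ a p)) * Co a + 3 * sg (yy (3 ^ k) τ a p) * Co (a - τ))|
        ≤ 1 := by
  have hsm := (tendsto_pow_atTop_atTop_of_one_lt (r := (3 : ℝ)) (by norm_num)).eventually
    (small (2 * ∑' j : ℤ, Real.exp (-((3 : ℝ) ^ j.natAbs / 50)))
      (2 * ∑' j : ℤ, (3 : ℝ) ^ j.natAbs * Real.exp (-((3 : ℝ) ^ j.natAbs / 50))))
  obtain ⟨K0, hK0⟩ := eventually_atTop.1 hsm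
  refine ⟨K0, fun k hk N τ a p hR => ?_⟩
  have hsmk := hK0 k hk
  obtain ⟨x, hx⟩ : ∃ x : ℝ, x = a + k * (τ + (k + 1)) + N := ⟨_, rfl⟩
  obtain ⟨t, ht⟩ : ∃ t : ℝ, t = τ + (k + 1) := ⟨_, rfl⟩
  obtain ⟨A, hA⟩ : ∃ A : ℝ, A = 3 ^ k := ⟨_, rfl⟩
  have hV0 : V (k : ℤ) x t = A * (3 / 4 + S a) := by rw [hx, ht, hA]; exact V0 k N τ a
  have hV1 : V ((k : ℤ) + 1) x t = 3 * A * (3 / 4 + S (a - τ)) := by
    rw [hx, ht, hA, V1 k N τ a]; ring
  have hC0 : Co (x - ((k : ℤ) : ℝ) * t) = Co a := by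
    rw [hx, ht, arg0, per_Co]
  have hC1 : Co (x - (((k : ℤ) + 1 : ℤ) : ℝ) * t) = Co (a - τ) := by
    rw [hx, ht, arg1, per_Co]
  have hA1 : 1 ≤ A := by rw [hA]; exact one_le_pow₀ (by norm_num)
  have hkA : (k : ℝ) + 1 ≤ 3 * A := by
    have : (k : ℝ) + 1 ≤ 3 ^ k := by
      have h := one_add_mul_le_pow (a := (2 : ℝ)) (by norm_num) k
      have hk0 : (0 : ℝ) ≤ k := Nat.cast_nonneg k
      norm_num at h
      linarith
    rw [← hA] at this
    linarith
  rw [← hx, ← ht, ← hA]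
  rw [← hA] at hR hsmk
  -- domination
  have hdomE : ∀ j : ℤ, j ≠ (k : ℤ) → j ≠ (k : ℤ) + 1 → E j x p t ≤
      Real.exp (-(A / 50)) * Real.exp (-((3 : ℝ) ^ j.natAbs / 50)) *
        (E (k : ℤ) x p t + E ((k : ℤ) + 1) x p t) := by
    intro j hj hj'
    have hp0 : 0 < E (k : ℤ) x p t := Real.exp_pos _
    have hp1 : 0 < E ((k : ℤ) + 1) x p t := Real.exp_pos _
    have hq := mul_pos (Real.exp_pos (-(A / 50))) (Real.exp_pos (-((3 : ℝ) ^ j.natAbs / 50)))
    rcases hR with hR | hR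
    · have := h2 k N τ a p (by rw [← hA]; exact hR) j hj hj'
      rw [← hx, ← ht, ← hA] at this
      calc E j x p t ≤ Real.exp (-(A / 50)) * Real.exp (-((3 : ℝ) ^ j.natAbs / 50)) *
            E (k : ℤ) x p t := by
            unfold E
            rw [← Real.exp_add, ← Real.exp_add]
            apply Real.exp_le_exp.2
            push_cast
            linarith
        _ ≤ _ := mul_le_mul_of_nonneg_left (by linarith) hq.le
    · have := h3 k N τ a p (by rw [← hA]; exact hR) j hj hj'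
      rw [← hx, ← ht, ← hA] at this
      calc E j x p t ≤ Real.exp (-(A / 50)) * Real.exp (-((3 : ℝ) ^ j.natAbs / 50)) *
            E ((k : ℤ) + 1) x p t := by
            unfold E
            rw [← Real.exp_add, ← Real.exp_add]
            apply Real.exp_le_exp.2
            push_cast
            linarith
        _ ≤ _ := mul_le_mul_of_nonneg_left (by linarith) hq.le
  -- summability
  obtain ⟨u0, hu0, hu0'⟩ := h1 0 |p|
  obtain ⟨u1, hu1, hu1'⟩ := h1 1 |p|
  have hEp : ∀ j : ℤ, 0 < E j x p t := fun j => Real.exp_pos _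
  have hS : Summable (fun j : ℤ => E j x p t) :=
    Summable.of_nonneg_of_le (fun j => (hEp j).le)
      (fun j => by simpa using hu0' j x p t le_rfl) hu0
  have hS1 : ∀ φ : ℤ → ℝ, (∀ j, |φ j| ≤ (3 : ℝ) ^ j.natAbs) →
      Summable (fun j : ℤ => φ j * E j x p t) := by
    intro φ hφ
    refine Summable.of_norm_bounded hu1 (fun j => ?_)
    rw [Real.norm_eq_abs, abs_mul, abs_of_pos (hEp j)]
    refine le_trans (mul_le_mul_of_nonneg_right (hφ j) (hEp j).le) ?_
    simpa using hu1' j x p t le_rfl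
  let b : ℤ → ℝ := fun j => Real.exp (-(A / 50)) *
    ((3 : ℝ) ^ j.natAbs * Real.exp (-((3 : ℝ) ^ j.natAbs / 50)) +
      3 * A * Real.exp (-((3 : ℝ) ^ j.natAbs / 50)))
  have hb : Summable b := (sumW3.add (sumW0.mul_left (3 * A))).mul_left _
  have hbt : ∑' j, b j = Real.exp (-(A / 50)) *
      (∑' j : ℤ, (3 : ℝ) ^ j.natAbs * Real.exp (-((3 : ℝ) ^ j.natAbs / 50)) +
        3 * A * ∑' j : ℤ, Real.exp (-((3 : ℝ) ^ j.natAbs / 50))) := by
    simp only [b]
    rw [tsum_mul_left, sumW3.tsum_add (sumW0.mul_left (3 * A)), tsum_mul_left]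
  have hbB : ∑' j, b j ≤ 1 / (2 * A ^ 2) := by
    rw [hbt, le_div_iff₀ (by positivity)]
    linarith
  have hbn : ∀ j, 0 ≤ b j := fun j => by simp only [b]; positivity
  have hdom : ∀ (φ : ℤ → ℝ) (c : ℝ), (∀ j, |φ j| ≤ (3 : ℝ) ^ j.natAbs) → |c| ≤ 3 * A →
      ∀ j : ℤ, j ≠ (k : ℤ) → j ≠ (k : ℤ) + 1 →
        (|φ j| + |c|) * E j x p t ≤ b j * (E (k : ℤ) x p t + E ((k : ℤ) + 1) x p t) := by
    intro φ c hφ hc j hj hj'
    have hd := hdomE j hj hj'
    have h3j : (0 : ℝ) < (3 : ℝ) ^ j.natAbs := by positivity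
    calc (|φ j| + |c|) * E j x p t ≤ ((3 : ℝ) ^ j.natAbs + 3 * A) * E j x p t :=
          mul_le_mul_of_nonneg_right (add_le_add (hφ j) hc) (hEp j).le
      _ ≤ ((3 : ℝ) ^ j.natAbs + 3 * A) *
          (Real.exp (-(A / 50)) * Real.exp (-((3 : ℝ) ^ j.natAbs / 50)) *
            (E (k : ℤ) x p t + E ((k : ℤ) + 1) x p t)) :=
          mul_le_mul_of_nonneg_left hd (by positivity)
      _ = _ := by simp only [b]; ring
  have hkk : (k : ℤ) ≠ (k : ℤ) + 1 := by omega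
  -- the weight
  have hsg : sg (yy A τ a p) * (E (k : ℤ) x p t + E ((k : ℤ) + 1) x p t) =
      E ((k : ℤ) + 1) x p t := by
    have he : E ((k : ℤ) + 1) x p t = E (k : ℤ) x p t * Real.exp (yy A τ a p) := by
      unfold E
      rw [← Real.exp_add, hV0, hV1]
      congr 1
      unfold yy
      push_cast
      ring
    rw [he]
    unfold sg
    have : (1 + Real.exp (yy A τ a p)) ≠ 0 := by positivity
    field_simp
  obtain ⟨s, hs⟩ : ∃ s : ℝ, s = sg (yy A τ a p) := ⟨_, rfl⟩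
  have hs0 : 0 < s := hs ▸ sg_pos _
  have hs1 : s < 1 := hs ▸ sg_lt _
  rw [← hs] at hsg ⊢
  have hk0 : (0 : ℝ) ≤ k := Nat.cast_nonneg k
  constructor
  · have hφ : ∀ j : ℤ, |(j : ℝ)| ≤ (3 : ℝ) ^ j.natAbs := by
      intro j
      have h := one_add_mul_le_pow (a := (2 : ℝ)) (by norm_num) j.natAbs
      have hj : |(j : ℝ)| = (j.natAbs : ℝ) := by
        rw [← Int.cast_abs, Int.abs_eq_natAbs]; simp
      rw [hj]
      have hj0 : (0 : ℝ) ≤ (j.natAbs : ℝ) := Nat.cast_nonneg _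
      norm_num at h
      linarith
    have := gen (fun j => E j x p t) (fun j => (j : ℝ)) b hEp hS (hS1 _ hφ) (k : ℤ) ((k : ℤ) + 1)
      hkk hb (1 / (2 * A ^ 2)) (k + s) (by push_cast; linear_combination hsg) hbB hbn
      (hdom _ _ hφ (by rw [abs_of_nonneg (by positivity)]; linarith))
    unfold hp Z
    rw [sub_sub]
    exact this
  · have hφ : ∀ j : ℤ, |(3 : ℝ) ^ j.natAbs * Co (x - j * t)| ≤ (3 : ℝ) ^ j.natAbs := by
      intro j
      rw [abs_mul, abs_of_pos (by positivity)]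
      have : |Co (x - j * t)| ≤ 1 := Real.abs_cos_le_one _
      have h3 : (0 : ℝ) < (3 : ℝ) ^ j.natAbs := by positivity
      nlinarith
    have hCa : |Co a| ≤ 1 := Real.abs_cos_le_one _
    have hCb : |Co (a - τ)| ≤ 1 := Real.abs_cos_le_one _
    have hc : |A * ((1 - s) * Co a + 3 * s * Co (a - τ))| ≤ 3 * A := by
      rw [abs_mul, abs_of_pos (by linarith)]
      have : |(1 - s) * Co a + 3 * s * Co (a - τ)| ≤ 3 := by
        refine (abs_add_le _ _).trans ?_
        rw [abs_mul, abs_mul, abs_of_pos (by linarith : 0 < 1 - s),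
          abs_of_pos (by linarith : 0 < 3 * s)]
        nlinarith [abs_nonneg (Co a), abs_nonneg (Co (a - τ))]
      nlinarith
    have := gen (fun j => E j x p t) (fun j => (3 : ℝ) ^ j.natAbs * Co (x - j * t)) b hEp hS
      (hS1 _ hφ) (k : ℤ) ((k : ℤ) + 1) hkk hb (1 / (2 * A ^ 2))
      (A * ((1 - s) * Co a + 3 * s * Co (a - τ))) (by
        rw [hC0, hC1, Int.natAbs_natCast, nat1, pow_succ, ← hA]
        linear_combination (-A * Co a + 3 * A * Co (a - τ)) * hsg) hbB hbn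
      (hdom _ _ hφ hc)
    unfold fo Z
    refine this.trans ?_
    rw [div_le_one (by positivity)]
    nlinarith


end Pool.Agent.TH217.TL
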